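import Pool.Agent.H56.EX.Ins

/-! Common definitions of the EXACT project, loop part:
the cube root of unity `q`, operators `eop i`, the list of properties `PsiProps` of the
polynomial qKZ solution, the leg relation of a pair of patterns and the leg sums. -/

namespace H56.EX

open scoped BigOperators

variable {L : ℕ}

/-- `q = e^{2πi/3}` -/
noncomputable def q : ℂ := ⟨-1 / 2, Real.sqrt 3 / 2⟩

lemma q_sq : q ^ 2 + q + 1 = 0 := by
  have h : Real.sqrt 3 * Real.sqrt 3 = 3 := Real.mul_self_sqrt (by norm_num)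
  apply Complex.ext
  · simp [q, pow_two]; nlinarith
  · simp [q, pow_two]; ring

lemma q_cube : q ^ 3 = 1 := by
  have h := q_sq
  have : q ^ 3 - 1 = (q - 1) * (q ^ 2 + q + 1) := by ring
  rw [h, mul_zero] at this
  linear_combination this

lemma q_ne_zero : q ≠ 0 := by
  intro h
  have := q_cube
  rw [h] at this
  norm_num at this

lemma q_inv : q⁻¹ = q ^ 2 := by
  have h := q_cube
  have h0 := q_ne_zero
  field_simp
  rw [← h]

lemma q_ne_one : q ≠ 1 := by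
  intro h
  have := q_sq
  rw [h] at this
  norm_num at this

/-- the Temperley-Lieb generator `e_i` on vectors -/
noncomputable def eop (i : ℤ) (v : Pat L → ℂ) (P : Pat L) : ℂ :=
  ∑ P' : Pat L, if E i P' = P then v P' else 0

/-- replace the parameter of strand `i` (and its translates) by `t` -/
def upd (L : ℕ) (ζ : ℤ → ℂ) (i : ℤ) (t : ℂ) : ℤ → ℂ :=
  fun x => if Cg L x i then t else ζ x

/-- exchange the parameters of the strands `i` and `i+1` (and translates) -/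
def swp (L : ℕ) (i : ℤ) (ζ : ℤ → ℂ) : ℤ → ℂ :=
  fun x => if Cg L x i then ζ (x + 1) else if Cg L x (i + 1) then ζ (x - 1) else ζ x

/-- `L`-periodic families of spectral parameters -/
def Per (L : ℕ) (ζ : ℤ → ℂ) : Prop := ∀ x, ζ (x + L) = ζ x

/-- base pattern condition: all arcs nested around the gap between strand `-1` and strand `0`. -/
def IsBase (P : Pat L) : Prop := ∀ x : ℤ, -(L : ℤ) ≤ 2 * x → 2 * x < L → P.m x = -1 - x

/-- Properties of the polynomial qKZ solution used by the leg formulas.  `Ψ L P ζ` is the component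
at the pattern `P`, with parameters `ζ` (an `L`-periodic function on the universal cover). -/
structure PsiProps (Ψ : ∀ L : ℕ, Pat L → (ℤ → ℂ) → ℂ) : Prop where
  /-- only the parameters in one period matter -/
  congr : ∀ (L : ℕ) (P : Pat L) (ζ ζ' : ℤ → ℂ), (∀ x : ℤ, 0 ≤ x → x < L → ζ x = ζ' x) →
    Ψ L P ζ = Ψ L P ζ'
  /-- jointly polynomial in the parameters of one period -/
  mv : ∀ (L : ℕ) (P : Pat L), ∃ p : MvPolynomial (Fin L) ℂ, ∀ ζ : ℤ → ℂ,
    Ψ L P ζ = MvPolynomial.eval (fun k : Fin L => ζ ((k : ℕ) : ℤ)) p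
  /-- polynomial of degree `≤ L-1` in each parameter -/
  poly : ∀ (L : ℕ) (P : Pat L) (ζ : ℤ → ℂ), Per L ζ → ∀ i : ℤ,
    ∃ p : Polynomial ℂ, p.natDegree ≤ L - 1 ∧ ∀ t, Ψ L P (upd L ζ i t) = p.eval t
  /-- exchange relation -/
  exch : ∀ (L : ℕ) (P : Pat L) (ζ : ℤ → ℂ), Per L ζ → ∀ i : ℤ,
    (q * ζ (i + 1) - q⁻¹ * ζ i) * Ψ L P (swp L i ζ) =
      (q * ζ i - q⁻¹ * ζ (i + 1)) * Ψ L P ζ +
        (ζ i - ζ (i + 1)) * eop i (fun P' => Ψ L P' ζ) P
  /-- rotation covariance -/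
  rot : ∀ (L : ℕ) (P : Pat L) (ζ : ℤ → ℂ), Per L ζ →
    Ψ L (rot P) (fun x => ζ (x - 1)) = Ψ L P ζ
  /-- at `ζ i = q² ζ (i+1)` only patterns with a small arc at `i` survive -/
  arc_zero : ∀ (L : ℕ) (P : Pat L) (ζ : ℤ → ℂ), Per L ζ → ∀ i : ℤ, ζ i = q ^ 2 * ζ (i + 1) →
    P.m i ≠ i + 1 → Ψ L P ζ = 0
  /-- arc recursion -/
  arc : ∀ (L : ℕ) (P : Pat L) (ζ : ℤ → ℂ), Per (L + 2) ζ → ∀ i : ℤ,
    ζ i = q ^ 2 * ζ (i + 1) →
    Ψ (L + 2) (ins i P) ζ =
      (-q * ζ (i + 1) * (∏ s ∈ Finset.range L, (ζ (i + 2 + s) - q * ζ (i + 1)) ^ 2) / 3 ^ L) *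
        Ψ L P (fun x => ζ (phi L i x))
  /-- base component -/
  base : ∀ (L : ℕ) (P : Pat L) (ζ : ℤ → ℂ), IsBase P →
    Ψ L P ζ = ∏ j ∈ Finset.range L, ∏ i ∈ Finset.range j,
      (q * ζ j - q⁻¹ * ζ i) / (q - q⁻¹)

/-! ### The leg relation

`Pt : Pat Lt` top pattern, `Pb : Pat Lb` bottom pattern, `kt, kb` = number of strands in the hole at
the top / bottom, `M` = number of glued strands; in all uses `Lt = kt + M`, `Lb = kb + M`.
Top hole ends: positions `0..kt-1`; glued top positions `kt..kt+M-1` (mod `Lt`); same at the bottom.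
Vertices of the composite graph: `inl x` top boundary points, `inr y` bottom boundary points
(on the universal covers). -/

section leg

variable {Lt Lb : ℕ}

inductive Step (kt kb M : ℕ) (Pt : Pat Lt) (Pb : Pat Lb) : ℤ ⊕ ℤ → ℤ ⊕ ℤ → Prop
  | top (x : ℤ) : Step kt kb M Pt Pb (Sum.inl x) (Sum.inl (Pt.m x))
  | bot (y : ℤ) : Step kt kb M Pt Pb (Sum.inr y) (Sum.inr (Pb.m y))
  | glue (a : ℤ) (j : ℕ) (hj : j < M) : Step kt kb M Pt Pb
      (Sum.inl (kt + j + Lt * a)) (Sum.inr (kb + j + Lb * a))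

/-- connectivity in the composite graph -/
def Conn (kt kb M : ℕ) (Pt : Pat Lt) (Pb : Pat Lb) : ℤ ⊕ ℤ → ℤ ⊕ ℤ → Prop :=
  Relation.EqvGen (Step kt kb M Pt Pb)

/-- position of the hole end `u` on sheet `a` -/
def hpos (Lt Lb kt kb : ℕ) (u : Fin kt ⊕ Fin kb) (a : ℤ) : ℤ ⊕ ℤ :=
  match u with
  | Sum.inl s => Sum.inl ((s : ℕ) + Lt * a)
  | Sum.inr s => Sum.inr ((s : ℕ) + Lb * a)

/-- Leg class: every path between two hole ends goes round the cylinder an odd number of times. -/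
def Leg (kt kb M : ℕ) (Pt : Pat Lt) (Pb : Pat Lb) : Prop :=
  ∀ (u v : Fin kt ⊕ Fin kb) (a b : ℤ),
    Conn kt kb M Pt Pb (hpos Lt Lb kt kb u a) (hpos Lt Lb kt kb v b) →
    (u = v ∧ a = b) ∨ Odd (b - a)

open Classical in
/-- leg sum of two vectors -/
noncomputable def legSum (kt kb M : ℕ) (v : Pat Lt → ℂ) (w : Pat Lb → ℂ) : ℂ :=
  ∑ Pt, ∑ Pb, if Leg kt kb M Pt Pb then v Pt * w Pb else 0

end leg

/-- periodic extension of a sequence of parameters -/
def par (L : ℕ) (s : ℕ → ℂ) : ℤ → ℂ := fun x => s (x % (L : ℤ)).toNat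

/-- prepend a parameter -/
def scons (a : ℂ) (s : ℕ → ℂ) : ℕ → ℂ
  | 0 => a
  | n + 1 => s n

/-- The (2,2) leg function: top legs `a0,a1`, bottom legs `b0,b1`, `M` glued strands `z`. -/
noncomputable def F22 (Ψ : ∀ L : ℕ, Pat L → (ℤ → ℂ) → ℂ) (M : ℕ) (a0 a1 b0 b1 : ℂ)
    (z : ℕ → ℂ) : ℂ :=
  legSum 2 2 M (fun P : Pat (M + 2) => Ψ (M + 2) P (par (M + 2) (scons a0 (scons a1 z))))
    (fun P : Pat (M + 2) => Ψ (M + 2) P
      (par (M + 2) (scons b0⁻¹ (scons b1⁻¹ (fun n => (z n)⁻¹)))))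

/-- The (1,3) leg function. -/
noncomputable def F13 (Ψ : ∀ L : ℕ, Pat L → (ℤ → ℂ) → ℂ) (M : ℕ) (a b0 b1 b2 : ℂ)
    (z : ℕ → ℂ) : ℂ :=
  legSum 1 3 M (fun P : Pat (M + 1) => Ψ (M + 1) P (par (M + 1) (scons a z)))
    (fun P : Pat (M + 3) => Ψ (M + 3) P
      (par (M + 3) (scons b0⁻¹ (scons b1⁻¹ (scons b2⁻¹ (fun n => (z n)⁻¹))))))

/-- pair weight -/
noncomputable def fpair (ε ε' z w : ℂ) : ℂ :=
  if ε = ε' then z ^ 2 + z * w + w ^ 2
  else if ε = q then (w - q * z) ^ 3 / (w - z) else (z - q * w) ^ 3 / (z - w)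

/-- The explicit sum `S_M(c;z)` for four legs: sum over `ε ∈ {q, q²}^M` (`true` is `q`). -/
noncomputable def SM (M : ℕ) (c : Fin 4 → ℂ) (z : ℕ → ℂ) : ℂ :=
  ∑ ε : Fin M → Bool,
    (∏ j : Fin M, (if ε j then q else q ^ 2) *
      ∏ l : Fin 4, (c l - (if ε j then q else q ^ 2) * z j)) *
    ∏ j : Fin M, ∏ k : Fin M, if j < k then
      fpair (if ε j then q else q ^ 2) (if ε k then q else q ^ 2) (z j) (z k) else 1

end H56.EX
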