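import Pool.Agent.H56.EX.Pat

/-! Temperley-Lieb relations for the moves `E i` on link patterns. -/

namespace H56.EX

variable {L : ℕ}

lemma Pat.eq_of_dvd {P Q : Pat L} {x y : ℤ} (h : (L : ℤ) ∣ y - x) (hx : P.m x = Q.m x) :
    P.m y = Q.m y := by
  rw [P.per_dvd h, Q.per_dvd h, hx]

/-- congruence of two positions -/
abbrev Cg (L : ℕ) (x y : ℤ) : Prop := (L : ℤ) ∣ x - y

lemma Cg.symm' {x y : ℤ} (h : Cg L x y) : Cg L y x := by
  unfold Cg at *
  have e : y - x = -(x - y) := by ring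
  rw [e]; exact (dvd_neg).2 h

lemma Cg.trans' {x y z : ℤ} (h : Cg L x y) (h' : Cg L y z) : Cg L x z := by
  unfold Cg at *
  have := dvd_add h h'
  have e : x - y + (y - z) = x - z := by ring
  rwa [e] at this

lemma Cg.refl' (x : ℤ) : Cg L x x := by unfold Cg; simp

lemma Cg.add {x y : ℤ} (c : ℤ) (h : Cg L x y) : Cg L (x + c) (y + c) := by
  unfold Cg at *
  have e : x + c - (y + c) = x - y := by ring
  rwa [e]

lemma Cg.sub {x y : ℤ} (c : ℤ) (h : Cg L x y) : Cg L (x - c) (y - c) := by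
  unfold Cg at *
  have e : x - c - (y - c) = x - y := by ring
  rwa [e]

lemma Cg.m {x y : ℤ} (P : Pat L) (h : Cg L x y) : Cg L (P.m x) (P.m y) := by
  unfold Cg at *
  rw [P.per_dvd h]
  have e : P.m y + (x - y) - P.m y = x - y := by ring
  rwa [e]

lemma Cg.m' {x y : ℤ} (P : Pat L) (h : Cg L (P.m x) (P.m y)) : Cg L x y := by
  have := Cg.m P h
  rwa [P.inv, P.inv] at this

lemma not_Cg_succ (hL : 2 ≤ L) (x : ℤ) : ¬ Cg L x (x + 1) := by
  unfold Cg
  intro h
  have e : x - (x + 1) = -1 := by ring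
  rw [e] at h
  have := Int.le_of_dvd (by norm_num) ((dvd_neg).1 h)
  omega

namespace E

variable (P : Pat L) (i : ℤ)

lemma of_i {x : ℤ} (h : Cg L x i) : (E i P).m x = x + 1 := tl_of_dvd i h

lemma of_succ {x : ℤ} (h : Cg L x (i + 1)) : (E i P).m x = x - 1 :=
  tl_of_dvd_succ i P.two_le h

lemma self : (E i P).m i = i + 1 := of_i P i (Cg.refl' i)
lemma succ : (E i P).m (i + 1) = i := by rw [of_succ P i (Cg.refl' _)]; ring

lemma of_m {x : ℤ} (h1 : ¬ Cg L x i) (h2 : ¬ Cg L x (i + 1)) (h : Cg L (P.m x) i) :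
    (E i P).m x = P.m (P.m x + 1) := tl_of_m i h1 h2 h

lemma of_m_succ {x : ℤ} (h1 : ¬ Cg L x i) (h2 : ¬ Cg L x (i + 1)) (h : Cg L (P.m x) (i + 1)) :
    (E i P).m x = P.m (P.m x - 1) := tl_of_m_succ i P.two_le h1 h2 h

lemma other {x : ℤ} (h1 : ¬ Cg L x i) (h2 : ¬ Cg L x (i + 1)) (h3 : ¬ Cg L (P.m x) i)
    (h4 : ¬ Cg L (P.m x) (i + 1)) : (E i P).m x = P.m x := tl_of_else i h1 h2 h3 h4

lemma mem_not {x : ℤ} (h1 : ¬ Cg L x i) (h2 : ¬ Cg L x (i + 1)) :
    ¬ Cg L ((E i P).m x) i ∧ ¬ Cg L ((E i P).m x) (i + 1) := by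
  constructor
  · intro h
    have := of_i P i h
    rw [(E i P).inv] at this
    apply h2
    rw [this]
    exact Cg.add 1 h
  · intro h
    have := of_succ P i h
    rw [(E i P).inv] at this
    apply h1
    rw [this]
    have := Cg.sub 1 h
    rwa [show i + 1 - 1 = i by ring] at this

/-- `e_i` does nothing to a pattern with a small arc at `i`. -/
lemma eq_self (h : P.m i = i + 1) : E i P = P := by
  apply Pat.ext
  funext x
  by_cases h1 : Cg L x i
  · exact Pat.eq_of_dvd h1 (by rw [self, h])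
  by_cases h2 : Cg L x (i + 1)
  · refine Pat.eq_of_dvd h2 ?_
    rw [succ]
    have := P.inv i
    rw [h] at this
    exact this.symm
  have hi : P.m (i + 1) = i := by
    have := P.inv i
    rwa [h] at this
  have h3 : ¬ Cg L (P.m x) i := by
    intro h'
    apply h2
    have := Cg.m P h'
    rwa [P.inv, h] at this
  have h4 : ¬ Cg L (P.m x) (i + 1) := by
    intro h'
    apply h1
    have := Cg.m P h'
    rwa [P.inv, hi] at this
  exact other P i h1 h2 h3 h4

lemma idem : E i (E i P) = E i P := eq_self _ _ (self P i)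

end E

lemma E_congr {i j : ℤ} (h : Cg L i j) (P : Pat L) : E i P = E j P := by
  apply Pat.ext
  funext x
  have e1 : ∀ y : ℤ, ((L : ℤ) ∣ y - i ↔ (L : ℤ) ∣ y - j) := fun y =>
    ⟨fun h' => Cg.trans' (L := L) h' h, fun h' => Cg.trans' (L := L) h' (Cg.symm' h)⟩
  have e2 : ∀ y : ℤ, ((L : ℤ) ∣ y - (i + 1) ↔ (L : ℤ) ∣ y - (j + 1)) := fun y =>
    ⟨fun h' => Cg.trans' (L := L) h' (Cg.add 1 h),
      fun h' => Cg.trans' (L := L) h' (Cg.symm' (Cg.add 1 h))⟩
  show tl L i P.m x = tl L j P.m x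
  unfold tl
  simp only [e1, e2]

lemma E_add_L (i : ℤ) (P : Pat L) : E (i + L) P = E i P :=
  E_congr (by unfold Cg; simp) P

lemma rot_E (i : ℤ) (P : Pat L) : rot (E i P) = E (i + 1) (rot P) := by
  apply Pat.ext
  funext x
  show tl L i P.m (x - 1) + 1 = tl L (i + 1) (fun x => P.m (x - 1) + 1) x
  unfold tl
  have e1 : x - (i + 1) = x - 1 - i := by ring
  have e2 : x - (i + 1 + 1) = x - 1 - (i + 1) := by ring
  have e3 : P.m (x - 1) + 1 - (i + 1) = P.m (x - 1) - i := by ring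
  have e4 : P.m (x - 1) + 1 - (i + 1 + 1) = P.m (x - 1) - (i + 1) := by ring
  simp only [e1, e2, e3, e4]
  split_ifs <;> simp

/-- far commutation -/
lemma E_comm {i j : ℤ} (P : Pat L) (h1 : ¬ Cg L i j) (h2 : ¬ Cg L i (j + 1))
    (h3 : ¬ Cg L (i + 1) j) : E i (E j P) = E j (E i P) := by
  have hL := P.two_le
  have h4 : ¬ Cg L (i + 1) (j + 1) := by
    intro h
    apply h1
    have := Cg.sub 1 h
    simpa using this
  -- one half
  have key : ∀ (i j : ℤ), ¬ Cg L i j → ¬ Cg L i (j + 1) → ¬ Cg L (i + 1) j →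
      ¬ Cg L (i + 1) (j + 1) → ∀ x, ¬ Cg L x i → ¬ Cg L x (i + 1) → ¬ Cg L x j →
      ¬ Cg L x (j + 1) → (Cg L (P.m x) i ∨ Cg L (P.m x) (i + 1)) →
      (E i (E j P)).m x = (E j (E i P)).m x := by
    intro i j h1 h2 h3 h4 x x1 x2 x3 x4 hx
    rcases hx with hx | hx
    · have y3 : ¬ Cg L (P.m x) j := fun h => h1 (Cg.trans' (Cg.symm' hx) h)
      have y4 : ¬ Cg L (P.m x) (j + 1) := fun h => h2 (Cg.trans' (Cg.symm' hx) h)
      have ej : (E j P).m x = P.m x := E.other P j x3 x4 y3 y4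
      have ei : (E i P).m x = P.m (P.m x + 1) := E.of_m P i x1 x2 hx
      have hx' : Cg L (P.m x + 1) (i + 1) := Cg.add 1 hx
      have z3 : ¬ Cg L (P.m x + 1) j := fun h => h3 (Cg.trans' (Cg.symm' hx') h)
      have z4 : ¬ Cg L (P.m x + 1) (j + 1) := fun h => h4 (Cg.trans' (Cg.symm' hx') h)
      have L1 : (E i (E j P)).m x = (E j P).m (P.m x + 1) := by
        rw [E.of_m (E j P) i x1 x2 (by rw [ej]; exact hx), ej]
      rw [L1]
      obtain ⟨w1, w2⟩ := E.mem_not P i x1 x2
      rw [ei] at w1 w2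
      by_cases c1 : Cg L (P.m (P.m x + 1)) j
      · rw [E.of_m P j z3 z4 c1, E.of_m (E i P) j x3 x4 (by rw [ei]; exact c1), ei]
        set w := P.m (P.m x + 1) with hw
        have c1' : Cg L (w + 1) (j + 1) := Cg.add 1 c1
        have v1 : ¬ Cg L (w + 1) i := fun h => h2 (Cg.trans' (Cg.symm' h) c1')
        have v2 : ¬ Cg L (w + 1) (i + 1) := fun h => h4 (Cg.trans' (Cg.symm' h) c1')
        symm
        apply E.other P i v1 v2
        · intro h
          -- P.m (w+1) ≡ i ≡ P.m x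
          have := Cg.m' P (Cg.trans' h (Cg.symm' hx))
          exact x4 (Cg.trans' (Cg.symm' this) c1')
        · intro h
          have h5 : Cg L (P.m (w + 1)) (P.m w) := by
            rw [hw, P.inv]; exact Cg.trans' h (Cg.symm' hx')
          exact not_Cg_succ hL w (Cg.symm' (Cg.m' P h5))
      by_cases c2 : Cg L (P.m (P.m x + 1)) (j + 1)
      · rw [E.of_m_succ P j z3 z4 c2, E.of_m_succ (E i P) j x3 x4 (by rw [ei]; exact c2), ei]
        set w := P.m (P.m x + 1) with hw
        have c1' : Cg L (w - 1) j := by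
          have := Cg.sub 1 c2
          simpa using this
        have v1 : ¬ Cg L (w - 1) i := fun h => h1 (Cg.trans' (Cg.symm' h) c1')
        have v2 : ¬ Cg L (w - 1) (i + 1) := fun h => h3 (Cg.trans' (Cg.symm' h) c1')
        symm
        apply E.other P i v1 v2
        · intro h
          have := Cg.m' P (Cg.trans' h (Cg.symm' hx))
          exact x3 (Cg.trans' (Cg.symm' this) c1')
        · intro h
          have h5 : Cg L (P.m (w - 1)) (P.m w) := by
            rw [hw, P.inv]; exact Cg.trans' h (Cg.symm' hx')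
          have h6 := Cg.m' P h5
          apply not_Cg_succ hL (w - 1)
          rwa [show w - 1 + 1 = w by ring]
      · rw [E.other P j z3 z4 c1 c2, E.other (E i P) j x3 x4 (by rw [ei]; exact c1)
          (by rw [ei]; exact c2), ei]
    · have y3 : ¬ Cg L (P.m x) j := fun h => h3 (Cg.trans' (Cg.symm' hx) h)
      have y4 : ¬ Cg L (P.m x) (j + 1) := fun h => h4 (Cg.trans' (Cg.symm' hx) h)
      have ej : (E j P).m x = P.m x := E.other P j x3 x4 y3 y4
      have ei : (E i P).m x = P.m (P.m x - 1) := E.of_m_succ P i x1 x2 hx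
      have hx' : Cg L (P.m x - 1) i := by
        have := Cg.sub 1 hx
        simpa using this
      have z3 : ¬ Cg L (P.m x - 1) j := fun h => h1 (Cg.trans' (Cg.symm' hx') h)
      have z4 : ¬ Cg L (P.m x - 1) (j + 1) := fun h => h2 (Cg.trans' (Cg.symm' hx') h)
      have L1 : (E i (E j P)).m x = (E j P).m (P.m x - 1) := by
        rw [E.of_m_succ (E j P) i x1 x2 (by rw [ej]; exact hx), ej]
      rw [L1]
      obtain ⟨w1, w2⟩ := E.mem_not P i x1 x2
      rw [ei] at w1 w2
      by_cases c1 : Cg L (P.m (P.m x - 1)) j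
      · rw [E.of_m P j z3 z4 c1, E.of_m (E i P) j x3 x4 (by rw [ei]; exact c1), ei]
        set w := P.m (P.m x - 1) with hw
        have c1' : Cg L (w + 1) (j + 1) := Cg.add 1 c1
        have v1 : ¬ Cg L (w + 1) i := fun h => h2 (Cg.trans' (Cg.symm' h) c1')
        have v2 : ¬ Cg L (w + 1) (i + 1) := fun h => h4 (Cg.trans' (Cg.symm' h) c1')
        symm
        apply E.other P i v1 v2
        · intro h
          have h5 : Cg L (P.m (w + 1)) (P.m w) := by
            rw [hw, P.inv]; exact Cg.trans' h (Cg.symm' hx')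
          exact not_Cg_succ hL w (Cg.symm' (Cg.m' P h5))
        · intro h
          have := Cg.m' P (Cg.trans' h (Cg.symm' hx))
          exact x4 (Cg.trans' (Cg.symm' this) c1')
      by_cases c2 : Cg L (P.m (P.m x - 1)) (j + 1)
      · rw [E.of_m_succ P j z3 z4 c2, E.of_m_succ (E i P) j x3 x4 (by rw [ei]; exact c2), ei]
        set w := P.m (P.m x - 1) with hw
        have c1' : Cg L (w - 1) j := by
          have := Cg.sub 1 c2
          simpa using this
        have v1 : ¬ Cg L (w - 1) i := fun h => h1 (Cg.trans' (Cg.symm' h) c1')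
        have v2 : ¬ Cg L (w - 1) (i + 1) := fun h => h3 (Cg.trans' (Cg.symm' h) c1')
        symm
        apply E.other P i v1 v2
        · intro h
          have h5 : Cg L (P.m (w - 1)) (P.m w) := by
            rw [hw, P.inv]; exact Cg.trans' h (Cg.symm' hx')
          have h6 := Cg.m' P h5
          apply not_Cg_succ hL (w - 1)
          rwa [show w - 1 + 1 = w by ring]
        · intro h
          have := Cg.m' P (Cg.trans' h (Cg.symm' hx))
          exact x3 (Cg.trans' (Cg.symm' this) c1')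
      · rw [E.other P j z3 z4 c1 c2, E.other (E i P) j x3 x4 (by rw [ei]; exact c1)
          (by rw [ei]; exact c2), ei]
  have h2' : ¬ Cg L j (i + 1) := fun h => h3 (Cg.symm' h)
  have h3' : ¬ Cg L (j + 1) i := fun h => h2 (Cg.symm' h)
  have h1' : ¬ Cg L j i := fun h => h1 (Cg.symm' h)
  have h4' : ¬ Cg L (j + 1) (i + 1) := fun h => h4 (Cg.symm' h)
  apply Pat.ext
  funext x
  by_cases x1 : Cg L x i
  · refine Pat.eq_of_dvd x1 ?_
    rw [E.self, E.other (E i P) j h1 h2 (by rw [E.self]; exact h3) (by rw [E.self]; exact h4),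
      E.self]
  by_cases x2 : Cg L x (i + 1)
  · refine Pat.eq_of_dvd x2 ?_
    rw [E.succ, E.other (E i P) j h3 h4 (by rw [E.succ]; exact h1) (by rw [E.succ]; exact h2),
      E.succ]
  by_cases x3 : Cg L x j
  · refine Pat.eq_of_dvd x3 ?_
    rw [E.self, E.other (E j P) i h1' h2' (by rw [E.self]; exact h3') (by rw [E.self]; exact h4'),
      E.self]
  by_cases x4 : Cg L x (j + 1)
  · refine Pat.eq_of_dvd x4 ?_
    rw [E.succ, E.other (E j P) i h3' h4' (by rw [E.succ]; exact h1') (by rw [E.succ]; exact h2'),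
      E.succ]
  by_cases y1 : Cg L (P.m x) i
  · exact key i j h1 h2 h3 h4 x x1 x2 x3 x4 (Or.inl y1)
  by_cases y2 : Cg L (P.m x) (i + 1)
  · exact key i j h1 h2 h3 h4 x x1 x2 x3 x4 (Or.inr y2)
  by_cases y3 : Cg L (P.m x) j
  · exact (key j i h1' h2' h3' h4' x x3 x4 x1 x2 (Or.inl y3)).symm
  by_cases y4 : Cg L (P.m x) (j + 1)
  · exact (key j i h1' h2' h3' h4' x x3 x4 x1 x2 (Or.inr y4)).symm
  have ej : (E j P).m x = P.m x := E.other P j x3 x4 y3 y4
  have ei : (E i P).m x = P.m x := E.other P i x1 x2 y1 y2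
  rw [E.other (E j P) i x1 x2 (by rw [ej]; exact y1) (by rw [ej]; exact y2), ej,
    E.other (E i P) j x3 x4 (by rw [ei]; exact y3) (by rw [ei]; exact y4), ei]

/-- `e_i e_{i+1} e_i = e_i` -/
lemma E_braid (i : ℤ) (P : Pat L) (hL : 3 ≤ L) : E i (E (i + 1) (E i P)) = E i P := by
  set Q := E i P with hQ
  have hQi : Q.m i = i + 1 := E.self P i
  have hQi1 : Q.m (i + 1) = i := E.succ P i
  have n1 : ¬ Cg L i (i + 1) := not_Cg_succ (by omega) i
  have n2 : ¬ Cg L (i + 1) (i + 1 + 1) := not_Cg_succ (by omega) (i + 1)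
  have n3 : ¬ Cg L i (i + 1 + 1) := by
    unfold Cg
    intro h
    have e : i - (i + 1 + 1) = -2 := by ring
    rw [e] at h
    have := Int.le_of_dvd (by norm_num) ((dvd_neg).1 h)
    omega
  have n1' : ¬ Cg L (i + 1) i := fun h => n1 (Cg.symm' h)
  have n2' : ¬ Cg L (i + 1 + 1) (i + 1) := fun h => n2 (Cg.symm' h)
  have n3' : ¬ Cg L (i + 1 + 1) i := fun h => n3 (Cg.symm' h)
  set R := E (i + 1) Q with hR
  have hRi : R.m i = Q.m (i + 1 + 1) := by
    have := E.of_m Q (i + 1) n1 n3 (by rw [hQi]; exact Cg.refl' _)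
    rw [hQi] at this
    exact this
  apply Pat.ext
  funext x
  by_cases x1 : Cg L x i
  · exact Pat.eq_of_dvd x1 (by rw [E.self, hQi])
  by_cases x2 : Cg L x (i + 1)
  · exact Pat.eq_of_dvd x2 (by rw [E.succ, hQi1])
  by_cases x3 : Cg L x (i + 1 + 1)
  · refine Pat.eq_of_dvd x3 ?_
    have r1 : R.m (i + 1 + 1) = i + 1 := E.succ Q (i + 1)
    rw [E.of_m_succ R i n3' n2' (by rw [r1]; exact Cg.refl' _), r1, show i + 1 - 1 = i by ring, hRi]
  -- Q.m x is not congruent to i, i+1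
  have y1 : ¬ Cg L (Q.m x) i := by
    intro h
    have := Cg.m Q h
    rw [Q.inv, hQi] at this
    exact x2 this
  have y2 : ¬ Cg L (Q.m x) (i + 1) := by
    intro h
    have := Cg.m Q h
    rw [Q.inv, hQi1] at this
    exact x1 this
  by_cases y3 : Cg L (Q.m x) (i + 1 + 1)
  · -- R.m x = Q.m (Q.m x - 1) ≡ i
    have r1 : R.m x = Q.m (Q.m x - 1) := E.of_m_succ Q (i + 1) x2 x3 y3
    have c1 : Cg L (Q.m x - 1) (i + 1) := by
      have := Cg.sub 1 y3
      simpa using this
    have r2 : Q.m (Q.m x - 1) = Q.m x - 1 - 1 := by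
      have := Q.per_dvd c1
      rw [hQi1] at this
      rw [this]; ring
    rw [r2] at r1
    have c2 : Cg L (R.m x) i := by
      rw [r1]
      have := Cg.sub 1 c1
      simpa using this
    rw [E.of_m R i x1 x2 c2, r1]
    have c3 : Cg L (Q.m x - 1) (i + 1) := c1
    rw [show Q.m x - 1 - 1 + 1 = Q.m x - 1 by ring]
    rw [E.of_i Q (i + 1) c3]; ring
  · have r1 : R.m x = Q.m x := E.other Q (i + 1) x2 x3 y2 y3
    rw [E.other R i x1 x2 (by rw [r1]; exact y1) (by rw [r1]; exact y2), r1]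

/-- `e_{i+1} e_i e_{i+1} = e_{i+1}` -/
lemma E_braid' (i : ℤ) (P : Pat L) (hL : 3 ≤ L) :
    E (i + 1) (E i (E (i + 1) P)) = E (i + 1) P := by
  set Q := E (i + 1) P with hQ
  have hQi : Q.m (i + 1) = i + 1 + 1 := E.self P (i + 1)
  have hQi1 : Q.m (i + 1 + 1) = i + 1 := E.succ P (i + 1)
  have n1 : ¬ Cg L i (i + 1) := not_Cg_succ (by omega) i
  have n2 : ¬ Cg L (i + 1) (i + 1 + 1) := not_Cg_succ (by omega) (i + 1)
  have n3 : ¬ Cg L i (i + 1 + 1) := by
    unfold Cg
    intro h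
    have e : i - (i + 1 + 1) = -2 := by ring
    rw [e] at h
    have := Int.le_of_dvd (by norm_num) ((dvd_neg).1 h)
    omega
  have n1' : ¬ Cg L (i + 1) i := fun h => n1 (Cg.symm' h)
  have n2' : ¬ Cg L (i + 1 + 1) (i + 1) := fun h => n2 (Cg.symm' h)
  have n3' : ¬ Cg L (i + 1 + 1) i := fun h => n3 (Cg.symm' h)
  set R := E i Q with hR
  have hRi : R.m (i + 1 + 1) = Q.m i := by
    have := E.of_m_succ Q i n3' n2' (by rw [hQi1]; exact Cg.refl' _)
    rw [hQi1, show i + 1 - 1 = i by ring] at this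
    exact this
  apply Pat.ext
  funext x
  by_cases x1 : Cg L x (i + 1)
  · exact Pat.eq_of_dvd x1 (by rw [E.self, hQi])
  by_cases x2 : Cg L x (i + 1 + 1)
  · exact Pat.eq_of_dvd x2 (by rw [E.succ, hQi1])
  by_cases x3 : Cg L x i
  · refine Pat.eq_of_dvd x3 ?_
    have r1 : R.m i = i + 1 := E.self Q i
    rw [E.of_m R (i + 1) n1 n3 (by rw [r1]; exact Cg.refl' _), r1, hRi]
  have y1 : ¬ Cg L (Q.m x) (i + 1) := by
    intro h
    have := Cg.m Q h
    rw [Q.inv, hQi] at this
    exact x2 this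
  have y2 : ¬ Cg L (Q.m x) (i + 1 + 1) := by
    intro h
    have := Cg.m Q h
    rw [Q.inv, hQi1] at this
    exact x1 this
  by_cases y3 : Cg L (Q.m x) i
  · have r1 : R.m x = Q.m (Q.m x + 1) := E.of_m Q i x3 x1 y3
    have c1 : Cg L (Q.m x + 1) (i + 1) := Cg.add 1 y3
    have r2 : Q.m (Q.m x + 1) = Q.m x + 1 + 1 := by
      have := Q.per_dvd c1
      rw [hQi] at this
      rw [this]; ring
    rw [r2] at r1
    have c2 : Cg L (R.m x) (i + 1 + 1) := by
      rw [r1]; exact Cg.add 1 c1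
    rw [E.of_m_succ R (i + 1) x1 x2 c2, r1]
    rw [show Q.m x + 1 + 1 - 1 = Q.m x + 1 by ring]
    rw [E.of_succ Q i c1]; ring
  · have r1 : R.m x = Q.m x := E.other Q i x3 x1 y3 y1
    rw [E.other R (i + 1) x1 x2 (by rw [r1]; exact y1) (by rw [r1]; exact y2), r1]

/-! ### Finiteness -/

lemma Pat.ext_Ico {P Q : Pat L} (h : ∀ x : ℤ, 0 ≤ x → x < L → P.m x = Q.m x) : P = Q := by
  have hL := P.two_le
  apply Pat.ext
  funext x
  have h1 : (L : ℤ) ∣ x - x % L := Int.dvd_self_sub_emod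
  have hpos : (0 : ℤ) < L := by omega
  exact Pat.eq_of_dvd h1 (h _ (Int.emod_nonneg _ (by omega)) (Int.emod_lt_of_pos _ hpos))

instance : Finite (Pat L) := by
  classical
  let f : Pat L → (Fin L → Set.Ioo (-(L : ℤ)) (2 * L)) := fun P k =>
    ⟨P.m k, by
      have h1 := P.short' (k : ℤ)
      have h2 := k.isLt
      constructor
      · have : (0 : ℤ) ≤ (k : ℕ) := Int.natCast_nonneg _
        linarith [h1.2]
      · have : ((k : ℕ) : ℤ) < L := by exact_mod_cast h2
        linarith [h1.1]⟩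
  have : Finite (Set.Ioo (-(L : ℤ)) (2 * L)) := (Set.finite_Ioo _ _).to_subtype
  apply Finite.of_injective f
  intro P Q hPQ
  apply Pat.ext_Ico
  intro x hx0 hxL
  have hx : x = ((⟨x.toNat, by omega⟩ : Fin L) : ℕ) := by simp [hx0]
  have := congrFun hPQ ⟨x.toNat, by omega⟩
  have h2 := congrArg Subtype.val this
  simp only [f] at h2
  rw [hx]
  exact h2

noncomputable instance : Fintype (Pat L) := Fintype.ofFinite _

noncomputable instance : DecidableEq (Pat L) := Classical.decEq _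

end H56.EX
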