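import Pool.Agent.H56.EX.Rec

/-! Manipulation of the parameter sequences; exchange, recursion and polynomiality of `F22`, `F13`. -/

namespace H56.EX

open scoped BigOperators Classical

lemma par_eq_emod (L : ℕ) (hL : 0 < L) (s : ℕ → ℂ) (x : ℤ) :
    ∃ n : ℕ, n < L ∧ Cg L x n ∧ par L s x = s n := by
  have h0 : 0 ≤ x % (L : ℤ) := Int.emod_nonneg _ (by omega)
  have h1 : x % (L : ℤ) < L := Int.emod_lt_of_pos _ (by omega)
  refine ⟨(x % (L : ℤ)).toNat, by omega, ?_, rfl⟩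
  unfold Cg
  rw [Int.toNat_of_nonneg h0]
  exact Int.dvd_self_sub_emod

lemma Cg_nat {L n m : ℕ} (hn : n < L) (hm : m < L) (h : Cg L (n : ℤ) m) : n = m := by
  rcases dvd_cases h with h | h | h <;> omega

lemma par_congr {L : ℕ} {s s' : ℕ → ℂ} (hL : 0 < L) (h : ∀ n, n < L → s n = s' n) :
    par L s = par L s' := by
  funext x
  obtain ⟨n, hn, _, he⟩ := par_eq_emod L hL s x
  rw [he, par_of s' hn ‹_›, h n hn]

lemma swp_par {L : ℕ} (s : ℕ → ℂ) {n : ℕ} (hn : n + 1 < L) :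
    swp L n (par L s) = par L (s ∘ Equiv.swap n (n + 1)) := by
  funext x
  unfold swp
  by_cases h1 : Cg L x n
  · rw [if_pos h1, par_of (s ∘ Equiv.swap n (n + 1)) (by omega) h1,
      par_of s hn (n := n + 1) (by push_cast; exact Cg.add 1 h1)]
    simp
  rw [if_neg h1]
  by_cases h2 : Cg L x (n + 1)
  · rw [if_pos h2, par_of (s ∘ Equiv.swap n (n + 1)) hn (n := n + 1) (by push_cast; exact h2),
      par_of s (n := n) (by omega) (by have := Cg.sub 1 h2; simpa using this)]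
    simp
  rw [if_neg h2]
  obtain ⟨m, hm, hc, he⟩ := par_eq_emod L (by omega) s x
  rw [he, par_of _ hm hc]
  have hm1 : m ≠ n := by rintro rfl; exact h1 hc
  have hm2 : m ≠ n + 1 := by
    rintro rfl
    apply h2
    push_cast at hc
    exact hc
  simp [Equiv.swap_apply_of_ne_of_ne hm1 hm2]

lemma upd_par {L : ℕ} (s : ℕ → ℂ) {n : ℕ} (hn : n < L) (t : ℂ) :
    upd L (par L s) n t = par L (Function.update s n t) := by
  funext x
  unfold upd
  by_cases h1 : Cg L x n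
  · rw [if_pos h1, par_of _ hn h1]; simp
  rw [if_neg h1]
  obtain ⟨m, hm, hc, he⟩ := par_eq_emod L (by omega) s x
  rw [he, par_of _ hm hc]
  have hm1 : m ≠ n := by rintro rfl; exact h1 hc
  simp [hm1]

/-- removing two strands at `k, k+1` -/
lemma phi_par {L : ℕ} (hL : 1 ≤ L) (s : ℕ → ℂ) (k : ℕ) (hk : k ≤ L) :
    (fun x => par (L + 2) s (phi L k x)) = par L (fun n => if n < k then s n else s (n + 2)) := by
  funext x
  obtain ⟨m, hm, hc, he⟩ := par_eq_emod L (by omega) (fun n => if n < k then s n else s (n + 2)) x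
  rw [he]
  obtain ⟨a, ha⟩ := hc
  have hx : x = m + L * a := by linarith
  by_cases h : m < k
  · simp only [h, if_true]
    apply par_of s (by omega)
    have e : x = k + ((m : ℤ) - k + L) + L * (a - 1) := by rw [hx]; ring
    rw [e, phi_form hL _ _ _ (by omega) (by omega)]
    unfold Cg
    push_cast
    refine ⟨a, by ring⟩
  · simp only [h, if_false]
    apply par_of s (by omega)
    have e : x = k + ((m : ℤ) - k) + L * a := by rw [hx]; ring
    rw [e, phi_form hL _ _ _ (by omega) (by omega)]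
    unfold Cg
    push_cast
    refine ⟨a, by ring⟩

/-- removing the strands `-1, 0` and rotating -/
lemma phi_par_left {L : ℕ} (hL : 1 ≤ L) (s : ℕ → ℂ) :
    (fun x => par (L + 2) s (phi L (-1) (x - 1))) = par L (fun n => s (n + 1)) := by
  funext x
  obtain ⟨m, hm, hc, he⟩ := par_eq_emod L (by omega) (fun n => s (n + 1)) x
  rw [he]
  obtain ⟨a, ha⟩ := hc
  have hx : x = m + L * a := by linarith
  apply par_of s (by omega)
  have e : x - 1 = -1 + (m : ℤ) + L * a := by rw [hx]; ring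
  rw [e, phi_form hL _ _ _ (by omega) (by omega)]
  unfold Cg
  push_cast
  refine ⟨a, by ring⟩

/-- rotating the parameters -/
lemma rot_par {L : ℕ} (hL : 1 ≤ L) (s : ℕ → ℂ) :
    (fun x => par L s (x - 1)) = par L (scons (s (L - 1)) s) := by
  funext x
  obtain ⟨m, hm, hc, he⟩ := par_eq_emod L (by omega) (scons (s (L - 1)) s) x
  rw [he]
  rcases m with _ | m
  · show par L s (x - 1) = s (L - 1)
    apply par_of s (by omega)
    unfold Cg at hc ⊢
    obtain ⟨a, ha⟩ := hc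
    refine ⟨a - 1, ?_⟩
    have : ((L - 1 : ℕ) : ℤ) = L - 1 := by omega
    rw [this]
    push_cast at ha
    linear_combination ha
  · show par L s (x - 1) = s m
    apply par_of s (by omega)
    have := Cg.sub 1 hc
    simpa using this

lemma scons_swap01 (a0 a1 : ℂ) (z : ℕ → ℂ) :
    (scons a0 (scons a1 z)) ∘ Equiv.swap 0 1 = scons a1 (scons a0 z) := by
  funext n
  rcases n with _ | _ | n
  · simp [scons]
  · simp [scons]
  · have : Equiv.swap 0 1 (n + 2) = n + 2 := Equiv.swap_apply_of_ne_of_ne (by omega) (by omega)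
    simp [this, scons]

lemma scons_swap_succ (a : ℂ) (z : ℕ → ℂ) (n : ℕ) :
    (scons a z) ∘ Equiv.swap (n + 1) (n + 2) = scons a (z ∘ Equiv.swap n (n + 1)) := by
  funext m
  rcases m with _ | m
  · have : Equiv.swap (n + 1) (n + 2) 0 = 0 := Equiv.swap_apply_of_ne_of_ne (by omega) (by omega)
    simp [this, scons]
  · by_cases h1 : m = n
    · subst h1; simp [scons]
    by_cases h2 : m = n + 1
    · subst h2; simp [scons]
    have e1 : Equiv.swap (n + 1) (n + 2) (m + 1) = m + 1 :=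
      Equiv.swap_apply_of_ne_of_ne (by omega) (by omega)
    have e2 : Equiv.swap n (n + 1) m = m := Equiv.swap_apply_of_ne_of_ne h1 h2
    simp [e1, e2, scons]

section psi

variable {Ψ : ∀ L : ℕ, Pat L → (ℤ → ℂ) → ℂ} (hΨ : PsiProps Ψ)

include hΨ

theorem F22_swap_a (M : ℕ) (a0 a1 b0 b1 : ℂ) (z : ℕ → ℂ) :
    (q * a1 - q⁻¹ * a0) * F22 Ψ M a1 a0 b0 b1 z = (q * a0 - q⁻¹ * a1) * F22 Ψ M a0 a1 b0 b1 z := by
  have h := exch_hole_top hΨ 2 2 M 0 (by omega) (par (M + 2) (scons a0 (scons a1 z)))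
    (per_par _ _) (fun P : Pat (M + 2) => Ψ (M + 2) P
      (par (M + 2) (scons b0⁻¹ (scons b1⁻¹ (fun n => (z n)⁻¹)))))
  rw [swp_par _ (by omega), scons_swap01] at h
  have e0 : par (M + 2) (scons a0 (scons a1 z)) ((0 : ℕ) : ℤ) = a0 := par_nat _ (by omega)
  have e1 : par (M + 2) (scons a0 (scons a1 z)) (((0 : ℕ) : ℤ) + 1) = a1 := by
    have : (((0 : ℕ) : ℤ) + 1) = ((1 : ℕ) : ℤ) := by norm_num
    rw [this]; exact par_nat _ (by omega)
  rw [e0, e1] at h
  exact h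

theorem F22_swap_b (M : ℕ) (a0 a1 b0 b1 : ℂ) (z : ℕ → ℂ) :
    (q * b1⁻¹ - q⁻¹ * b0⁻¹) * F22 Ψ M a0 a1 b1 b0 z =
      (q * b0⁻¹ - q⁻¹ * b1⁻¹) * F22 Ψ M a0 a1 b0 b1 z := by
  have h := exch_hole_bot hΨ 2 2 M 0 (by omega)
    (par (M + 2) (scons b0⁻¹ (scons b1⁻¹ (fun n => (z n)⁻¹))))
    (per_par _ _) (fun P : Pat (M + 2) => Ψ (M + 2) P (par (M + 2) (scons a0 (scons a1 z))))
  rw [swp_par _ (by omega), scons_swap01] at h
  have e0 : par (M + 2) (scons b0⁻¹ (scons b1⁻¹ (fun n => (z n)⁻¹))) ((0 : ℕ) : ℤ) = b0⁻¹ :=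
    par_nat _ (by omega)
  have e1 : par (M + 2) (scons b0⁻¹ (scons b1⁻¹ (fun n => (z n)⁻¹))) (((0 : ℕ) : ℤ) + 1) = b1⁻¹ := by
    have : (((0 : ℕ) : ℤ) + 1) = ((1 : ℕ) : ℤ) := by norm_num
    rw [this]; exact par_nat _ (by omega)
  rw [e0, e1] at h
  exact h

theorem F13_swap_b01 (M : ℕ) (a b0 b1 b2 : ℂ) (z : ℕ → ℂ) :
    (q * b1⁻¹ - q⁻¹ * b0⁻¹) * F13 Ψ M a b1 b0 b2 z =
      (q * b0⁻¹ - q⁻¹ * b1⁻¹) * F13 Ψ M a b0 b1 b2 z := by
  have h := exch_hole_bot hΨ 1 3 M 0 (by omega)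
    (par (M + 3) (scons b0⁻¹ (scons b1⁻¹ (scons b2⁻¹ (fun n => (z n)⁻¹)))))
    (per_par _ _) (fun P : Pat (M + 1) => Ψ (M + 1) P (par (M + 1) (scons a z)))
  rw [swp_par _ (by omega), scons_swap01] at h
  have e0 : par (M + 3) (scons b0⁻¹ (scons b1⁻¹ (scons b2⁻¹ (fun n => (z n)⁻¹))))
      ((0 : ℕ) : ℤ) = b0⁻¹ := par_nat _ (by omega)
  have e1 : par (M + 3) (scons b0⁻¹ (scons b1⁻¹ (scons b2⁻¹ (fun n => (z n)⁻¹))))
      (((0 : ℕ) : ℤ) + 1) = b1⁻¹ := by
    have : (((0 : ℕ) : ℤ) + 1) = ((1 : ℕ) : ℤ) := by norm_num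
    rw [this]; exact par_nat _ (by omega)
  rw [e0, e1] at h
  exact h

theorem F13_swap_b12 (M : ℕ) (a b0 b1 b2 : ℂ) (z : ℕ → ℂ) :
    (q * b2⁻¹ - q⁻¹ * b1⁻¹) * F13 Ψ M a b0 b2 b1 z =
      (q * b1⁻¹ - q⁻¹ * b2⁻¹) * F13 Ψ M a b0 b1 b2 z := by
  have h := exch_hole_bot hΨ 1 3 M 1 (by omega)
    (par (M + 3) (scons b0⁻¹ (scons b1⁻¹ (scons b2⁻¹ (fun n => (z n)⁻¹)))))
    (per_par _ _) (fun P : Pat (M + 1) => Ψ (M + 1) P (par (M + 1) (scons a z)))
  rw [swp_par _ (by omega), scons_swap_succ b0⁻¹ _ 0, scons_swap01] at h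
  have e0 : par (M + 3) (scons b0⁻¹ (scons b1⁻¹ (scons b2⁻¹ (fun n => (z n)⁻¹))))
      ((1 : ℕ) : ℤ) = b1⁻¹ := par_nat _ (by omega)
  have e1 : par (M + 3) (scons b0⁻¹ (scons b1⁻¹ (scons b2⁻¹ (fun n => (z n)⁻¹))))
      (((1 : ℕ) : ℤ) + 1) = b2⁻¹ := by
    have : (((1 : ℕ) : ℤ) + 1) = ((2 : ℕ) : ℤ) := by norm_num
    rw [this]; exact par_nat _ (by omega)
  rw [e0, e1] at h
  exact h

/-- polynomiality in the last top leg -/
theorem F22_poly (M : ℕ) (a0 b0 b1 : ℂ) (z : ℕ → ℂ) :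
    ∃ p : Polynomial ℂ, p.natDegree ≤ M + 1 ∧ ∀ t, F22 Ψ M a0 t b0 b1 z = p.eval t := by
  have h : ∀ P : Pat (M + 2), ∃ p : Polynomial ℂ, p.natDegree ≤ M + 1 ∧
      ∀ t, Ψ (M + 2) P (par (M + 2) (scons a0 (scons t z))) = p.eval t := by
    intro P
    obtain ⟨p, hp, he⟩ := hΨ.poly (M + 2) P (par (M + 2) (scons a0 (scons 0 z))) (per_par _ _) 1
    refine ⟨p, hp, fun t => ?_⟩
    rw [← he t]
    have : upd (M + 2) (par (M + 2) (scons a0 (scons 0 z))) ((1 : ℕ) : ℤ) t =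
        par (M + 2) (scons a0 (scons t z)) := by
      rw [upd_par _ (by omega)]
      congr 1
      funext n
      rcases n with _ | _ | n <;> simp [scons, Function.update]
    rw [← this]; rfl
  choose p hp he using h
  refine ⟨∑ Pt, ∑ Pb, Polynomial.C (chi 2 2 M Pt Pb * Ψ (M + 2) Pb
    (par (M + 2) (scons b0⁻¹ (scons b1⁻¹ (fun n => (z n)⁻¹))))) * p Pt, ?_, ?_⟩
  · apply Polynomial.natDegree_sum_le_of_forall_le
    intro Pt _
    apply Polynomial.natDegree_sum_le_of_forall_le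
    intro Pb _
    exact (Polynomial.natDegree_C_mul_le _ _).trans (hp Pt)
  · intro t
    unfold F22
    rw [legSum_eq, Polynomial.eval_finsetSum]
    refine Finset.sum_congr rfl fun Pt _ => ?_
    rw [Polynomial.eval_finsetSum]
    refine Finset.sum_congr rfl fun Pb _ => ?_
    rw [Polynomial.eval_mul, Polynomial.eval_C, ← he Pt t]
    ring

/-- polynomiality in the inverse of the last bottom leg -/
theorem F13_poly (M : ℕ) (a b0 b1 : ℂ) (z : ℕ → ℂ) :
    ∃ p : Polynomial ℂ, p.natDegree ≤ M + 2 ∧ ∀ t, F13 Ψ M a b0 b1 t⁻¹ z = p.eval t := by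
  have h : ∀ P : Pat (M + 3), ∃ p : Polynomial ℂ, p.natDegree ≤ M + 2 ∧
      ∀ t, Ψ (M + 3) P (par (M + 3) (scons b0⁻¹ (scons b1⁻¹ (scons t (fun n => (z n)⁻¹))))) =
        p.eval t := by
    intro P
    obtain ⟨p, hp, he⟩ := hΨ.poly (M + 3) P
      (par (M + 3) (scons b0⁻¹ (scons b1⁻¹ (scons 0 (fun n => (z n)⁻¹))))) (per_par _ _) 2
    refine ⟨p, hp, fun t => ?_⟩
    rw [← he t]
    have : upd (M + 3) (par (M + 3) (scons b0⁻¹ (scons b1⁻¹ (scons 0 (fun n => (z n)⁻¹)))))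
        ((2 : ℕ) : ℤ) t =
        par (M + 3) (scons b0⁻¹ (scons b1⁻¹ (scons t (fun n => (z n)⁻¹)))) := by
      rw [upd_par _ (by omega)]
      congr 1
      funext n
      rcases n with _ | _ | _ | n <;> simp [scons, Function.update]
    rw [← this]; rfl
  choose p hp he using h
  refine ⟨∑ Pt, ∑ Pb, Polynomial.C (chi 1 3 M Pt Pb * Ψ (M + 1) Pt
    (par (M + 1) (scons a z))) * p Pb, ?_, ?_⟩
  · apply Polynomial.natDegree_sum_le_of_forall_le
    intro Pt _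
    apply Polynomial.natDegree_sum_le_of_forall_le
    intro Pb _
    exact (Polynomial.natDegree_C_mul_le _ _).trans (hp Pb)
  · intro t
    unfold F13
    rw [inv_inv, legSum_eq, Polynomial.eval_finsetSum]
    refine Finset.sum_congr rfl fun Pt _ => ?_
    rw [Polynomial.eval_finsetSum]
    refine Finset.sum_congr rfl fun Pb _ => ?_
    rw [Polynomial.eval_mul, Polynomial.eval_C, ← he Pb t]
    ring

end psi

end H56.EX
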