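import Pool.Agent.H56.EX.Base

/-! The sum of the components of the qKZ solution. -/

namespace H56.EX

open Finset

/-- sum of the components -/
noncomputable def ZZ (Ψ : ∀ L : ℕ, Pat L → (ℤ → ℂ) → ℂ) (L : ℕ) (z : ℕ → ℂ) : ℂ :=
  ∑ P : Pat L, Ψ L P (par L z)

lemma sum_eop {L : ℕ} (i : ℤ) (v : Pat L → ℂ) : ∑ P, eop i v P = ∑ P, v P := by
  unfold eop
  rw [Finset.sum_comm]
  refine Finset.sum_congr rfl fun P _ => ?_
  rw [Finset.sum_ite_eq Finset.univ (E i P)]
  simp

section psi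

variable {Ψ : ∀ L : ℕ, Pat L → (ℤ → ℂ) → ℂ} (hΨ : PsiProps Ψ)

include hΨ

/-- (a) -/
theorem ZZ_mv (L : ℕ) : ∃ p : MvPolynomial (Fin L) ℂ, ∀ z : ℕ → ℂ,
    ZZ Ψ L z = MvPolynomial.eval (fun k : Fin L => z k) p := by
  choose p hp using fun P : Pat L => hΨ.mv L P
  refine ⟨∑ P, p P, fun z => ?_⟩
  unfold ZZ
  rw [map_sum]
  refine Finset.sum_congr rfl fun P _ => ?_
  rw [hp]
  congr 2
  funext k
  exact par_nat z k.2

lemma ZZ_swap_aux (L : ℕ) (z : ℕ → ℂ) (i : ℕ) (hi : i + 1 < L) :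
    (q * z (i + 1) - q⁻¹ * z i) * ZZ Ψ L (z ∘ Equiv.swap i (i + 1)) =
      (q * z (i + 1) - q⁻¹ * z i) * ZZ Ψ L z := by
  unfold ZZ
  have h : ∀ P : Pat L, (q * z (i + 1) - q⁻¹ * z i) *
      Ψ L P (par L (z ∘ Equiv.swap i (i + 1))) =
      (q * z i - q⁻¹ * z (i + 1)) * Ψ L P (par L z) +
        (z i - z (i + 1)) * eop i (fun P' => Ψ L P' (par L z)) P := by
    intro P
    have := hΨ.exch L P (par L z) (per_par _ _) (i : ℤ)
    rw [swp_par _ hi] at this
    have e0 : par L z ((i : ℕ) : ℤ) = z i := par_nat _ (by omega)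
    have e1 : par L z (((i : ℕ) : ℤ) + 1) = z (i + 1) := by
      have : ((i : ℕ) : ℤ) + 1 = ((i + 1 : ℕ) : ℤ) := by push_cast; ring
      rw [this, par_nat _ hi]
    rw [e0, e1] at this
    exact this
  rw [Finset.mul_sum, Finset.sum_congr rfl (fun P _ => h P), Finset.sum_add_distrib,
    ← Finset.mul_sum, ← Finset.mul_sum, sum_eop]
  have hq2 : q⁻¹ = -1 - q := by
    rw [q_inv]; linear_combination q_sq
  rw [hq2]
  ring

/-- (b) symmetry -/
theorem ZZ_swap (L : ℕ) (z : ℕ → ℂ) (i : ℕ) (hi : i + 1 < L) :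
    ZZ Ψ L (z ∘ Equiv.swap i (i + 1)) = ZZ Ψ L z := by
  classical
  obtain ⟨p, hp⟩ := ZZ_mv hΨ L
  set a : Fin L := ⟨i, by omega⟩ with ha
  set b : Fin L := ⟨i + 1, hi⟩ with hb
  have hab : a ≠ b := by
    intro h
    have := congrArg Fin.val h
    simp [ha, hb] at this
  set p' := MvPolynomial.rename (Equiv.swap a b) p with hp'
  set f : MvPolynomial (Fin L) ℂ := MvPolynomial.C q * MvPolynomial.X b -
    MvPolynomial.C q⁻¹ * MvPolynomial.X a with hf
  have hev : ∀ x : Fin L → ℂ, MvPolynomial.eval x p' =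
      MvPolynomial.eval (x ∘ Equiv.swap a b) p := by
    intro x
    rw [hp', MvPolynomial.eval_rename]
  -- extension of a finite sequence
  have hext : ∀ x : Fin L → ℂ, ∃ z : ℕ → ℂ, ∀ k : Fin L, z k = x k := by
    intro x
    exact ⟨fun n => if h : n < L then x ⟨n, h⟩ else 0, fun k => by simp⟩
  have hsw : ∀ (z : ℕ → ℂ) (k : Fin L), (z ∘ Equiv.swap i (i + 1)) k =
      z ((Equiv.swap a b) k : Fin L) := by
    intro z k
    rw [Function.comp_apply]
    congr 1
    by_cases h1 : k = a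
    · rw [h1]; simp [ha, hb]
    by_cases h2 : k = b
    · rw [h2]; simp [ha, hb]
    have h1' : (k : ℕ) ≠ i := fun h => h1 (Fin.ext h)
    have h2' : (k : ℕ) ≠ i + 1 := fun h => h2 (Fin.ext h)
    rw [Equiv.swap_apply_of_ne_of_ne h1 h2, Equiv.swap_apply_of_ne_of_ne h1' h2']
  have key : f * p' = f * p := by
    apply MvPolynomial.funext
    intro x
    obtain ⟨z, hz⟩ := hext x
    have h := ZZ_swap_aux hΨ L z i hi
    rw [hp, hp] at h
    have e1 : (fun k : Fin L => (z ∘ Equiv.swap i (i + 1)) k) = x ∘ Equiv.swap a b := by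
      funext k
      rw [hsw, hz]; rfl
    have e2 : (fun k : Fin L => z k) = x := funext hz
    rw [e1, e2] at h
    have e3 : z i = x a := hz a
    have e4 : z (i + 1) = x b := hz b
    rw [e3, e4] at h
    simp only [map_mul, hf, map_sub, MvPolynomial.eval_C, MvPolynomial.eval_X, hev]
    exact h
  have hf0 : f ≠ 0 := by
    intro h0
    have := congrArg (MvPolynomial.eval (fun k => if k = b then (1 : ℂ) else 0)) h0
    simp only [hf, map_sub, map_mul, MvPolynomial.eval_C, MvPolynomial.eval_X, map_zero] at this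
    rw [if_neg hab] at this
    simp at this
    exact q_ne_zero this
  have hpp := mul_left_cancel₀ hf0 key
  rw [hp, hp]
  have e1 : (fun k : Fin L => (z ∘ Equiv.swap i (i + 1)) k) =
      (fun k : Fin L => z k) ∘ Equiv.swap a b := by
    funext k
    rw [hsw]; rfl
  rw [e1, ← hev, hpp]

/-- (c) degree in the first variable -/
theorem ZZ_poly (L : ℕ) (hL : 0 < L) (z : ℕ → ℂ) : ∃ p : Polynomial ℂ, p.natDegree ≤ L - 1 ∧
    ∀ t, ZZ Ψ L (Function.update z 0 t) = p.eval t := by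
  have h : ∀ P : Pat L, ∃ p : Polynomial ℂ, p.natDegree ≤ L - 1 ∧
      ∀ t, Ψ L P (par L (Function.update z 0 t)) = p.eval t := by
    intro P
    obtain ⟨p, hp, he⟩ := hΨ.poly L P (par L z) (per_par _ _) ((0 : ℕ) : ℤ)
    refine ⟨p, hp, fun t => ?_⟩
    rw [← he t, upd_par _ hL]
  choose p hp he using h
  refine ⟨∑ P, p P, ?_, fun t => ?_⟩
  · apply Polynomial.natDegree_sum_le_of_forall_le
    intro P _
    exact hp P
  · unfold ZZ
    rw [Polynomial.eval_finsetSum]
    exact Finset.sum_congr rfl fun P _ => he P t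

/-- (d) recursion -/
theorem ZZ_rec (L : ℕ) (hL : 2 ≤ L) (z : ℕ → ℂ) (hz : z 0 = q ^ 2 * z 1) :
    ZZ Ψ (L + 2) z = (-q * z 1 * (∏ s ∈ range L, (z (s + 2) - q * z 1) ^ 2) / 3 ^ L) *
      ZZ Ψ L (fun n => z (n + 2)) := by
  unfold ZZ
  have e0 : par (L + 2) z ((0 : ℕ) : ℤ) = z 0 := par_nat _ (by omega)
  have e1 : par (L + 2) z (((0 : ℕ) : ℤ) + 1) = z 1 := by
    have : ((0 : ℕ) : ℤ) + 1 = ((1 : ℕ) : ℤ) := by norm_num
    rw [this, par_nat _ (by omega)]
  have hcond : par (L + 2) z ((0 : ℕ) : ℤ) = q ^ 2 * par (L + 2) z (((0 : ℕ) : ℤ) + 1) := by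
    rw [e0, e1, hz]
  rw [sum_arc hL ((0 : ℕ) : ℤ) (fun P => Ψ (L + 2) P (par (L + 2) z))
    (fun P hP => hΨ.arc_zero (L + 2) P _ (per_par _ _) _ hcond hP), Finset.mul_sum]
  refine Finset.sum_congr rfl fun Q _ => ?_
  rw [hΨ.arc L Q _ (per_par _ _) _ hcond, phi_par (by omega) z 0 (by omega), e1]
  congr 1
  · congr 2
    refine Finset.prod_congr rfl fun s hs => ?_
    have hs := Finset.mem_range.1 hs
    have : ((0 : ℕ) : ℤ) + 2 + (s : ℤ) = ((s + 2 : ℕ) : ℤ) := by push_cast; ring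
    rw [this, par_nat _ (by omega)]

omit hΨ in
lemma rot_base2 : (rot base2).m 0 = 1 := by
  show base2.m (0 - 1) + 1 = 1
  have : base2.m (0 - 1) = 0 := by
    show (if ((0 : ℤ) - 1) % 2 = 0 then (0 : ℤ) - 1 - 1 else (0 : ℤ) - 1 + 1) = 0
    norm_num
  rw [this]; norm_num

/-- (e) base -/
theorem ZZ_two (z : ℕ → ℂ) : ZZ Ψ 2 z = z 0 + z 1 := by
  classical
  have hall : (Finset.univ : Finset (Pat 2)) = {base2, rot base2} := by
    ext P
    simp only [mem_univ, mem_insert, mem_singleton, true_iff]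
    by_cases h : P.m 0 = 1
    · right
      -- P = rot base2
      have h1 : unrot P = base2 := by
        apply eq_base2
        show P.m (0 + 1) - 1 ≠ 1
        have h2 : P.m 1 = 0 := by rw [← h, P.inv]
        rw [show (0 : ℤ) + 1 = 1 by norm_num, h2]; norm_num
      have h3 : rot (unrot P) = P := (rotEquiv 2).right_inv P
      rw [← h1, h3]
    · left; exact eq_base2 P h
  have hne : base2 ≠ rot base2 := by
    intro h
    have h1 := rot_base2
    rw [← h] at h1
    have : base2.m 0 = -1 := by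
      show (if ((0 : ℤ)) % 2 = 0 then (0 : ℤ) - 1 else (0 : ℤ) + 1) = -1
      norm_num
    rw [this] at h1
    norm_num at h1
  unfold ZZ
  rw [hall, Finset.sum_pair hne, psi_base2 hΨ]
  have hrot : Ψ 2 (rot base2) (par 2 z) = Ψ 2 base2 (par 2 (z ∘ Equiv.swap 0 1)) := by
    rw [← hΨ.rot 2 base2 (par 2 (z ∘ Equiv.swap 0 1)) (per_par _ _)]
    congr 1
    funext x
    obtain ⟨m, hm, hc, he⟩ := par_eq_emod 2 (by norm_num) z x
    rw [he]
    symm
    have hm2 : m = 0 ∨ m = 1 := by omega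
    rcases hm2 with rfl | rfl
    · have : par 2 (z ∘ Equiv.swap 0 1) (x - 1) = (z ∘ Equiv.swap 0 1) 1 := by
        apply par_of _ (by norm_num)
        obtain ⟨a, ha⟩ := hc
        refine ⟨a - 1, ?_⟩
        push_cast at ha ⊢
        linarith
      rw [this]; simp
    · have : par 2 (z ∘ Equiv.swap 0 1) (x - 1) = (z ∘ Equiv.swap 0 1) 0 := by
        apply par_of _ (by norm_num)
        obtain ⟨a, ha⟩ := hc
        refine ⟨a, ?_⟩
        push_cast at ha ⊢
        linarith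
      rw [this]; simp
  rw [hrot, psi_base2 hΨ]
  have hd0 : q - q⁻¹ ≠ 0 := by
    intro h
    have hq2 : q⁻¹ = -1 - q := by
      rw [q_inv]; linear_combination q_sq
    have hd : (q - q⁻¹) ^ 2 = -3 := by
      rw [hq2]; linear_combination 4 * q_sq
    rw [h] at hd
    norm_num at hd
  simp only [Function.comp_apply, Equiv.swap_apply_left, Equiv.swap_apply_right]
  rw [← add_div, div_eq_iff hd0]
  ring

end psi

end H56.EX
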