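import Pool.Agent.H56.EX.Top
import Pool.Agent.H96.EX.STM

/-! The leg formula for all nonzero parameters, in terms of the polynomial `S4`. -/

namespace H56.EX

open Finset Filter Topology

/-- helper96's `S4` -/
noncomputable abbrev S4 := Pool.Agent.H96.EX.S4

lemma prp_eq_prz : ∀ (M : ℕ) (z : ℕ → ℂ), prp M z = Pool.Agent.H96.EX.prz M z := by
  intro M
  induction M with
  | zero => intro z; simp [prp, Pool.Agent.H96.EX.prz_range']
  | succ M ih =>
    intro z
    simp only [prp]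
    rw [ih, Pool.Agent.H96.EX.prz_range', Pool.Agent.H96.EX.prz_range', Finset.prod_range_succ']
    simp only [Finset.prod_range_succ', range_zero, prod_empty, mul_one]
    rw [Finset.prod_mul_distrib, mul_comm]

/-- `TM` is the polynomial `S4` at generic points -/
lemma TM_eq_S4 (M : ℕ) (a b c d : ℂ) (z : ℕ → ℂ) (hz : Gen M z) :
    TM M [a, b, c, d] z = S4 M ![a, b, c, d] z := by
  unfold TM S4
  rw [prp_eq_prz, Pool.Agent.H96.EX.S4_eq_SG_range a b c d z
    (fun i j hij => hz.2 i j i.2 j.2 (fun h => hij (Fin.ext h)))]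

lemma legSum_contAt {Lt Lb : ℕ} (kt kb M : ℕ) (v : ℂ → Pat Lt → ℂ) (w : ℂ → Pat Lb → ℂ)
    (hv : ∀ P, ContinuousAt (fun t => v t P) 0) (hw : ∀ P, ContinuousAt (fun t => w t P) 0) :
    ContinuousAt (fun t => legSum kt kb M (v t) (w t)) 0 := by
  simp only [legSum_eq]
  apply tendsto_finsetSum
  intro Pt _
  apply tendsto_finsetSum
  intro Pb _
  exact continuousAt_const.mul ((hv Pt).mul (hw Pb))

section cont

variable {Ψ : ∀ L : ℕ, Pat L → (ℤ → ℂ) → ℂ} (hΨ : PsiProps Ψ)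

include hΨ

lemma psi_contAt (L : ℕ) (P : Pat L) (s : ℂ → ℕ → ℂ)
    (hs : ∀ n, n < L → ContinuousAt (fun t => s t n) 0) :
    ContinuousAt (fun t => Ψ L P (par L (s t))) 0 := by
  obtain ⟨p, hp⟩ := hΨ.mv L P
  have h : (fun t => Ψ L P (par L (s t))) =
      fun t => MvPolynomial.eval (fun k : Fin L => s t k) p := by
    funext t
    rw [hp]
    congr 2
    funext k
    exact par_nat _ k.2
  rw [h]
  exact ((MvPolynomial.continuous_eval p).continuousAt).comp
    (continuousAt_pi.2 fun k => hs k k.2)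

end cont

lemma bad_finite (N : ℕ) (w : ℕ → ℂ) :
    {t : ℂ | ¬ Gen N (Pool.Agent.H96.EX.zt w t)}.Finite := by
  have h1 := Pool.Agent.H96.EX.cubes_finite (M := N) w
  have h2 : (⋃ j ∈ range N, {t : ℂ | w j + t * ((j : ℂ) + 1) = 0}).Finite := by
    apply Set.Finite.biUnion (Finset.finite_toSet _)
    intro j _
    have hj : ((j : ℂ) + 1) ≠ 0 := by exact_mod_cast Nat.succ_ne_zero j
    apply Set.Finite.subset (Set.finite_singleton (-(w j) / ((j : ℂ) + 1)))
    intro t ht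
    simp only [Set.mem_ofPred_eq] at ht
    rw [Set.mem_singleton_iff, eq_div_iff hj]
    linear_combination ht
  apply (h1.union h2).subset
  intro t ht
  simp only [Set.mem_ofPred_eq, Set.mem_union, Set.mem_iUnion] at ht ⊢
  by_contra hcon
  push Not at hcon
  apply ht
  refine ⟨fun j hj => hcon.2 j (mem_range.2 hj), fun j k hj hk hjk => ?_⟩
  exact hcon.1 ⟨j, hj⟩ ⟨k, hk⟩ (fun h => hjk (congrArg Fin.val h))

lemma gen_eventually (N : ℕ) (w : ℕ → ℂ) :
    ∀ᶠ t in 𝓝[≠] (0 : ℂ), Gen N (Pool.Agent.H96.EX.zt w t) := by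
  have h := (bad_finite N w).subset (Set.sdiff_subset (t := {0}))
  have hc : (({t : ℂ | ¬ Gen N (Pool.Agent.H96.EX.zt w t)} \ {0})ᶜ) ∈ 𝓝 (0 : ℂ) := by
    apply h.isClosed.isOpen_compl.mem_nhds
    simp
  have hc' : (({t : ℂ | ¬ Gen N (Pool.Agent.H96.EX.zt w t)} \ {0})ᶜ) ∈ 𝓝[≠] (0 : ℂ) :=
    mem_nhdsWithin_of_mem_nhds hc
  filter_upwards [hc', self_mem_nhdsWithin] with t ht ht0
  by_contra hcon
  exact ht ⟨hcon, ht0⟩

lemma GG_of_Gen {M : ℕ} {w : ℕ → ℂ} (h : Gen (M + 3) w) :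
    GG M (w 0) (w 1) (w 2) (fun n => w (n + 3)) :=
  ⟨⟨fun j hj => h.1 _ (by omega), fun j k hj hk hjk => h.2 _ _ (by omega) (by omega) (by omega)⟩,
    h.1 0 (by omega), h.1 1 (by omega), h.1 2 (by omega), h.2 0 1 (by omega) (by omega) (by omega),
    h.2 0 2 (by omega) (by omega) (by omega), h.2 1 2 (by omega) (by omega) (by omega),
    fun j hj => h.2 0 (j + 3) (by omega) (by omega) (by omega),
    fun j hj => h.2 1 (j + 3) (by omega) (by omega) (by omega),
    fun j hj => h.2 2 (j + 3) (by omega) (by omega) (by omega)⟩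

/-- The (2,2) leg function for all nonzero parameters. -/
theorem F22_all {Ψ : ∀ L : ℕ, Pat L → (ℤ → ℂ) → ℂ} (hΨ : PsiProps Ψ) (M : ℕ) (hM : Even M)
    (a0 a1 b0 b1 : ℂ) (z : ℕ → ℂ) (h0 : b0 ≠ 0) (h1 : b1 ≠ 0) (hz : ∀ j, j < M → z j ≠ 0) :
    F22 Ψ M a0 a1 b0 b1 z =
      -((q * a1 - q⁻¹ * a0) * (q * b0 - q⁻¹ * b1) * S4 M ![a1, a0, b0, b1] z) /
        (3 ^ (ee M) * (b0 * b1 * ∏ k ∈ range M, z k) ^ (M + 1)) := by
  set w : ℕ → ℂ := scons a0 (scons b0 (scons b1 z)) with hw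
  set W : ℂ → ℕ → ℂ := Pool.Agent.H96.EX.zt w with hW
  have hW0 : W 0 = w := Pool.Agent.H96.EX.zt_zero w
  have hWc : Continuous W := Pool.Agent.H96.EX.zt_cont w
  have hWn : ∀ n, Continuous (fun t => W t n) := fun n => (continuous_apply n).comp hWc
  set F : ℂ → ℂ := fun t => F22 Ψ M (W t 0) a1 (W t 1) (W t 2) (fun n => W t (n + 3)) with hF
  set G : ℂ → ℂ := fun t => -((q * a1 - q⁻¹ * W t 0) * (q * W t 1 - q⁻¹ * W t 2) *
    S4 M ![a1, W t 0, W t 1, W t 2] (fun n => W t (n + 3))) /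
        (3 ^ (ee M) * (W t 1 * W t 2 * ∏ k ∈ range M, W t (k + 3)) ^ (M + 1)) with hG
  have hb0 : W 0 1 ≠ 0 := by rw [hW0]; exact h0
  have hb1 : W 0 2 ≠ 0 := by rw [hW0]; exact h1
  have hzz : ∀ n, n < M → W 0 (n + 3) ≠ 0 := by intro n hn; rw [hW0]; exact hz n hn
  have hFc : ContinuousAt F 0 := by
    apply legSum_contAt
    · intro P
      apply psi_contAt hΨ
      intro n hn
      rcases n with _ | _ | n
      · exact (hWn 0).continuousAt
      · exact continuousAt_const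
      · exact (hWn (n + 3)).continuousAt
    · intro P
      apply psi_contAt hΨ
      intro n hn
      rcases n with _ | _ | n
      · exact (hWn 1).continuousAt.inv₀ hb0
      · exact (hWn 2).continuousAt.inv₀ hb1
      · exact (hWn (n + 3)).continuousAt.inv₀ (hzz n (by omega))
  have hGc : ContinuousAt G 0 := by
    have hS : Continuous (fun t => S4 M ![a1, W t 0, W t 1, W t 2] (fun n => W t (n + 3))) := by
      unfold S4 Pool.Agent.H96.EX.S4
      apply Pool.Agent.H96.EX.S_continuous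
      · apply continuous_pi
        intro i
        fin_cases i
        · exact continuous_const
        · exact hWn 0
        · exact hWn 1
        · exact hWn 2
      · apply continuous_pi
        intro n
        exact hWn (n + 3)
    apply ContinuousAt.div
    · have h0' := hWn 0
      have h1' := hWn 1
      have h2' := hWn 2
      apply Continuous.continuousAt
      fun_prop
    · have h1' := hWn 1
      have h2' := hWn 2
      have hp : Continuous (fun t => ∏ k ∈ range M, W t (k + 3)) :=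
        continuous_finsetProd _ fun k _ => hWn (k + 3)
      apply Continuous.continuousAt
      fun_prop
    · refine mul_ne_zero (three_ne _) (pow_ne_zero _ (mul_ne_zero (mul_ne_zero hb0 hb1) ?_))
      exact Finset.prod_ne_zero_iff.2 fun k hk => hzz k (mem_range.1 hk)
  have hev : F =ᶠ[𝓝[≠] 0] G := by
    filter_upwards [gen_eventually (M + 3) w] with t ht
    have hgg := GG_of_Gen ht
    show F22 Ψ M (W t 0) a1 (W t 1) (W t 2) (fun n => W t (n + 3)) = _
    rw [F22_formula hΨ M hM _ a1 _ _ _ hgg]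
    unfold R22
    rw [TM_eq_S4 _ _ _ _ _ _ hgg.gz]
  have hlim := tendsto_nhds_unique (hFc.tendsto.mono_left nhdsWithin_le_nhds)
    ((hGc.tendsto.mono_left nhdsWithin_le_nhds).congr' hev.symm)
  have hF0 : F 0 = F22 Ψ M a0 a1 b0 b1 z := by
    show F22 Ψ M (W 0 0) a1 (W 0 1) (W 0 2) (fun n => W 0 (n + 3)) = _
    rw [hW0]; rfl
  have hG0 : G 0 = -((q * a1 - q⁻¹ * a0) * (q * b0 - q⁻¹ * b1) * S4 M ![a1, a0, b0, b1] z) /
        (3 ^ (ee M) * (b0 * b1 * ∏ k ∈ range M, z k) ^ (M + 1)) := by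
    show -((q * a1 - q⁻¹ * W 0 0) * (q * W 0 1 - q⁻¹ * W 0 2) *
      S4 M ![a1, W 0 0, W 0 1, W 0 2] (fun n => W 0 (n + 3))) /
        (3 ^ (ee M) * (W 0 1 * W 0 2 * ∏ k ∈ range M, W 0 (k + 3)) ^ (M + 1)) = _
    rw [hW0]; rfl
  rw [← hF0, hlim, hG0]

/-- The homogeneous value. -/
theorem F22_one {Ψ : ∀ L : ℕ, Pat L → (ℤ → ℂ) → ℂ} (hΨ : PsiProps Ψ) (M : ℕ) (hM : Even M) :
    F22 Ψ M 1 1 1 1 (fun _ => 1) = 3 * S4 M ![1, 1, 1, 1] (fun _ => 1) / 3 ^ (ee M) := by
  rw [F22_all hΨ M hM 1 1 1 1 (fun _ => 1) one_ne_zero one_ne_zero (fun _ _ => one_ne_zero)]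
  have hq2 : q⁻¹ = -1 - q := by
    rw [q_inv]; linear_combination q_sq
  have hd : (q * 1 - q⁻¹ * 1) * (q * 1 - q⁻¹ * 1) = -3 := by
    rw [hq2]; linear_combination 4 * q_sq
  rw [hd]
  simp

end H56.EX
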