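import Pool.Agent.H56.EX.Param
import Pool.Agent.H89.Link.Defs

/-! Stationarity of the homogeneous qKZ vector under the random row map of helper89. -/

namespace H56.EX

open Finset Pool.Agent.H89.Link

variable {L : ℕ}

lemma wires_congr' {t t' : ℤ → Bool} : ∀ (k : ℕ) (P : Pat (L + 2)),
    (∀ j : ℕ, j < k → t j = t' j) → wires t k P = wires t' k P := by
  intro k
  induction k with
  | zero => intro P _; rfl
  | succ k ih =>
    intro P h
    simp only [wires]
    rw [ih P (fun j hj => h j (by omega)), h k (by omega)]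

lemma wires_succ (t : ℤ → Bool) (k : ℕ) (P : Pat (L + 2)) :
    wires t (k + 1) P = if t k = true then E ((k : ℤ) + 1) (wires t k P) else wires t k P := rfl

lemma wires_zero (t : ℤ → Bool) (P : Pat (L + 2)) : wires t 0 P = P := rfl

lemma bits_nat (t : Fin L → Bool) (k : ℕ) (hk : k < L) : bits t (k : ℤ) = t ⟨k, hk⟩ := by
  unfold bits
  have h : ((k : ℤ) % (L : ℤ)).toNat = k := by
    rw [Int.emod_eq_of_lt (by omega) (by exact_mod_cast hk)]; simp
  simp only [h, hk, dif_pos]

/-- flip one bit -/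
def flip (k : Fin L) : (Fin L → Bool) ≃ (Fin L → Bool) :=
  Function.Involutive.toPerm (fun t => Function.update t k (!t k)) (by
    intro t
    funext j
    by_cases h : j = k
    · subst h; simp
    · simp [h])

lemma flip_self (k : Fin L) (t : Fin L → Bool) : flip k t k = !t k := by
  simp [flip, Function.Involutive.toPerm]

lemma flip_ne (k j : Fin L) (t : Fin L → Bool) (h : j ≠ k) : flip k t j = t j := by
  simp [flip, Function.Involutive.toPerm, h]

open Classical in
/-- the summed push forward after `k` columns -/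
noncomputable def U (v : Pat L → ℂ) (k : ℕ) (P : Pat (L + 2)) : ℂ :=
  ∑ t : Fin L → Bool, ∑ P0 : Pat L, if wires (bits t) k (ins 0 P0) = P then v P0 else 0

open Classical in
lemma eop_sum {N : ℕ} {ι : Type*} [Fintype ι] (i : ℤ) (f : ι → Pat N) (c : ι → ℂ) (P : Pat N) :
    eop i (fun P' => ∑ x, if f x = P' then c x else 0) P =
      ∑ x, if E i (f x) = P then c x else 0 := by
  unfold eop
  have h : ∀ P' : Pat N, (if E i P' = P then ∑ x, (if f x = P' then c x else 0) else 0) =
      ∑ x, if f x = P' then (if E i P' = P then c x else 0) else 0 := by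
    intro P'
    by_cases h : E i P' = P <;> simp [h]
  rw [Finset.sum_congr rfl (fun P' _ => h P'), Finset.sum_comm]
  refine Finset.sum_congr rfl fun x _ => ?_
  rw [Finset.sum_ite_eq Finset.univ (f x)]
  simp

open Classical in
lemma eop_U (v : Pat L → ℂ) (k : ℕ) (i : ℤ) (P : Pat (L + 2)) :
    eop i (U v k) P = ∑ t : Fin L → Bool, ∑ P0 : Pat L,
      if E i (wires (bits t) k (ins 0 P0)) = P then v P0 else 0 := by
  have h := eop_sum i (fun x : (Fin L → Bool) × Pat L => wires (bits x.1) k (ins 0 x.2))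
    (fun x => v x.2) P
  rw [Fintype.sum_prod_type] at h
  rw [← h]
  congr 1
  funext P'
  rw [Fintype.sum_prod_type]
  rfl

lemma U_succ (v : Pat L → ℂ) (k : ℕ) (hk : k < L) (P : Pat (L + 2)) :
    2 * U v (k + 1) P = U v k P + eop (k + 1) (U v k) P := by
  classical
  rw [eop_U]
  set A : (Fin L → Bool) → ℂ := fun t => ∑ P0 : Pat L,
      if E (k + 1) (wires (bits t) k (ins 0 P0)) = P then v P0 else 0 with hA
  set B : (Fin L → Bool) → ℂ := fun t => ∑ P0 : Pat L,
      if wires (bits t) k (ins 0 P0) = P then v P0 else 0 with hB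
  have hU : U v (k + 1) P = ∑ t : Fin L → Bool, if t ⟨k, hk⟩ = true then A t else B t := by
    unfold U
    refine Finset.sum_congr rfl fun t _ => ?_
    have hb := bits_nat t k hk
    by_cases h : t ⟨k, hk⟩ = true
    · rw [if_pos h]
      refine Finset.sum_congr rfl fun P0 _ => ?_
      have hw1 : wires (bits t) (k + 1) (ins 0 P0) =
          E (k + 1) (wires (bits t) k (ins 0 P0)) := by
        rw [wires_succ, hb, if_pos h]
      exact if_congr (by rw [hw1]) rfl rfl
    · rw [if_neg h]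
      refine Finset.sum_congr rfl fun P0 _ => ?_
      have hw1 : wires (bits t) (k + 1) (ins 0 P0) = wires (bits t) k (ins 0 P0) := by
        rw [wires_succ, hb, if_neg h]
      exact if_congr (by rw [hw1]) rfl rfl
  have hw : ∀ (t : Fin L → Bool) (P0 : Pat L), wires (bits (flip ⟨k, hk⟩ t)) k (ins 0 P0) =
      wires (bits t) k (ins 0 P0) := by
    intro t P0
    apply wires_congr'
    intro j hj
    rw [bits_nat _ j (by omega), bits_nat _ j (by omega), flip_ne]
    intro h
    have := congrArg Fin.val h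
    simp at this
    omega
  have hAf : ∀ t, A (flip ⟨k, hk⟩ t) = A t := by
    intro t; simp only [hA, hw]
  have hBf : ∀ t, B (flip ⟨k, hk⟩ t) = B t := by
    intro t; simp only [hB, hw]
  have h2 : (∑ t : Fin L → Bool, if t ⟨k, hk⟩ = true then A t else B t) =
      ∑ t : Fin L → Bool, if t ⟨k, hk⟩ = true then B t else A t := by
    rw [← Equiv.sum_comp (flip ⟨k, hk⟩)]
    refine Finset.sum_congr rfl fun t _ => ?_
    rw [flip_self, hAf, hBf]
    by_cases h : t ⟨k, hk⟩ = true
    · simp [h]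
    · simp [h]
  have h3 : 2 * U v (k + 1) P = (∑ t : Fin L → Bool, if t ⟨k, hk⟩ = true then A t else B t) +
      ∑ t : Fin L → Bool, if t ⟨k, hk⟩ = true then B t else A t := by
    rw [← h2, hU]; ring
  rw [h3, ← Finset.sum_add_distrib]
  show _ = (∑ t, B t) + ∑ t, A t
  rw [← Finset.sum_add_distrib]
  refine Finset.sum_congr rfl fun t _ => ?_
  by_cases h : t ⟨k, hk⟩ = true
  · simp [h]; ring
  · simp [h]

/-- parameters after `k` columns -/
noncomputable def sk (k : ℕ) : ℕ → ℂ := fun n => if n = 0 then -q else if n = k + 1 then -q ^ 2 else 1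

lemma sk_zero (k : ℕ) : sk k 0 = -q := by simp [sk]
lemma sk_self (k : ℕ) : sk k (k + 1) = -q ^ 2 := by simp [sk]
lemma sk_other (k n : ℕ) (h0 : n ≠ 0) (h1 : n ≠ k + 1) : sk k n = 1 := by simp [sk, h0, h1]

lemma sk_swap (k : ℕ) : sk k ∘ Equiv.swap (k + 1) (k + 1 + 1) = sk (k + 1) := by
  funext n
  rw [Function.comp_apply]
  by_cases h0 : n = 0
  · subst h0
    rw [Equiv.swap_apply_of_ne_of_ne (by omega) (by omega), sk_zero, sk_zero]
  by_cases h1 : n = k + 1
  · subst h1
    rw [Equiv.swap_apply_left, sk_other k _ (by omega) (by omega),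
      sk_other (k + 1) _ (by omega) (by omega)]
  by_cases h2 : n = k + 1 + 1
  · subst h2
    rw [Equiv.swap_apply_right, sk_self, sk_self]
  rw [Equiv.swap_apply_of_ne_of_ne h1 h2, sk_other k _ h0 h1, sk_other (k + 1) _ h0 h2]

section psi

variable {Ψ : ∀ L : ℕ, Pat L → (ℤ → ℂ) → ℂ} (hΨ : PsiProps Ψ)

include hΨ

/-- one column -/
lemma psi_col (k : ℕ) (hk : k < L) (P : Pat (L + 2)) :
    2 * Ψ (L + 2) P (par (L + 2) (sk (k + 1))) = Ψ (L + 2) P (par (L + 2) (sk k)) +
      eop (k + 1) (fun P' => Ψ (L + 2) P' (par (L + 2) (sk k))) P := by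
  have h := hΨ.exch (L + 2) P (par (L + 2) (sk k)) (per_par _ _) ((k + 1 : ℕ) : ℤ)
  rw [swp_par _ (by omega), sk_swap] at h
  have e0 : par (L + 2) (sk k) ((k + 1 : ℕ) : ℤ) = -q ^ 2 := by
    rw [par_nat _ (by omega), sk_self]
  have e1 : par (L + 2) (sk k) (((k + 1 : ℕ) : ℤ) + 1) = 1 := by
    have : ((k + 1 : ℕ) : ℤ) + 1 = ((k + 2 : ℕ) : ℤ) := by push_cast; ring
    rw [this, par_nat _ (by omega), sk_other _ _ (by omega) (by omega)]
  rw [e0, e1] at h
  have hq := q_ne_zero
  have c1 : q * 1 - q⁻¹ * -q ^ 2 = 2 * q := by field_simp; ring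
  have c2 : q * -q ^ 2 - q⁻¹ * 1 = q := by
    rw [q_inv]; linear_combination -q_cube - q_sq
  have c3 : -q ^ 2 - 1 = q := by linear_combination -q_sq
  rw [c1, c2, c3] at h
  have h2 : q * (2 * Ψ (L + 2) P (par (L + 2) (sk (k + 1)))) =
      q * (Ψ (L + 2) P (par (L + 2) (sk k)) +
      eop (k + 1) (fun P' => Ψ (L + 2) P' (par (L + 2) (sk k))) P) := by
    push_cast at h
    linear_combination h
  exact mul_left_cancel₀ hq h2

/-- the scalar -/
noncomputable def gg0 (L : ℕ) : ℂ := -q * -q ^ 2 * (∏ _s ∈ range L, ((1 : ℂ) - q * -q ^ 2) ^ 2) / 3 ^ L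

omit hΨ in
lemma gg0_ne (L : ℕ) : gg0 L ≠ 0 := by
  have h : (1 : ℂ) - q * -q ^ 2 = 2 := by linear_combination q_cube
  have hq := q_ne_zero
  unfold gg0
  rw [h]
  refine div_ne_zero (mul_ne_zero (mul_ne_zero (neg_ne_zero.2 hq)
    (neg_ne_zero.2 (pow_ne_zero _ hq))) ?_) (pow_ne_zero _ (by norm_num))
  exact Finset.prod_ne_zero_iff.2 fun _ _ => by norm_num

lemma U_zero (hL : 2 ≤ L) (P : Pat (L + 2)) :
    gg0 L * U (fun P0 : Pat L => Ψ L P0 (fun _ => 1)) 0 P =
      2 ^ L * Ψ (L + 2) P (par (L + 2) (sk 0)) := by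
  classical
  have e0 : par (L + 2) (sk 0) ((0 : ℕ) : ℤ) = -q := by
    rw [par_nat _ (by omega), sk_zero]
  have e1 : par (L + 2) (sk 0) (((0 : ℕ) : ℤ) + 1) = -q ^ 2 := by
    have : (((0 : ℕ) : ℤ) + 1) = ((0 + 1 : ℕ) : ℤ) := by norm_num
    rw [this, par_nat _ (by omega), sk_self]
  have hcond : par (L + 2) (sk 0) ((0 : ℕ) : ℤ) =
      q ^ 2 * par (L + 2) (sk 0) (((0 : ℕ) : ℤ) + 1) := by
    rw [e0, e1]; linear_combination q * q_cube
  have hcard : (Finset.univ : Finset (Fin L → Bool)).card = 2 ^ L := by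
    rw [Finset.card_univ]; simp
  have hU0 : U (fun P0 : Pat L => Ψ L P0 (fun _ => 1)) 0 P =
      2 ^ L * ∑ P0 : Pat L, if ins 0 P0 = P then Ψ L P0 (fun _ => 1) else 0 := by
    unfold U
    have h1 : ∀ t : Fin L → Bool, (∑ P0 : Pat L, if wires (bits t) 0 (ins 0 P0) = P then
        Ψ L P0 (fun _ => 1) else 0) =
        ∑ P0 : Pat L, if ins 0 P0 = P then Ψ L P0 (fun _ => 1) else 0 := by
      intro t
      refine Finset.sum_congr rfl fun P0 _ => ?_
      exact if_congr (by rw [wires_zero]) rfl rfl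
    rw [Finset.sum_congr rfl (fun t _ => h1 t), Finset.sum_const, hcard, nsmul_eq_mul]
    push_cast
    ring
  rw [hU0]
  by_cases hP : P.m ((0 : ℕ) : ℤ) = ((0 : ℕ) : ℤ) + 1
  · obtain ⟨Q, hQ⟩ := exists_ins hL ((0 : ℕ) : ℤ) P hP
    have h1 := hΨ.arc L Q (par (L + 2) (sk 0)) (per_par _ _) ((0 : ℕ) : ℤ) hcond
    have hpar : (fun x => par (L + 2) (sk 0) (phi L ((0 : ℕ) : ℤ) x)) = fun _ => 1 := by
      rw [phi_par (by omega) (sk 0) 0 (by omega)]
      funext x
      obtain ⟨m, hm, hc, he⟩ := par_eq_emod L (by omega)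
        (fun n => if n < 0 then sk 0 n else sk 0 (n + 2)) x
      rw [he, if_neg (by omega), sk_other _ _ (by omega) (by omega)]
    have hgf : -q * par (L + 2) (sk 0) (((0 : ℕ) : ℤ) + 1) * (∏ s ∈ Finset.range L,
        (par (L + 2) (sk 0) (((0 : ℕ) : ℤ) + 2 + s) -
          q * par (L + 2) (sk 0) (((0 : ℕ) : ℤ) + 1)) ^ 2) / 3 ^ L = gg0 L := by
      unfold gg0
      rw [e1]
      congr 2
      refine Finset.prod_congr rfl fun s hs => ?_
      have hs := Finset.mem_range.1 hs
      have : ((0 : ℕ) : ℤ) + 2 + (s : ℤ) = ((s + 2 : ℕ) : ℤ) := by push_cast; ring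
      rw [this, par_nat _ (by omega), sk_other _ _ (by omega) (by omega)]
    rw [hpar, hgf] at h1
    subst hQ
    rw [h1]
    have hs : (∑ P0 : Pat L, if ins 0 P0 = ins ((0 : ℕ) : ℤ) Q then Ψ L P0 (fun _ => 1) else 0) =
        Ψ L Q (fun _ => 1) := by
      rw [Finset.sum_eq_single Q]
      · simp
      · intro P0 _ hne
        rw [if_neg]
        intro h
        exact hne (ins_injective 0 (by simpa using h))
      · intro h; exact absurd (Finset.mem_univ _) h
    rw [hs]
    ring
  · have h1 := hΨ.arc_zero (L + 2) P (par (L + 2) (sk 0)) (per_par _ _) ((0 : ℕ) : ℤ) hcond hP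
    rw [h1]
    have hs : (∑ P0 : Pat L, if ins 0 P0 = P then Ψ L P0 (fun _ => 1) else 0) = 0 := by
      apply Finset.sum_eq_zero
      intro P0 _
      rw [if_neg]
      intro h
      apply hP
      rw [← h]
      simpa using ins_i (L := L) 0 P0 (x := 0) ⟨0, by ring⟩
    rw [hs]
    ring

lemma U_eq (hL : 2 ≤ L) : ∀ (k : ℕ), k ≤ L → ∀ P : Pat (L + 2),
    gg0 L * U (fun P0 : Pat L => Ψ L P0 (fun _ => 1)) k P =
      2 ^ L * Ψ (L + 2) P (par (L + 2) (sk k)) := by
  intro k
  induction k with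
  | zero => intro _ P; exact U_zero hΨ hL P
  | succ k ih =>
    intro hk P
    have ih := ih (by omega)
    have h1 := U_succ (fun P0 : Pat L => Ψ L P0 (fun _ => 1)) k (by omega) P
    have h2 := psi_col hΨ k (by omega) P
    have h3 : gg0 L * eop (k + 1) (U (fun P0 : Pat L => Ψ L P0 (fun _ => 1)) k) P =
        2 ^ L * eop (k + 1) (fun P' => Ψ (L + 2) P' (par (L + 2) (sk k))) P := by
      unfold eop
      rw [Finset.mul_sum, Finset.mul_sum]
      refine Finset.sum_congr rfl fun P' _ => ?_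
      by_cases h : E ((k : ℤ) + 1) P' = P
      · rw [if_pos h, if_pos h, ih P']
      · rw [if_neg h, if_neg h]; ring
    have h4 := ih P
    have h5 : 2 * (gg0 L * U (fun P0 : Pat L => Ψ L P0 (fun _ => 1)) (k + 1) P) =
        2 * (2 ^ L * Ψ (L + 2) P (par (L + 2) (sk (k + 1)))) := by
      linear_combination gg0 L * h1 + h4 + h3 - 2 ^ L * h2
    exact mul_left_cancel₀ two_ne_zero h5

/-- closing the line -/
lemma cap_psi (hL : 2 ≤ L) (Q : Pat L) :
    eop (-1) (fun P' => Ψ (L + 2) P' (par (L + 2) (sk L))) (ins (-1) Q) =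
      gg0 L * Ψ L Q (fun _ => 1) := by
  set ζ := par (L + 2) (sk L) with hζ
  have e0 : ζ (-1) = -q ^ 2 := by
    have : ζ (-1) = sk L (L + 1) := by
      apply par_of _ (by omega)
      exact ⟨-1, by push_cast; ring⟩
    rw [this, sk_self]
  have e1 : ζ (-1 + 1) = -q := by
    have : (-1 + 1 : ℤ) = ((0 : ℕ) : ℤ) := by norm_num
    rw [this, hζ, par_nat _ (by omega), sk_zero]
  have hper : Per (L + 2) ζ := per_par _ _
  have h := hΨ.exch (L + 2) (ins (-1) Q) ζ hper (-1)
  rw [e0, e1] at h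
  have c1 : q * -q - q⁻¹ * -q ^ 2 = q - q ^ 2 := by
    have hq := q_ne_zero
    field_simp
    ring
  have c2 : q * -q ^ 2 - q⁻¹ * -q = 0 := by
    rw [q_inv]; ring
  have c3 : -q ^ 2 - -q = q - q ^ 2 := by ring
  rw [c1, c2, c3, zero_mul, zero_add] at h
  have hne : q - q ^ 2 ≠ 0 := by
    intro h
    have : q * (q - 1) = 0 := by linear_combination -h
    rcases mul_eq_zero.1 this with h1 | h1
    · exact q_ne_zero h1
    · exact q_ne_one (sub_eq_zero.1 h1)
  have h2 := mul_left_cancel₀ hne h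
  rw [← h2]
  have hc : ∀ x : ℤ, Cg (L + 2) (x + 1) 0 ↔ Cg (L + 2) x (-1) := by
    intro x
    unfold Cg
    constructor
    · rintro ⟨a, ha⟩; exact ⟨a, by linarith⟩
    · rintro ⟨a, ha⟩; exact ⟨a, by linarith⟩
  have s0 : swp (L + 2) (-1) ζ (-1) = -q := by
    unfold swp
    rw [if_pos (by exact ⟨0, by ring⟩), e1]
  have s1 : swp (L + 2) (-1) ζ (-1 + 1) = -q ^ 2 := by
    unfold swp
    have hn : ¬ Cg (L + 2) (-1 + 1) (-1) := by
      intro h
      rcases dvd_cases h with h | h | h <;> push_cast at h <;> omega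
    rw [if_neg hn, if_pos (by exact ⟨0, by ring⟩)]
    simpa using e0
  have so : ∀ x : ℤ, ¬ Cg (L + 2) x (-1) → ¬ Cg (L + 2) x 0 → swp (L + 2) (-1) ζ x = 1 := by
    intro x hx0 hx1
    unfold swp
    rw [if_neg hx0, if_neg (by simpa using hx1)]
    obtain ⟨m, hm, hc, he⟩ := par_eq_emod (L + 2) (by omega) (sk L) x
    rw [hζ, he]
    apply sk_other
    · rintro rfl; exact hx1 (by simpa using hc)
    · rintro rfl
      apply hx0
      obtain ⟨a, ha⟩ := hc
      refine ⟨a + 1, ?_⟩
      push_cast at ha ⊢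
      linarith
  have hper' : Per (L + 2) (swp (L + 2) (-1) ζ) := by
    intro x
    have key : ∀ y : ℤ, Cg (L + 2) (x + ((L + 2 : ℕ) : ℤ)) y ↔ Cg (L + 2) x y := by
      intro y
      unfold Cg
      constructor
      · rintro ⟨a, ha⟩; exact ⟨a - 1, by push_cast at ha ⊢; linarith⟩
      · rintro ⟨a, ha⟩; exact ⟨a + 1, by push_cast at ha ⊢; linarith⟩
    unfold swp
    simp only [key]
    have p1 := hper (x + 1)
    have p2 := hper (x - 1)
    have p3 := hper x
    rw [show x + ((L + 2 : ℕ) : ℤ) + 1 = x + 1 + ((L + 2 : ℕ) : ℤ) by ring, p1,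
      show x + ((L + 2 : ℕ) : ℤ) - 1 = x - 1 + ((L + 2 : ℕ) : ℤ) by ring, p2, p3]
  have ha := hΨ.arc L Q (swp (L + 2) (-1) ζ) hper' (-1)
    (by rw [s0, s1]; linear_combination q * q_cube)
  rw [ha]
  congr 1
  · unfold gg0
    rw [s1]
    congr 2
    refine Finset.prod_congr rfl fun s hs => ?_
    have hs := Finset.mem_range.1 hs
    rw [so]
    · intro h
      rcases dvd_cases h with h | h | h <;> push_cast at h <;> omega
    · intro h
      rcases dvd_cases h with h | h | h <;> push_cast at h <;> omega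
  · congr 1
    funext x
    have := phi_not (L := L) (by omega) (-1) x
    exact so _ this.1 (by simpa using this.2)

/-- Stationarity. -/
theorem stat (hL : 2 ≤ L) : Stat (fun P : Pat L => Ψ L P (fun _ => 1)) := by
  classical
  intro Q
  set v : Pat L → ℂ := fun P : Pat L => Ψ L P (fun _ => 1) with hv
  set Q' := unrot Q with hQ'
  have hrot : rot Q' = Q := (rotEquiv L).right_inv Q
  have hvQ : v Q = v Q' := by
    rw [← hrot]
    exact hΨ.rot L Q' (fun _ => 1) (fun _ => rfl)
  have hrow : ∀ (t : Fin L → Bool) (P : Pat L), row (bits t) P = Q ↔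
      E (-1) (wires (bits t) L (ins 0 P)) = ins (-1) Q' := by
    intro t P
    set X := wires (bits t) L (ins 0 P) with hX
    have hex : ∃ R : Pat L, E (-1) X = ins (-1) R :=
      exists_ins hL (-1) (E (-1) X) (E.self X (-1))
    have hcap : E (-1) X = ins (-1) (cap (-1) X P) := by
      unfold cap
      rw [dif_pos hex]
      exact hex.choose_spec
    rw [hcap]
    unfold row
    rw [← hX]
    constructor
    · intro h
      rw [← hrot] at h
      have : cap (-1) X P = Q' := (rotEquiv L).injective h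
      rw [this]
    · intro h
      rw [ins_injective (-1) h, hrot]
  have h1 : (∑ t : Fin L → Bool, pushRow t v Q) = eop (-1) (U v L) (ins (-1) Q') := by
    rw [eop_U]
    refine Finset.sum_congr rfl fun t _ => ?_
    unfold pushRow
    refine Finset.sum_congr rfl fun P _ => ?_
    by_cases h : row (bits t) P = Q
    · rw [if_pos h, if_pos ((hrow t P).1 h)]
    · rw [if_neg h, if_neg (fun h' => h ((hrow t P).2 h'))]
  have h2 : gg0 L * eop (-1) (U v L) (ins (-1) Q') =
      2 ^ L * eop (-1) (fun P' => Ψ (L + 2) P' (par (L + 2) (sk L))) (ins (-1) Q') := by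
    unfold eop
    rw [Finset.mul_sum, Finset.mul_sum]
    refine Finset.sum_congr rfl fun P' _ => ?_
    by_cases h : E (-1) P' = ins (-1) Q'
    · rw [if_pos h, if_pos h, U_eq hΨ hL L le_rfl P']
    · rw [if_neg h, if_neg h]; ring
  rw [cap_psi hΨ hL Q'] at h2
  rw [h1, hvQ]
  apply mul_left_cancel₀ (gg0_ne L)
  rw [h2]
  show 2 ^ L * (gg0 L * v Q') = gg0 L * (2 ^ L * v Q')
  ring

end psi

end H56.EX
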