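import Pool.Agent.H56.EX.Recs

/-! The base case of the leg formula: `F22` with no glued strand. -/

namespace H56.EX

open scoped BigOperators Classical

/-- The base pattern on two strands. -/
def base2 : Pat 2 where
  m := fun x => if x % 2 = 0 then x - 1 else x + 1
  inv := fun x => by
    by_cases h : x % 2 = 0
    · have h' : (x - 1) % 2 ≠ 0 := by omega
      simp only [h, if_true, h', if_false]; ring
    · have h' : (x + 1) % 2 = 0 := by omega
      simp only [h, if_false, h', if_true]; ring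
  per := fun x => by
    by_cases h : x % 2 = 0
    · have h' : (x + (2 : ℕ)) % 2 = 0 := by push_cast; omega
      simp only [h, if_true, h']; push_cast; ring
    · have h' : (x + (2 : ℕ)) % 2 ≠ 0 := by push_cast; omega
      simp only [h, if_false, h']; push_cast; ring
  ne := fun x => by
    by_cases h : x % 2 = 0 <;> simp [h]
  short := fun x => by
    by_cases h : x % 2 = 0 <;> simp [h]
  nc := fun x y h1 h2 => by
    by_cases h : x % 2 = 0
    · simp only [h, if_true] at h2; omega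
    · simp only [h, if_false] at h2; omega

lemma eq_base2 (P : Pat 2) (h : P.m 0 ≠ 1) : P = base2 := by
  have h0 := P.short' 0
  have h1 := P.ne 0
  have h2 : P.m 0 = -1 := by
    have a1 := h0.1
    have a2 := h0.2
    push_cast at a1 a2
    omega
  have h3 : P.m 1 = 2 := by
    have := P.inv 0
    rw [h2] at this
    have h4 := P.per (-1)
    rw [this] at h4
    simpa using h4
  apply Pat.ext_Ico
  intro x hx0 hx2
  have : x = 0 ∨ x = 1 := by push_cast at hx2; omega
  rcases this with rfl | rfl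
  · rw [h2]; rfl
  · rw [h3]; rfl

lemma isBase_base2 : IsBase base2 := by
  intro x h1 h2
  push_cast at h1 h2
  have : x = 0 ∨ x = -1 := by omega
  rcases this with rfl | rfl <;> rfl

/-- sheet label of a vertex -/
def lab2 : ℤ ⊕ ℤ → ℤ × Bool
  | Sum.inl x => ((x + 1) / 2, false)
  | Sum.inr x => ((x + 1) / 2, true)

lemma base2_half (x : ℤ) : (base2.m x + 1) / 2 = (x + 1) / 2 := by
  show ((if x % 2 = 0 then x - 1 else x + 1) + 1) / 2 = (x + 1) / 2
  by_cases h : x % 2 = 0
  · rw [if_pos h]; omega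
  · rw [if_neg h]; omega

lemma conn_lab2 {u v : ℤ ⊕ ℤ} (h : Conn 2 2 0 base2 base2 u v) : lab2 u = lab2 v := by
  induction h with
  | rel x y h =>
    cases h with
    | top x => simp [lab2, base2_half]
    | bot y => simp [lab2, base2_half]
    | glue a j hj => exact absurd hj (Nat.not_lt_zero _)
  | refl x => rfl
  | symm x y _ ih => exact ih.symm
  | trans x y z _ _ ih1 ih2 => exact ih1.trans ih2

lemma leg_base2 : Leg 2 2 0 base2 base2 := by
  intro u v a b h
  have hl := conn_lab2 h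
  rcases u with s | s <;> rcases v with t | t
  · simp only [hpos, lab2, Prod.mk.injEq, and_true] at hl
    have hs := s.2
    have ht := t.2
    by_cases hst : (s : ℕ) = t
    · left
      refine ⟨by rw [Fin.ext hst], ?_⟩
      rw [hst] at hl
      omega
    · right
      have : b - a = 1 ∨ b - a = -1 := by omega
      rcases this with h | h <;> rw [h] <;> decide
  · simp [hpos, lab2] at hl
  · simp [hpos, lab2] at hl
  · simp only [hpos, lab2, Prod.mk.injEq, and_true] at hl
    have hs := s.2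
    have ht := t.2
    by_cases hst : (s : ℕ) = t
    · left
      refine ⟨by rw [Fin.ext hst], ?_⟩
      rw [hst] at hl
      omega
    · right
      have : b - a = 1 ∨ b - a = -1 := by omega
      rcases this with h | h <;> rw [h] <;> decide

lemma not_leg2_top {Pt Pb : Pat 2} (h : Pt ≠ base2) : ¬ Leg 2 2 0 Pt Pb := by
  have h3 : Pt.m 0 = 1 := by
    by_contra h'
    exact h (eq_base2 Pt h')
  exact not_leg_top (kt := 2) (kb := 2) (M := 0) 0 (by norm_num) (by simpa using h3)

lemma chi_base2 (Pt Pb : Pat 2) :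
    chi 2 2 0 Pt Pb = if Pt = base2 ∧ Pb = base2 then 1 else 0 := by
  unfold chi
  by_cases h1 : Pt = base2
  · by_cases h2 : Pb = base2
    · rw [h1, h2, if_pos leg_base2, if_pos ⟨rfl, rfl⟩]
    · have h3 : ¬ Leg 2 2 0 Pt Pb := fun h => not_leg2_top h2 (legSwap.1 h)
      rw [if_neg h3, if_neg (fun h => h2 h.2)]
  · have h3 : ¬ Leg 2 2 0 Pt Pb := not_leg2_top h1
    rw [if_neg h3, if_neg (fun h => h1 h.1)]

section psi

variable {Ψ : ∀ L : ℕ, Pat L → (ℤ → ℂ) → ℂ} (hΨ : PsiProps Ψ)

include hΨ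

lemma psi_base2 (s : ℕ → ℂ) : Ψ 2 base2 (par 2 s) = (q * s 1 - q⁻¹ * s 0) / (q - q⁻¹) := by
  rw [hΨ.base 2 base2 _ isBase_base2]
  have e0 : par 2 s ((0 : ℕ) : ℤ) = s 0 := par_nat _ (by norm_num)
  have e1 : par 2 s ((1 : ℕ) : ℤ) = s 1 := par_nat _ (by norm_num)
  rw [Finset.prod_range_succ, Finset.prod_range_succ, Finset.prod_range_zero,
    Finset.prod_range_zero, Finset.prod_range_one, e0, e1]
  ring

theorem F22_zero (a0 a1 b0 b1 : ℂ) (z : ℕ → ℂ) (h0 : b0 ≠ 0) (h1 : b1 ≠ 0) :
    F22 Ψ 0 a0 a1 b0 b1 z =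
      -(1 / 3) * (q * a1 - q⁻¹ * a0) * (q * b0 - q⁻¹ * b1) / (b0 * b1) := by
  unfold F22
  rw [legSum_eq]
  have hsum : (∑ Pt : Pat (0 + 2), ∑ Pb : Pat (0 + 2), chi 2 2 0 Pt Pb *
      (Ψ (0 + 2) Pt (par (0 + 2) (scons a0 (scons a1 z))) *
        Ψ (0 + 2) Pb (par (0 + 2) (scons b0⁻¹ (scons b1⁻¹ (fun n => (z n)⁻¹)))))) =
      Ψ 2 base2 (par 2 (scons a0 (scons a1 z))) *
        Ψ 2 base2 (par 2 (scons b0⁻¹ (scons b1⁻¹ (fun n => (z n)⁻¹)))) := by
    rw [Finset.sum_eq_single (base2 : Pat (0 + 2))]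
    · rw [Finset.sum_eq_single (base2 : Pat (0 + 2))]
      · rw [chi_base2, if_pos ⟨rfl, rfl⟩, one_mul]
      · intro Pb _ hb
        rw [chi_base2, if_neg (fun h => hb h.2), zero_mul]
      · intro h; exact absurd (Finset.mem_univ _) h
    · intro Pt _ ht
      apply Finset.sum_eq_zero
      intro Pb _
      rw [chi_base2, if_neg (fun h => ht h.1), zero_mul]
    · intro h; exact absurd (Finset.mem_univ _) h
  rw [hsum, psi_base2 hΨ, psi_base2 hΨ]
  have hq2 : q⁻¹ = -1 - q := by
    rw [q_inv]; linear_combination q_sq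
  have hd : (q - q⁻¹) ^ 2 = -3 := by
    rw [hq2]; linear_combination 4 * q_sq
  have hd0 : q - q⁻¹ ≠ 0 := by
    intro h
    rw [h] at hd
    norm_num at hd
  show (q * a1 - q⁻¹ * a0) / (q - q⁻¹) * ((q * b1⁻¹ - q⁻¹ * b0⁻¹) / (q - q⁻¹)) = _
  have e : (q * b1⁻¹ - q⁻¹ * b0⁻¹) = (q * b0 - q⁻¹ * b1) / (b0 * b1) := by
    have hq0 := q_ne_zero
    field_simp
  rw [e, div_mul_div_comm, ← pow_two, hd]
  ring

end psi

end H56.EX
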