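import Pool.Agent.H56.EX.TMx
import Pool.Agent.H56.EX.Base

/-! The explicit right hand sides of the leg formulas and their recursions. -/

namespace H56.EX

open Finset Pool.Agent.H96.EX

/-- exponents of 3 -/
def ee : ℕ → ℕ
  | 0 => 1
  | M + 1 => ee M + (M + 2)

/-- the explicit (2,2) leg function -/
noncomputable def R22 (M : ℕ) (a0 a1 b0 b1 : ℂ) (z : ℕ → ℂ) : ℂ :=
  -((q * a1 - q⁻¹ * a0) * (q * b0 - q⁻¹ * b1) * TM M [a1, a0, b0, b1] z) /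
    (3 ^ (ee M) * (b0 * b1 * ∏ k ∈ range M, z k) ^ (M + 1))

/-- the explicit (1,3) leg function -/
noncomputable def R13 (M : ℕ) (a b0 b1 b2 : ℂ) (z : ℕ → ℂ) : ℂ :=
  -((q ^ 2 - q) * ((q * b0 - q⁻¹ * b1) * (q * b0 - q⁻¹ * b2) * (q * b1 - q⁻¹ * b2)) *
    TM M [b2, a, b0, b1] z) / (3 ^ (ee M + 1) * (b0 * b1 * b2 * ∏ k ∈ range M, z k) ^ (M + 2))

lemma qi : q⁻¹ = q ^ 2 := q_inv

lemma prod_ne {M : ℕ} {z : ℕ → ℂ} (hz : Gen M z) : ∏ k ∈ range M, z k ≠ 0 :=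
  Finset.prod_ne_zero_iff.2 fun k hk => hz.1 k (mem_range.1 hk)

lemma three_ne (n : ℕ) : (3 : ℂ) ^ n ≠ 0 := pow_ne_zero _ (by norm_num)

/-- A1 -/
lemma R22_right (M : ℕ) (a0 b0 b1 : ℂ) (z : ℕ → ℂ) (hz : Gen (M + 1) z) (h0 : b0 ≠ 0)
    (h1 : b1 ≠ 0) :
    R22 (M + 1) a0 (q ^ 2 * z 0) b0 b1 z =
      (-q * z 0 * ((∏ s ∈ range M, (z (s + 1) - q * z 0) ^ 2) * (a0 - q * z 0) ^ 2) /
        3 ^ (M + 1)) * R13 M a0 b0 b1 (z 0) (fun n => z (n + 1)) := by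
  unfold R22 R13
  rw [TM_rec1 M _ z hz, Finset.prod_range_succ', qi]
  simp only [lg_cons, lg_nil, ee]
  set Z := ∏ k ∈ range M, z (k + 1) with hZ
  set D := ∏ k ∈ range M, (z (k + 1) - q * z 0) ^ 2 with hD
  set T := TM M [z 0, a0, b0, b1] fun n => z (n + 1) with hT
  have hz0 : z 0 ≠ 0 := hz.1 0 (by omega)
  have hZ0 : Z ≠ 0 := by
    rw [hZ]
    exact Finset.prod_ne_zero_iff.2 fun k hk => hz.1 _ (by have := mem_range.1 hk; omega)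
  have e1 : q * (q ^ 2 * z 0) - q ^ 2 * a0 = -q ^ 2 * (a0 - q * z 0) := by ring
  have e2 : ∀ b : ℂ, q * b - q ^ 2 * z 0 = q * (b - q * z 0) := fun b => by ring
  rw [e1, e2 b0, e2 b1, div_mul_div_comm, div_eq_div_iff]
  · linear_combination (-(q ^ 2 * (q * b0 - q ^ 2 * b1) * z 0 * (a0 - q * z 0) ^ 2 *
      (b0 - q * z 0) * (b1 - q * z 0) * D * T * (3 ^ (ee M + (M + 2)) *
        (b0 * b1 * (Z * z 0)) ^ (M + 2)))) * q_cube
  · refine mul_ne_zero (three_ne _) (pow_ne_zero _ ?_)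
    simp [h0, h1, hz0, hZ0]
  · refine mul_ne_zero (three_ne _) (mul_ne_zero (three_ne _) (pow_ne_zero _ ?_))
    simp [h0, h1, hz0, hZ0]

/-- A3 -/
lemma R22_left (M : ℕ) (a0 b0 b1 : ℂ) (z : ℕ → ℂ) (hz : Gen (M + 1) z) (h0 : b0 ≠ 0)
    (h1 : b1 ≠ 0) :
    R22 (M + 1) (q * z M) a0 b0 b1 z =
      (-q * (q * z M) * ((∏ s ∈ range M, (z s - q * (q * z M)) ^ 2) *
        (a0 - q * (q * z M)) ^ 2) / 3 ^ (M + 1)) * R13 M a0 (z M) b0 b1 z := by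
  unfold R22 R13
  rw [TM_perm (c := [a0, q * z M, b0, b1]) (c' := [q * z M, a0, b0, b1]) (List.Perm.swap _ _ _),
    TM_rec2_last M _ z hz, Finset.prod_range_succ, qi,
    TM_perm (c := [b1, a0, z M, b0]) (c' := [z M, a0, b0, b1])
      (by
        rw [List.perm_iff_count]
        intro x
        simp only [List.count_cons, List.count_nil]
        ring)]
  simp only [lg_cons, lg_nil, ee]
  set Z := ∏ k ∈ range M, z k with hZ
  have eD : (∏ s ∈ range M, (z s - q * (q * z M)) ^ 2) =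
      ∏ k ∈ range M, (z k - q ^ 2 * z M) ^ 2 := by
    refine Finset.prod_congr rfl fun k _ => ?_
    ring
  rw [eD]
  set D := ∏ k ∈ range M, (z k - q ^ 2 * z M) ^ 2 with hD
  set T := TM M [z M, a0, b0, b1] z with hT
  have hz0 : z M ≠ 0 := hz.1 M (by omega)
  have hZ0 : Z ≠ 0 := by
    rw [hZ]
    exact Finset.prod_ne_zero_iff.2 fun k hk => hz.1 _ (by have := mem_range.1 hk; omega)
  have e1 : ∀ x y : ℂ, q * x - q ^ 2 * (q * y) = q * (x - q ^ 2 * y) := fun x y => by ring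
  have e2 : ∀ x : ℂ, q * z M - q ^ 2 * x = -q ^ 2 * (x - q ^ 2 * z M) := fun x => by
    linear_combination (- q * z M) * q_cube
  rw [e1, e2 b0, e2 b1, div_mul_div_comm, div_eq_div_iff]
  · linear_combination (-((q ^ 2 - q) * (q ^ 3 + 1) * (q * b0 - q ^ 2 * b1) * z M *
      (a0 - q ^ 2 * z M) ^ 2 * (b0 - q ^ 2 * z M) * (b1 - q ^ 2 * z M) * D * T *
      (3 ^ (ee M + (M + 2)) * (b0 * b1 * (Z * z M)) ^ (M + 2)))) * q_cube
  · refine mul_ne_zero (three_ne _) (pow_ne_zero _ ?_)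
    simp [h0, h1, hz0, hZ0]
  · refine mul_ne_zero (three_ne _) (mul_ne_zero (three_ne _) (pow_ne_zero _ ?_))
    simp [h0, h1, hz0, hZ0]

lemma inv_sub_sq {x y : ℂ} (hx : x ≠ 0) (hy : y ≠ 0) :
    (x⁻¹ - q * y⁻¹) ^ 2 = q ^ 2 * (x - q ^ 2 * y) ^ 2 / (x * y) ^ 2 := by
  field_simp
  linear_combination (2 * q * x * y - q ^ 3 * y ^ 2 - y ^ 2) * q_cube

/-- B1 -/
lemma R13_right (M : ℕ) (a b0 b1 : ℂ) (z : ℕ → ℂ) (hz : Gen (M + 1) z) (h0 : b0 ≠ 0)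
    (h1 : b1 ≠ 0) :
    R13 (M + 1) a b0 b1 (q * z 0) z =
      (-q * (z 0)⁻¹ * ((∏ s ∈ range M, ((z (s + 1))⁻¹ - q * (z 0)⁻¹) ^ 2) *
        (b0⁻¹ - q * (z 0)⁻¹) ^ 2 * (b1⁻¹ - q * (z 0)⁻¹) ^ 2) /
        3 ^ (M + 2)) * R22 M a (z 0) b0 b1 (fun n => z (n + 1)) := by
  have hz0 : z 0 ≠ 0 := hz.1 0 (by omega)
  have hk0 : ∀ k, k < M → z (k + 1) ≠ 0 := fun k hk => hz.1 _ (by omega)
  unfold R22 R13
  rw [TM_rec2 M _ z hz, Finset.prod_range_succ', qi, inv_sub_sq h0 hz0, inv_sub_sq h1 hz0]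
  simp only [lg_cons, lg_nil, ee]
  have eD : (∏ s ∈ range M, ((z (s + 1))⁻¹ - q * (z 0)⁻¹) ^ 2) =
      (q ^ 2) ^ M * (∏ k ∈ range M, (z (k + 1) - q ^ 2 * z 0) ^ 2) /
        ((∏ k ∈ range M, z (k + 1)) ^ 2 * (z 0 ^ 2) ^ M) := by
    rw [eq_div_iff]
    · have : (q ^ 2) ^ M = ∏ k ∈ range M, q ^ 2 := by rw [Finset.prod_const, card_range]
      rw [this, ← Finset.prod_mul_distrib]
      have : (z 0 ^ 2) ^ M = ∏ k ∈ range M, z 0 ^ 2 := by rw [Finset.prod_const, card_range]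
      rw [this, ← Finset.prod_pow, ← Finset.prod_mul_distrib, ← Finset.prod_mul_distrib]
      refine Finset.prod_congr rfl fun k hk => ?_
      have hk := hk0 k (mem_range.1 hk)
      rw [inv_sub_sq hk hz0]
      field_simp
    · refine mul_ne_zero (pow_ne_zero _ ?_) (pow_ne_zero _ (pow_ne_zero _ hz0))
      exact Finset.prod_ne_zero_iff.2 fun k hk => hk0 k (mem_range.1 hk)
  rw [eD]
  set Z := ∏ k ∈ range M, z (k + 1) with hZ
  set D := ∏ k ∈ range M, (z (k + 1) - q ^ 2 * z 0) ^ 2 with hD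
  set T := TM M [z 0, a, b0, b1] fun n => z (n + 1) with hT
  have hZ0 : Z ≠ 0 := by
    rw [hZ]
    exact Finset.prod_ne_zero_iff.2 fun k hk => hk0 k (mem_range.1 hk)
  have e1 : ∀ b : ℂ, q * b - q ^ 2 * (q * z 0) = q * (b - q ^ 2 * z 0) := fun b => by ring
  have e2 : q * z 0 - q ^ 2 * a = -q ^ 2 * (a - q ^ 2 * z 0) := by
    linear_combination (- q * z 0) * q_cube
  rw [e1 b0, e1 b1, e2]
  have hQ : (q ^ M) ^ 3 = 1 := by rw [← pow_mul, mul_comm, pow_mul, q_cube, one_pow]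
  have hQ0 : q ^ M ≠ 0 := pow_ne_zero _ q_ne_zero
  have h30 : (3 : ℂ) ^ M ≠ 0 := three_ne M
  have h31 : (3 : ℂ) ^ (ee M) ≠ 0 := three_ne _
  have hq := q_ne_zero
  have hK : ∀ K : ℂ, (q - 1) ^ 2 * K = -(3 * q ^ 7 * (q ^ M) ^ 3 * K) := by
    intro K
    linear_combination K * q_sq + 3 * q * K * (q ^ M) ^ 3 * (q ^ 3 + 1) * q_cube + 3 * q * K * hQ
  field_simp
  linear_combination hK (b0 ^ 2 * b1 ^ 2 * (b0 - q * b1) * z 0 ^ 6 * (b0 - q ^ 2 * z 0) ^ 2 *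
    (b1 - q ^ 2 * z 0) ^ 2 * (a - q ^ 2 * z 0) * D * T * Z ^ 2 * (z 0 ^ 2) ^ M * 3 ^ (M + 2) *
    3 ^ ee M * (b0 * b1 * Z) ^ (M + 1))

/-- B4 -/
lemma R13_left (M : ℕ) (a b0 b1 : ℂ) (z : ℕ → ℂ) (hz : Gen (M + 1) z) (h0 : b0 ≠ 0)
    (h1 : b1 ≠ 0) :
    R13 (M + 1) a (q ^ 2 * z M) b0 b1 z =
      (-q * (q ^ 2 * z M)⁻¹ * ((∏ s ∈ range M, ((z s)⁻¹ - q * (q ^ 2 * z M)⁻¹) ^ 2) *
        (b1⁻¹ - q * (q ^ 2 * z M)⁻¹) ^ 2 * (b0⁻¹ - q * (q ^ 2 * z M)⁻¹) ^ 2) /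
        3 ^ (M + 2)) * R22 M (z M) a b0 b1 z := by
  have hz0 : z M ≠ 0 := hz.1 M (by omega)
  have hk0 : ∀ k, k < M → z k ≠ 0 := fun k hk => hz.1 _ (by omega)
  have hq := q_ne_zero
  have hqz : q ^ 2 * z M ≠ 0 := mul_ne_zero (pow_ne_zero _ hq) hz0
  unfold R22 R13
  rw [TM_perm (c := [b1, a, q ^ 2 * z M, b0]) (c' := [q ^ 2 * z M, a, b0, b1])
      (by
        rw [List.perm_iff_count]
        intro x
        simp only [List.count_cons, List.count_nil]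
        ring),
    TM_rec1_last M _ z hz, Finset.prod_range_succ, qi, inv_sub_sq h0 hqz, inv_sub_sq h1 hqz,
    TM_perm (c := [a, z M, b0, b1]) (c' := [z M, a, b0, b1]) (List.Perm.swap _ _ _)]
  simp only [lg_cons, lg_nil, ee]
  have e0 : ∀ x : ℂ, x - q ^ 2 * (q ^ 2 * z M) = x - q * z M := fun x => by
    linear_combination (- q * z M) * q_cube
  have eD : (∏ s ∈ range M, ((z s)⁻¹ - q * (q ^ 2 * z M)⁻¹) ^ 2) =
      (q ^ 2) ^ M * (∏ k ∈ range M, (z k - q * z M) ^ 2) /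
        ((∏ k ∈ range M, z k) ^ 2 * ((q ^ 2 * z M) ^ 2) ^ M) := by
    rw [eq_div_iff]
    · have : (q ^ 2) ^ M = ∏ k ∈ range M, q ^ 2 := by rw [Finset.prod_const, card_range]
      rw [this, ← Finset.prod_mul_distrib]
      have : ((q ^ 2 * z M) ^ 2) ^ M = ∏ k ∈ range M, (q ^ 2 * z M) ^ 2 := by
        rw [Finset.prod_const, card_range]
      rw [this, ← Finset.prod_pow, ← Finset.prod_mul_distrib, ← Finset.prod_mul_distrib]
      refine Finset.prod_congr rfl fun k hk => ?_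
      have hk := hk0 k (mem_range.1 hk)
      rw [inv_sub_sq hk hqz, e0]
      field_simp
    · refine mul_ne_zero (pow_ne_zero _ ?_) (pow_ne_zero _ (pow_ne_zero _ hqz))
      exact Finset.prod_ne_zero_iff.2 fun k hk => hk0 k (mem_range.1 hk)
  rw [eD, e0, e0]
  set Z := ∏ k ∈ range M, z k with hZ
  set D := ∏ k ∈ range M, (z k - q * z M) ^ 2 with hD
  set T := TM M [z M, a, b0, b1] z with hT
  have hZ0 : Z ≠ 0 := by
    rw [hZ]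
    exact Finset.prod_ne_zero_iff.2 fun k hk => hk0 k (mem_range.1 hk)
  have e1 : ∀ b : ℂ, q * (q ^ 2 * z M) - q ^ 2 * b = -q ^ 2 * (b - q * z M) := fun b => by ring
  have e2 : q * a - q ^ 2 * z M = q * (a - q * z M) := by ring
  rw [e1 b0, e1 b1, e2]
  have hQ : (q ^ M) ^ 3 = 1 := by rw [← pow_mul, mul_comm, pow_mul, q_cube, one_pow]
  have hQ0 : q ^ M ≠ 0 := pow_ne_zero _ q_ne_zero
  have h30 : (3 : ℂ) ^ M ≠ 0 := three_ne M
  have h31 : (3 : ℂ) ^ (ee M) ≠ 0 := three_ne _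
  field_simp
  have hK : ∀ K : ℂ, -(q ^ 9 * (q - 1) * (1 - q ^ 2) * (q ^ M) ^ 4 * K) =
      3 * q ^ 6 * (q ^ M) ^ 4 * K := by
    intro K
    linear_combination (-(q ^ 9 * (q ^ M) ^ 4 * K)) * q_sq +
      (q ^ 6 * (q ^ 3 + 3) * (q ^ M) ^ 4 * K) * q_cube
  linear_combination hK (b0 ^ 2 * z M ^ 6 * (b0 - q * z M) ^ 2 * b1 ^ 2 * (b1 - q * z M) ^ 2 *
    (b0 - q * b1) * (a - q * z M) * D * T * Z ^ 2 * (z M ^ 2) ^ M * 3 ^ (M + 2) * 3 ^ ee M *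
    (b0 * b1 * Z) ^ (M + 1))

end H56.EX
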