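import Pool.Agent.H56.EX.Defs

/-! Exchange relations of leg sums. -/

namespace H56.EX

open scoped BigOperators Classical

variable {Lt Lb : ℕ}

/-- indicator of the leg class -/
noncomputable def chi (kt kb M : ℕ) (Pt : Pat Lt) (Pb : Pat Lb) : ℂ :=
  if Leg kt kb M Pt Pb then 1 else 0

lemma legSum_eq (kt kb M : ℕ) (v : Pat Lt → ℂ) (w : Pat Lb → ℂ) :
    legSum kt kb M v w = ∑ Pt, ∑ Pb, chi kt kb M Pt Pb * (v Pt * w Pb) := by
  unfold legSum chi
  refine Finset.sum_congr rfl fun Pt _ => Finset.sum_congr rfl fun Pb _ => ?_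
  by_cases h : Leg kt kb M Pt Pb <;> simp [h]

lemma legSum_eop_left (kt kb M : ℕ) (i : ℤ) (v : Pat Lt → ℂ) (w : Pat Lb → ℂ) :
    legSum kt kb M (eop i v) w = ∑ Pt, ∑ Pb, chi kt kb M (E i Pt) Pb * (v Pt * w Pb) := by
  rw [legSum_eq]
  have h1 : ∀ Pt : Pat Lt, ∑ Pb : Pat Lb, chi kt kb M Pt Pb * (eop i v Pt * w Pb) =
      ∑ P' : Pat Lt, ∑ Pb : Pat Lb,
        (if E i P' = Pt then chi kt kb M Pt Pb * (v P' * w Pb) else 0) := by
    intro Pt
    rw [Finset.sum_comm]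
    refine Finset.sum_congr rfl fun Pb _ => ?_
    unfold eop
    rw [Finset.sum_mul, Finset.mul_sum]
    refine Finset.sum_congr rfl fun P' _ => ?_
    by_cases h : E i P' = Pt <;> simp [h]
  rw [Finset.sum_congr rfl (fun Pt _ => h1 Pt), Finset.sum_comm]
  refine Finset.sum_congr rfl fun P' _ => ?_
  rw [Finset.sum_comm]
  refine Finset.sum_congr rfl fun Pb _ => ?_
  rw [Finset.sum_ite_eq Finset.univ (E i P')]
  simp

lemma legSum_swap' (kt kb M : ℕ) (i : ℤ) (v : Pat Lt → ℂ) (w : Pat Lb → ℂ) :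
    legSum kt kb M v (eop i w) = ∑ Pt, ∑ Pb, chi kt kb M Pt (E i Pb) * (v Pt * w Pb) := by
  rw [legSum_eq]
  refine Finset.sum_congr rfl fun Pt _ => ?_
  have h1 : ∀ Pb : Pat Lb, chi kt kb M Pt Pb * (v Pt * eop i w Pb) =
      ∑ P' : Pat Lb, (if E i P' = Pb then chi kt kb M Pt Pb * (v Pt * w P') else 0) := by
    intro Pb
    unfold eop
    rw [Finset.mul_sum, Finset.mul_sum]
    refine Finset.sum_congr rfl fun P' _ => ?_
    by_cases h : E i P' = Pb <;> simp [h]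
  rw [Finset.sum_congr rfl (fun Pb _ => h1 Pb), Finset.sum_comm]
  refine Finset.sum_congr rfl fun P' _ => ?_
  rw [Finset.sum_ite_eq Finset.univ (E i P')]
  simp

section linear

variable (kt kb M : ℕ)

lemma legSum_add_left (v v' : Pat Lt → ℂ) (w : Pat Lb → ℂ) :
    legSum kt kb M (fun P => v P + v' P) w = legSum kt kb M v w + legSum kt kb M v' w := by
  simp only [legSum_eq, ← Finset.sum_add_distrib]
  refine Finset.sum_congr rfl fun _ _ => Finset.sum_congr rfl fun _ _ => by ring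

lemma legSum_smul_left (c : ℂ) (v : Pat Lt → ℂ) (w : Pat Lb → ℂ) :
    legSum kt kb M (fun P => c * v P) w = c * legSum kt kb M v w := by
  simp only [legSum_eq, Finset.mul_sum]
  refine Finset.sum_congr rfl fun _ _ => Finset.sum_congr rfl fun _ _ => by ring

lemma legSum_add_right (v : Pat Lt → ℂ) (w w' : Pat Lb → ℂ) :
    legSum kt kb M v (fun P => w P + w' P) = legSum kt kb M v w + legSum kt kb M v w' := by
  simp only [legSum_eq, ← Finset.sum_add_distrib]
  refine Finset.sum_congr rfl fun _ _ => Finset.sum_congr rfl fun _ _ => by ring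

lemma legSum_smul_right (c : ℂ) (v : Pat Lt → ℂ) (w : Pat Lb → ℂ) :
    legSum kt kb M v (fun P => c * w P) = c * legSum kt kb M v w := by
  simp only [legSum_eq, Finset.mul_sum]
  refine Finset.sum_congr rfl fun _ _ => Finset.sum_congr rfl fun _ _ => by ring

end linear

/-! ### top-bottom symmetry -/

lemma connSwap {kt kb M : ℕ} {Pt : Pat Lt} {Pb : Pat Lb} {u v : ℤ ⊕ ℤ}
    (h : Conn kt kb M Pt Pb u v) : Conn kb kt M Pb Pt u.swap v.swap := by
  induction h with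
  | rel x y h =>
    cases h with
    | top x => exact Relation.EqvGen.rel _ _ (Step.bot x)
    | bot y => exact Relation.EqvGen.rel _ _ (Step.top y)
    | glue a j hj => exact Relation.EqvGen.symm _ _ (Relation.EqvGen.rel _ _ (Step.glue a j hj))
  | refl x => exact Relation.EqvGen.refl _
  | symm x y _ ih => exact Relation.EqvGen.symm _ _ ih
  | trans x y z _ _ ih1 ih2 => exact Relation.EqvGen.trans _ _ _ ih1 ih2

lemma hpos_swap {kt kb : ℕ} (u : Fin kt ⊕ Fin kb) (a : ℤ) :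
    (hpos Lt Lb kt kb u a).swap = hpos Lb Lt kb kt u.swap a := by
  cases u <;> rfl

lemma legSwap_imp {kt kb M : ℕ} {Pt : Pat Lt} {Pb : Pat Lb} (h : Leg kt kb M Pt Pb) :
    Leg kb kt M Pb Pt := by
  intro u v a b hc
  have h1 := connSwap hc
  rw [hpos_swap, hpos_swap] at h1
  rcases h u.swap v.swap a b h1 with ⟨h2, h3⟩ | h2
  · left
    exact ⟨by rw [← Sum.swap_swap u, h2, Sum.swap_swap], h3⟩
  · exact Or.inr h2

/-- LT5 -/
theorem legSwap {kt kb M : ℕ} {Pt : Pat Lt} {Pb : Pat Lb} :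
    Leg kt kb M Pt Pb ↔ Leg kb kt M Pb Pt := ⟨legSwap_imp, legSwap_imp⟩

lemma chi_swap (kt kb M : ℕ) (Pt : Pat Lt) (Pb : Pat Lb) :
    chi kt kb M Pt Pb = chi kb kt M Pb Pt := by
  unfold chi
  simp only [legSwap (kt := kt) (kb := kb)]

lemma legSum_swap (kt kb M : ℕ) (v : Pat Lt → ℂ) (w : Pat Lb → ℂ) :
    legSum kt kb M v w = legSum kb kt M w v := by
  rw [legSum_eq, legSum_eq, Finset.sum_comm]
  refine Finset.sum_congr rfl fun _ _ => Finset.sum_congr rfl fun _ _ => ?_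
  rw [chi_swap]; ring

/-! ### hole ends (LT2) -/

/-- LT2: a small arc between consecutive hole ends of the top excludes the leg class -/
theorem not_leg_top {kt kb M : ℕ} {Pt : Pat Lt} {Pb : Pat Lb} (s : ℕ) (hs : s + 1 < kt)
    (h : Pt.m s = s + 1) : ¬ Leg kt kb M Pt Pb := by
  intro hl
  have hc : Conn kt kb M Pt Pb (hpos Lt Lb kt kb (Sum.inl ⟨s, by omega⟩) 0)
      (hpos Lt Lb kt kb (Sum.inl ⟨s + 1, hs⟩) 0) := by
    have := Relation.EqvGen.rel _ _ (Step.top (kt := kt) (kb := kb) (M := M) (Pt := Pt) (Pb := Pb) s)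
    rw [h] at this
    simpa [hpos, Conn] using this
  rcases hl _ _ _ _ hc with ⟨h1, _⟩ | h1
  · simp at h1
  · simp at h1

lemma legSum_eop_hole (kt kb M : ℕ) (s : ℕ) (hs : s + 1 < kt) (v : Pat Lt → ℂ) (w : Pat Lb → ℂ) :
    legSum kt kb M (eop s v) w = 0 := by
  rw [legSum_eop_left]
  apply Finset.sum_eq_zero
  intro Pt _
  apply Finset.sum_eq_zero
  intro Pb _
  have : ¬ Leg kt kb M (E s Pt) Pb := not_leg_top s hs (by simpa using E.self Pt (s : ℤ))
  simp [chi, this]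

lemma legSum_eop_hole_bot (kt kb M : ℕ) (s : ℕ) (hs : s + 1 < kb) (v : Pat Lt → ℂ)
    (w : Pat Lb → ℂ) : legSum kt kb M v (eop s w) = 0 := by
  rw [legSum_swap, legSum_eop_hole kb kt M s hs]

section psi

variable {Ψ : ∀ L : ℕ, Pat L → (ℤ → ℂ) → ℂ} (hΨ : PsiProps Ψ)

include hΨ

/-- exchange of two neighbouring hole ends at the top: a scalar -/
theorem exch_hole_top (kt kb M : ℕ) (s : ℕ) (hs : s + 1 < kt) (ζ : ℤ → ℂ) (hζ : Per Lt ζ)
    (w : Pat Lb → ℂ) :
    (q * ζ (s + 1) - q⁻¹ * ζ s) * legSum kt kb M (fun P => Ψ Lt P (swp Lt s ζ)) w =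
      (q * ζ s - q⁻¹ * ζ (s + 1)) * legSum kt kb M (fun P => Ψ Lt P ζ) w := by
  rw [← legSum_smul_left]
  have h1 : (fun P : Pat Lt => (q * ζ (s + 1) - q⁻¹ * ζ s) * Ψ Lt P (swp Lt s ζ)) =
      fun P => (q * ζ s - q⁻¹ * ζ (s + 1)) * Ψ Lt P ζ +
        (ζ s - ζ (s + 1)) * eop s (fun P' => Ψ Lt P' ζ) P := by
    funext P
    exact hΨ.exch Lt P ζ hζ s
  rw [h1, legSum_add_left, legSum_smul_left, legSum_smul_left, legSum_eop_hole _ _ _ s hs]
  ring

theorem exch_hole_bot (kt kb M : ℕ) (s : ℕ) (hs : s + 1 < kb) (ζ : ℤ → ℂ) (hζ : Per Lb ζ)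
    (v : Pat Lt → ℂ) :
    (q * ζ (s + 1) - q⁻¹ * ζ s) * legSum kt kb M v (fun P => Ψ Lb P (swp Lb s ζ)) =
      (q * ζ s - q⁻¹ * ζ (s + 1)) * legSum kt kb M v (fun P => Ψ Lb P ζ) := by
  rw [legSum_swap, legSum_swap kt kb M]
  exact exch_hole_top hΨ kb kt M s hs ζ hζ v

/-- simultaneous exchange of two neighbouring glued strands (uses LT1 as hypothesis `hadj`). -/
theorem exch_glued (kt kb M : ℕ) (j : ℕ)
    (hadj : ∀ (Pt : Pat Lt) (Pb : Pat Lb),
      Leg kt kb M (E (kt + j) Pt) Pb ↔ Leg kt kb M Pt (E (kb + j) Pb))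
    (ζ ξ : ℤ → ℂ) (hζ : Per Lt ζ) (hξ : Per Lb ξ)
    (h0 : ζ (kt + j) ≠ 0) (h1 : ζ (kt + j + 1) ≠ 0)
    (e0 : ξ (kb + j) = (ζ (kt + j))⁻¹) (e1 : ξ (kb + j + 1) = (ζ (kt + j + 1))⁻¹)
    (g0 : q * ζ (kt + j + 1) - q⁻¹ * ζ (kt + j) ≠ 0)
    (g1 : q * ζ (kt + j) - q⁻¹ * ζ (kt + j + 1) ≠ 0) :
    legSum kt kb M (fun P => Ψ Lt P (swp Lt (kt + j) ζ)) (fun P => Ψ Lb P (swp Lb (kb + j) ξ)) =
      legSum kt kb M (fun P => Ψ Lt P ζ) (fun P => Ψ Lb P ξ) := by
  set i : ℤ := kt + j with hi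
  set i' : ℤ := kb + j with hi'
  set x := ζ i with hx
  set y := ζ (i + 1) with hy
  set v : Pat Lt → ℂ := fun P => Ψ Lt P ζ with hv
  set w : Pat Lb → ℂ := fun P => Ψ Lb P ξ with hw
  have ht : ∀ P : Pat Lt, (q * y - q⁻¹ * x) * Ψ Lt P (swp Lt i ζ) =
      (q * x - q⁻¹ * y) * v P + (x - y) * eop i v P := fun P => hΨ.exch Lt P ζ hζ i
  have hb : ∀ P : Pat Lb, (q * x - q⁻¹ * y) * Ψ Lb P (swp Lb i' ξ) =
      (q * y - q⁻¹ * x) * w P + (-(x - y)) * eop i' w P := by
    intro P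
    have := hΨ.exch Lb P ξ hξ i'
    rw [e0, e1] at this
    have hq := q_ne_zero
    field_simp at this ⊢
    linear_combination this
  have hmain : ((q * y - q⁻¹ * x) * (q * x - q⁻¹ * y)) *
      legSum kt kb M (fun P => Ψ Lt P (swp Lt i ζ)) (fun P => Ψ Lb P (swp Lb i' ξ)) =
      ((q * y - q⁻¹ * x) * (q * x - q⁻¹ * y)) * legSum kt kb M v w := by
    have adj1 : ∀ (v : Pat Lt → ℂ) (w : Pat Lb → ℂ),
        legSum kt kb M (eop i v) w = legSum kt kb M v (eop i' w) := by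
      intro v w
      rw [legSum_eop_left, legSum_swap']
      refine Finset.sum_congr rfl fun _ _ => Finset.sum_congr rfl fun _ _ => ?_
      unfold chi
      simp only [hadj]
    have idem : ∀ w : Pat Lb → ℂ, legSum kt kb M v (eop i' (eop i' w)) =
        legSum kt kb M v (eop i' w) := by
      intro w
      have : eop i' (eop i' w) = eop i' w := by
        funext P
        unfold eop
        have h2 : ∀ P' : Pat Lb, (if E i' P' = P then (∑ P'' : Pat Lb,
            if E i' P'' = P' then w P'' else 0) else 0) =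
            ∑ P'' : Pat Lb, if E i' P'' = P' then (if E i' P' = P then w P'' else 0) else 0 := by
          intro P'
          by_cases h : E i' P' = P <;> simp [h]
        rw [Finset.sum_congr rfl (fun P' _ => h2 P'), Finset.sum_comm]
        refine Finset.sum_congr rfl fun P'' _ => ?_
        rw [Finset.sum_ite_eq Finset.univ (E i' P'')]
        simp [E.idem]
      rw [this]
    rw [mul_assoc, ← legSum_smul_right, ← legSum_smul_left]
    rw [show (fun P => (q * y - q⁻¹ * x) * Ψ Lt P (swp Lt i ζ)) =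
      fun P => (q * x - q⁻¹ * y) * v P + (x - y) * eop i v P from funext ht,
      show (fun P => (q * x - q⁻¹ * y) * Ψ Lb P (swp Lb i' ξ)) =
      fun P => (q * y - q⁻¹ * x) * w P + (-(x - y)) * eop i' w P from funext hb]
    simp only [legSum_add_left, legSum_add_right, legSum_smul_left, legSum_smul_right, adj1, idem]
    have hq2 : q⁻¹ = -1 - q := by
      rw [q_inv]; linear_combination q_sq
    rw [hq2]
    ring
  exact mul_left_cancel₀ (mul_ne_zero g0 g1) hmain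

end psi

end H56.EX
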