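import Pool.Agent.H56.EX.TL

/-! Insertion of a small arc at positions `i, i+1`: `ins i : Pat L → Pat (L+2)`. -/

namespace H56.EX

variable {L : ℕ}

/-- position of the old strand `y` after inserting two strands at positions `i, i+1` -/
def phi (L : ℕ) (i y : ℤ) : ℤ := y + 2 * ((y - i) / (L : ℤ) + 1)

/-- inverse of `phi` -/
def psi (L : ℕ) (i x : ℤ) : ℤ := x - 2 * ((x - i) / ((L : ℤ) + 2) + 1)

lemma phi_form (hL : 1 ≤ L) (i a s : ℤ) (h0 : 0 ≤ s) (h1 : s < L) :
    phi L i (i + s + L * a) = i + s + 2 + (L + 2) * a := by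
  unfold phi
  have e : (i + s + L * a - i) / (L : ℤ) = a := by
    rw [show i + s + (L : ℤ) * a - i = s + a * L by ring, Int.add_mul_ediv_right _ _ (by omega),
      Int.ediv_eq_zero_of_lt h0 h1]
    ring
  rw [e]; ring

lemma psi_form (i a r : ℤ) (h0 : 0 ≤ r) (h1 : r < L + 2) :
    psi L i (i + r + (L + 2) * a) = i + r - 2 + L * a := by
  unfold psi
  have e : (i + r + (L + 2) * a - i) / ((L : ℤ) + 2) = a := by
    rw [show i + r + ((L : ℤ) + 2) * a - i = r + a * (L + 2) by ring,
      Int.add_mul_ediv_right _ _ (by omega), Int.ediv_eq_zero_of_lt h0 h1]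
    ring
  rw [e]; ring

lemma exists_form {N : ℤ} (hN : 0 < N) (i x : ℤ) : ∃ a r, 0 ≤ r ∧ r < N ∧ x = i + r + N * a := by
  refine ⟨(x - i) / N, (x - i) % N, Int.emod_nonneg _ (by omega), Int.emod_lt_of_pos _ hN, ?_⟩
  have := Int.emod_add_mul_ediv (x - i) N
  linarith

lemma psi_phi (hL : 1 ≤ L) (i y : ℤ) : psi L i (phi L i y) = y := by
  obtain ⟨a, s, h0, h1, rfl⟩ := exists_form (N := (L : ℤ)) (by omega) i y
  rw [phi_form hL i a s h0 h1, show i + s + 2 + ((L : ℤ) + 2) * a = i + (s + 2) + (L + 2) * a by ring,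
    psi_form i a (s + 2) (by omega) (by omega)]
  ring

lemma dvd_form {N : ℤ} {i a r : ℤ} : N ∣ (i + r + N * a) - i ↔ N ∣ r := by
  constructor
  · intro h
    have : N ∣ (i + r + N * a - i) - N * a := dvd_sub h (Dvd.intro _ rfl)
    have e : i + r + N * a - i - N * a = r := by ring
    rwa [e] at this
  · intro h
    have : N ∣ r + N * a := dvd_add h (Dvd.intro _ rfl)
    have e : i + r + N * a - i = r + N * a := by ring
    rwa [e]

lemma form_zero {r : ℤ} (h0 : 0 ≤ r) (h1 : r < L + 2) (h : ((L + 2 : ℕ) : ℤ) ∣ r) : r = 0 := by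
  push_cast at h
  rcases eq_or_lt_of_le h0 with h2 | h2
  · exact h2.symm
  · exact absurd (Int.le_of_dvd h2 h) (by omega)

lemma phi_psi (hL : 1 ≤ L) {i x : ℤ} (h1 : ¬ Cg (L + 2) x i) (h2 : ¬ Cg (L + 2) x (i + 1)) :
    phi L i (psi L i x) = x := by
  obtain ⟨a, r, g0, g1, rfl⟩ := exists_form (N := ((L : ℤ) + 2)) (by omega) i x
  have hr0 : r ≠ 0 := by
    rintro rfl
    apply h1
    unfold Cg
    push_cast
    have e : i + 0 + ((L : ℤ) + 2) * a - i = (L + 2) * a := by ring
    rw [e]; exact Dvd.intro _ rfl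
  have hr1 : r ≠ 1 := by
    rintro rfl
    apply h2
    unfold Cg
    push_cast
    have e : i + 1 + ((L : ℤ) + 2) * a - (i + 1) = (L + 2) * a := by ring
    rw [e]; exact Dvd.intro _ rfl
  rw [psi_form i a r g0 g1, show i + r - 2 + (L : ℤ) * a = i + (r - 2) + L * a by ring,
    phi_form hL i a (r - 2) (by omega) (by omega)]
  ring

lemma phi_not (hL : 1 ≤ L) (i y : ℤ) :
    ¬ Cg (L + 2) (phi L i y) i ∧ ¬ Cg (L + 2) (phi L i y) (i + 1) := by
  obtain ⟨a, s, h0, h1, rfl⟩ := exists_form (N := (L : ℤ)) (by omega) i y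
  rw [phi_form hL i a s h0 h1]
  constructor
  · intro h
    unfold Cg at h
    have h' : ((L + 2 : ℕ) : ℤ) ∣ s + 2 := by
      have h3 : ((L + 2 : ℕ) : ℤ) ∣ ((L + 2 : ℕ) : ℤ) * a := Dvd.intro _ rfl
      have := dvd_sub h h3
      push_cast at this ⊢
      have e : i + s + 2 + ((L : ℤ) + 2) * a - i - (L + 2) * a = s + 2 := by ring
      rwa [e] at this
    have := Int.le_of_dvd (by omega) h'
    push_cast at this
    omega
  · intro h
    unfold Cg at h
    have h' : ((L + 2 : ℕ) : ℤ) ∣ s + 1 := by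
      have h3 : ((L + 2 : ℕ) : ℤ) ∣ ((L + 2 : ℕ) : ℤ) * a := Dvd.intro _ rfl
      have := dvd_sub h h3
      push_cast at this ⊢
      have e : i + s + 2 + ((L : ℤ) + 2) * a - (i + 1) - (L + 2) * a = s + 1 := by ring
      rwa [e] at this
    have := Int.le_of_dvd (by omega) h'
    push_cast at this
    omega

lemma phi_add_L (hL : 1 ≤ L) (i y : ℤ) : phi L i (y + L) = phi L i y + (L + 2) := by
  unfold phi
  have : (y + L - i) / (L : ℤ) = (y - i) / L + 1 := by
    rw [show y + (L : ℤ) - i = (y - i) + 1 * L by ring, Int.add_mul_ediv_right _ _ (by omega)]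
  rw [this]; ring

lemma phi_mono (hL : 1 ≤ L) {i x y : ℤ} (h : x < y) : phi L i x < phi L i y := by
  unfold phi
  have : (x - i) / (L : ℤ) ≤ (y - i) / L := Int.ediv_le_ediv (by omega) (by omega)
  omega

lemma phi_lt_iff (hL : 1 ≤ L) {i x y : ℤ} : phi L i x < phi L i y ↔ x < y := by
  constructor
  · intro h
    by_contra hc
    rcases eq_or_lt_of_le (not_lt.1 hc) with h1 | h1
    · rw [h1] at h; exact lt_irrefl _ h
    · exact absurd (phi_mono hL (i := i) h1) (by omega)
  · exact phi_mono hL

lemma phi_inj (hL : 1 ≤ L) {i x y : ℤ} (h : phi L i x = phi L i y) : x = y := by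
  rw [← psi_phi hL i x, h, psi_phi hL]

/-- raw insertion -/
def insm (L : ℕ) (i : ℤ) (m : ℤ → ℤ) (x : ℤ) : ℤ :=
  if Cg (L + 2) x i then x + 1
  else if Cg (L + 2) x (i + 1) then x - 1
  else phi L i (m (psi L i x))

lemma insm_i {m : ℤ → ℤ} {i x : ℤ} (h : Cg (L + 2) x i) : insm L i m x = x + 1 := by
  simp only [insm, if_pos h]

lemma insm_succ {m : ℤ → ℤ} {i x : ℤ} (h : Cg (L + 2) x (i + 1)) : insm L i m x = x - 1 := by
  have h' : ¬ Cg (L + 2) x i := fun h' =>
    not_Cg_succ (L := L + 2) (by omega) i (Cg.trans' (Cg.symm' h') h)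
  simp only [insm, if_neg h', if_pos h]

lemma insm_phi (hL : 1 ≤ L) (m : ℤ → ℤ) (i y : ℤ) : insm L i m (phi L i y) = phi L i (m y) := by
  have := phi_not hL i y
  simp only [insm, if_neg this.1, if_neg this.2, psi_phi hL]

/-- every position is `≡ i`, `≡ i+1` or in the image of `phi` -/
lemma pos_cases (hL : 1 ≤ L) (i x : ℤ) :
    Cg (L + 2) x i ∨ Cg (L + 2) x (i + 1) ∨ ∃ y, x = phi L i y := by
  by_cases h1 : Cg (L + 2) x i
  · exact Or.inl h1
  by_cases h2 : Cg (L + 2) x (i + 1)
  · exact Or.inr (Or.inl h2)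
  · exact Or.inr (Or.inr ⟨psi L i x, (phi_psi hL h1 h2).symm⟩)

/-- insertion of a small arc at positions `i, i+1` -/
def ins (i : ℤ) (P : Pat L) : Pat (L + 2) where
  m := insm L i P.m
  inv := fun x => by
    have hL : 1 ≤ L := le_trans (by norm_num) P.two_le
    rcases pos_cases hL i x with h | h | ⟨y, rfl⟩
    · rw [insm_i h, insm_succ (Cg.add 1 h)]; ring
    · rw [insm_succ h, insm_i]
      · ring
      · have := Cg.sub 1 h
        simpa using this
    · rw [insm_phi hL, insm_phi hL, P.inv]
  per := fun x => by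
    have hL : 1 ≤ L := le_trans (by norm_num) P.two_le
    have hd : Cg (L + 2) (x + ((L + 2 : ℕ) : ℤ)) x := by unfold Cg; simp
    rcases pos_cases hL i x with h | h | ⟨y, rfl⟩
    · rw [insm_i h, insm_i (Cg.trans' hd h)]; ring
    · rw [insm_succ h, insm_succ (Cg.trans' hd h)]; ring
    · have e : phi L i y + ((L + 2 : ℕ) : ℤ) = phi L i (y + L) := by
        rw [phi_add_L hL]; push_cast; ring
      rw [e, insm_phi hL, insm_phi hL, P.per, phi_add_L hL]; push_cast; ring
  ne := fun x => by
    have hL : 1 ≤ L := le_trans (by norm_num) P.two_le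
    rcases pos_cases hL i x with h | h | ⟨y, rfl⟩
    · rw [insm_i h]; omega
    · rw [insm_succ h]; omega
    · rw [insm_phi hL]
      intro h
      exact P.ne y (phi_inj hL h)
  short := fun x => by
    have hL : 1 ≤ L := le_trans (by norm_num) P.two_le
    rw [abs_lt]
    rcases pos_cases hL i x with h | h | ⟨y, rfl⟩
    · rw [insm_i h]; push_cast; constructor <;> omega
    · rw [insm_succ h]; push_cast; constructor <;> omega
    · rw [insm_phi hL]
      have h1 := P.short' y
      have h2 : phi L i (P.m y) < phi L i (y + L) := phi_mono hL (by linarith [h1.1])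
      have h3 : phi L i y < phi L i (P.m y + L) := phi_mono hL (by linarith [h1.2])
      rw [phi_add_L hL] at h2 h3
      push_cast
      constructor <;> linarith
  nc := fun x y hxy hyx => by
    have hL : 1 ≤ L := le_trans (by norm_num) P.two_le
    rcases pos_cases hL i x with h | h | ⟨u, rfl⟩
    · rw [insm_i h] at hyx; omega
    · rw [insm_succ h] at hyx; omega
    · rw [insm_phi hL] at hyx ⊢
      rcases pos_cases hL i y with h | h | ⟨v, rfl⟩
      · rw [insm_i h]
        have : phi L i (P.m u) ≠ y + 1 := by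
          intro h'
          apply (phi_not hL i (P.m u)).2
          rw [h']; exact Cg.add 1 h
        omega
      · rw [insm_succ h]
        have : phi L i u ≠ y - 1 := by
          intro h'
          apply (phi_not hL i u).1
          rw [h']
          have := Cg.sub 1 h
          simpa using this
        omega
      · rw [insm_phi hL]
        have := P.nc u v ((phi_lt_iff hL).1 hxy) ((phi_lt_iff hL).1 hyx)
        exact ⟨phi_mono hL this.1, phi_mono hL this.2⟩

lemma ins_i (i : ℤ) (P : Pat L) {x : ℤ} (h : Cg (L + 2) x i) : (ins i P).m x = x + 1 := insm_i h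
lemma ins_succ (i : ℤ) (P : Pat L) {x : ℤ} (h : Cg (L + 2) x (i + 1)) :
    (ins i P).m x = x - 1 := insm_succ h
lemma ins_phi (i : ℤ) (P : Pat L) (y : ℤ) : (ins i P).m (phi L i y) = phi L i (P.m y) :=
  insm_phi (le_trans (by norm_num) P.two_le) P.m i y
lemma ins_self (i : ℤ) (P : Pat L) : (ins i P).m i = i + 1 := ins_i i P (Cg.refl' i)

lemma ins_injective (i : ℤ) : Function.Injective (ins (L := L) i) := by
  intro P Q h
  have hL : 1 ≤ L := le_trans (by norm_num) P.two_le
  apply Pat.ext
  funext y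
  have h1 : (ins i P).m (phi L i y) = (ins i Q).m (phi L i y) := by rw [h]
  rw [ins_phi, ins_phi] at h1
  exact phi_inj hL h1

/-- a pattern with a small arc at `i` comes from a unique smaller pattern -/
lemma exists_ins (hL : 2 ≤ L) (i : ℤ) (P : Pat (L + 2)) (h : P.m i = i + 1) :
    ∃ Q : Pat L, P = ins i Q := by
  have hL1 : 1 ≤ L := by omega
  have hsucc : P.m (i + 1) = i := by
    have := P.inv i
    rwa [h] at this
  have hni : ∀ y, ¬ Cg (L + 2) (P.m (phi L i y)) i ∧ ¬ Cg (L + 2) (P.m (phi L i y)) (i + 1) := by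
    intro y
    have hn := phi_not hL1 i y
    constructor
    · intro h'
      apply hn.2
      have := Cg.m P h'
      rwa [P.inv, h] at this
    · intro h'
      apply hn.1
      have := Cg.m P h'
      rwa [P.inv, hsucc] at this
  have hpp : ∀ y, phi L i (psi L i (P.m (phi L i y))) = P.m (phi L i y) := fun y =>
    phi_psi hL1 (hni y).1 (hni y).2
  refine ⟨{
    m := fun y => psi L i (P.m (phi L i y))
    inv := fun y => by
      show psi L i (P.m (phi L i (psi L i (P.m (phi L i y))))) = y
      rw [hpp, P.inv, psi_phi hL1]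
    per := fun y => by
      apply phi_inj hL1 (i := i)
      show phi L i (psi L i (P.m (phi L i (y + L)))) = phi L i (psi L i (P.m (phi L i y)) + L)
      rw [hpp, phi_add_L hL1, phi_add_L hL1, hpp]
      have := P.per (phi L i y)
      push_cast at this
      exact this
    ne := fun y h' => by
      have h2 : phi L i (psi L i (P.m (phi L i y))) = phi L i y := by rw [h']
      rw [hpp] at h2
      exact P.ne _ h2
    short := fun y => by
      have h1 := P.short' (phi L i y)
      push_cast at h1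
      rw [abs_lt]
      constructor
      · have h2 : phi L i y < phi L i (psi L i (P.m (phi L i y)) + L) := by
          rw [phi_add_L hL1, hpp]; linarith [h1.2]
        have := (phi_lt_iff hL1).1 h2
        linarith
      · have h2 : phi L i (psi L i (P.m (phi L i y))) < phi L i (y + L) := by
          rw [phi_add_L hL1, hpp]; linarith [h1.1]
        have := (phi_lt_iff hL1).1 h2
        linarith
    nc := fun x y h1 h2 => by
      have g1 : phi L i x < phi L i y := phi_mono hL1 h1
      have g2 : phi L i y < P.m (phi L i x) := by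
        rw [← hpp x]; exact phi_mono hL1 h2
      have := P.nc _ _ g1 g2
      constructor
      · apply (phi_lt_iff hL1 (i := i)).1
        rw [hpp]; exact this.1
      · apply (phi_lt_iff hL1 (i := i)).1
        rw [hpp, hpp]; exact this.2 }, ?_⟩
  apply Pat.ext
  funext x
  rcases pos_cases hL1 i x with h' | h' | ⟨y, rfl⟩
  · rw [ins_i _ _ h']
    have h2 : P.m x = P.m i + (x - i) := P.per_dvd h'
    rw [h2, h]; ring
  · rw [ins_succ _ _ h']
    have h2 : P.m x = P.m (i + 1) + (x - (i + 1)) := P.per_dvd h'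
    rw [h2, hsucc]; ring
  · rw [ins_phi]
    exact (hpp y).symm

end H56.EX
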