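import Pool.Agent.H56.EX.Alg

/-! Main theorem: the explicit leg functions. -/

namespace H56.EX

open Finset Pool.Agent.H96.EX

/-- a generic set of parameters -/
structure GG (M : ℕ) (x y w : ℂ) (z : ℕ → ℂ) : Prop where
  gz : Gen M z
  x0 : x ≠ 0
  y0 : y ≠ 0
  w0 : w ≠ 0
  xy : Cub x y
  xw : Cub x w
  yw : Cub y w
  xz : ∀ j, j < M → Cub x (z j)
  yz : ∀ j, j < M → Cub y (z j)
  wz : ∀ j, j < M → Cub w (z j)

lemma swap_lt {M j k : ℕ} (hj : j + 1 < M) (hk : k < M) : Equiv.swap j (j + 1) k < M := by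
  by_cases h1 : k = j
  · subst h1; simp; omega
  by_cases h2 : k = j + 1
  · subst h2; simp; omega
  rw [Equiv.swap_apply_of_ne_of_ne h1 h2]; exact hk

lemma GG.swap {M : ℕ} {x y w : ℂ} {z : ℕ → ℂ} (h : GG M x y w z) (j : ℕ) (hj : j + 1 < M) :
    GG M x y w (z ∘ Equiv.swap j (j + 1)) :=
  ⟨h.gz.swap j hj, h.x0, h.y0, h.w0, h.xy, h.xw, h.yw, fun _ hk => h.xz _ (swap_lt hj hk),
    fun _ hk => h.yz _ (swap_lt hj hk), fun _ hk => h.wz _ (swap_lt hj hk)⟩

lemma GG.mvf {M : ℕ} {x y w : ℂ} : ∀ (j : ℕ) (_ : j < M) (z : ℕ → ℂ), GG M x y w z →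
    GG M x y w (mvf j z) := by
  intro j
  induction j with
  | zero => intro _ z hz; rw [mvf_zero]; exact hz
  | succ j ih =>
    intro hj z hz
    rw [mvf_succ]
    exact ih (by omega) _ (hz.swap j hj)

lemma Gen.shift {M : ℕ} {z : ℕ → ℂ} (h : Gen (M + 1) z) : Gen M (fun n => z (n + 1)) :=
  ⟨fun j hj => h.1 _ (by omega), fun j k hj hk hjk => h.2 _ _ (by omega) (by omega) (by omega)⟩

lemma Gen.mono {M : ℕ} {z : ℕ → ℂ} (h : Gen (M + 1) z) : Gen M z :=
  ⟨fun j hj => h.1 _ (by omega), fun j k hj hk hjk => h.2 _ _ (by omega) (by omega) (by omega)⟩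

lemma GG.shift {M : ℕ} {x y w : ℂ} {z : ℕ → ℂ} (h : GG (M + 1) x y w z) :
    GG M x y w (fun n => z (n + 1)) :=
  ⟨h.gz.shift, h.x0, h.y0, h.w0, h.xy, h.xw, h.yw, fun _ hk => h.xz _ (by omega),
    fun _ hk => h.yz _ (by omega), fun _ hk => h.wz _ (by omega)⟩

lemma GG.last13 {M : ℕ} {x y w : ℂ} {z : ℕ → ℂ} (h : GG (M + 1) x y w z) :
    GG M x (z M) y z :=
  ⟨h.gz.mono, h.x0, h.gz.1 M (by omega), h.y0, h.xz M (by omega), h.xy,
    (h.yz M (by omega)).symm, fun _ hk => h.xz _ (by omega),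
    fun j hk => h.gz.2 M j (by omega) (by omega) (by omega), fun _ hk => h.yz _ (by omega)⟩

lemma GG.last22 {M : ℕ} {x y w : ℂ} {z : ℕ → ℂ} (h : GG (M + 1) x y w z) :
    GG M (z M) y w z :=
  ⟨h.gz.mono, h.gz.1 M (by omega), h.y0, h.w0, (h.yz M (by omega)).symm,
    (h.wz M (by omega)).symm, h.yw, fun j hk => h.gz.2 M j (by omega) (by omega) (by omega),
    fun _ hk => h.yz _ (by omega), fun _ hk => h.wz _ (by omega)⟩

lemma range_map_swap {M j : ℕ} (hj : j + 1 < M) :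
    (range M).map (Equiv.swap j (j + 1)).toEmbedding = range M := by
  ext x
  simp only [mem_map, mem_range, Equiv.coe_toEmbedding]
  constructor
  · rintro ⟨k, hk, rfl⟩
    exact swap_lt hj hk
  · intro hx
    exact ⟨Equiv.swap j (j + 1) x, swap_lt hj hx, by simp⟩

lemma prod_swap {M j : ℕ} (hj : j + 1 < M) (z : ℕ → ℂ) :
    ∏ k ∈ range M, (z ∘ Equiv.swap j (j + 1)) k = ∏ k ∈ range M, z k := by
  conv_rhs => rw [← range_map_swap hj, Finset.prod_map]
  rfl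

lemma R22_mvf (M : ℕ) (a0 a1 b0 b1 : ℂ) (z : ℕ → ℂ) (hz : Gen M z) (j : ℕ) (hj : j < M) :
    R22 M a0 a1 b0 b1 (mvf j z) = R22 M a0 a1 b0 b1 z :=
  inv_mvf (R22 M a0 a1 b0 b1) (fun z _ j hj => by
    unfold R22
    rw [TM_swap _ _ _ _ hj, prod_swap hj]) j hj z hz

lemma R13_mvf (M : ℕ) (a b0 b1 b2 : ℂ) (z : ℕ → ℂ) (hz : Gen M z) (j : ℕ) (hj : j < M) :
    R13 M a b0 b1 b2 (mvf j z) = R13 M a b0 b1 b2 z :=
  inv_mvf (R13 M a b0 b1 b2) (fun z _ j hj => by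
    unfold R13
    rw [TM_swap _ _ _ _ hj, prod_swap hj]) j hj z hz

lemma R22_swap_a (M : ℕ) (a0 a1 b0 b1 : ℂ) (z : ℕ → ℂ) :
    (q * a1 - q⁻¹ * a0) * R22 M a1 a0 b0 b1 z = (q * a0 - q⁻¹ * a1) * R22 M a0 a1 b0 b1 z := by
  unfold R22
  rw [TM_perm (c := [a0, a1, b0, b1]) (c' := [a1, a0, b0, b1]) (List.Perm.swap _ _ _)]
  ring

lemma R13_swap_b01 (M : ℕ) (a b0 b1 b2 : ℂ) (z : ℕ → ℂ) (h0 : b0 ≠ 0) (h1 : b1 ≠ 0) :
    (q * b1⁻¹ - q⁻¹ * b0⁻¹) * R13 M a b1 b0 b2 z =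
      (q * b0⁻¹ - q⁻¹ * b1⁻¹) * R13 M a b0 b1 b2 z := by
  have e1 : (q * b1⁻¹ - q⁻¹ * b0⁻¹) = (q * b0 - q⁻¹ * b1) / (b0 * b1) := by
    have hq0 := q_ne_zero
    field_simp
  have e2 : (q * b0⁻¹ - q⁻¹ * b1⁻¹) = (q * b1 - q⁻¹ * b0) / (b0 * b1) := by
    have hq0 := q_ne_zero
    field_simp
  unfold R13
  rw [TM_perm (c := [b2, a, b1, b0]) (c' := [b2, a, b0, b1])
    (by
      rw [List.perm_iff_count]
      intro x
      simp only [List.count_cons, List.count_nil]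
      ring), e1, e2, show b1 * b0 * b2 = b0 * b1 * b2 by ring]
  ring

lemma R13_swap_b12 (M : ℕ) (a b0 b1 b2 : ℂ) (z : ℕ → ℂ) (h1 : b1 ≠ 0) (h2 : b2 ≠ 0) :
    (q * b2⁻¹ - q⁻¹ * b1⁻¹) * R13 M a b0 b2 b1 z =
      (q * b1⁻¹ - q⁻¹ * b2⁻¹) * R13 M a b0 b1 b2 z := by
  have e1 : (q * b2⁻¹ - q⁻¹ * b1⁻¹) = (q * b1 - q⁻¹ * b2) / (b1 * b2) := by
    have hq0 := q_ne_zero
    field_simp
  have e2 : (q * b1⁻¹ - q⁻¹ * b2⁻¹) = (q * b2 - q⁻¹ * b1) / (b1 * b2) := by
    have hq0 := q_ne_zero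
    field_simp
  unfold R13
  rw [TM_perm (c := [b1, a, b0, b2]) (c' := [b2, a, b0, b1])
    (by
      rw [List.perm_iff_count]
      intro x
      simp only [List.count_cons, List.count_nil]
      ring), e1, e2, show b0 * b2 * b1 = b0 * b1 * b2 by ring]
  ring

open Polynomial in
/-- `R22` is polynomial in the last top leg -/
lemma R22_poly (M : ℕ) (a0 b0 b1 : ℂ) (z : ℕ → ℂ) :
    ∃ p : Polynomial ℂ, p.natDegree ≤ M + 1 ∧ ∀ t, R22 M a0 t b0 b1 z = p.eval t := by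
  obtain ⟨p, hp, he⟩ := TM_poly M [a0, b0, b1] z
  refine ⟨C (-(q * b0 - q⁻¹ * b1) / (3 ^ (ee M) * (b0 * b1 * ∏ k ∈ range M, z k) ^ (M + 1))) *
    ((C q * X - C (q⁻¹ * a0)) * p), ?_, fun t => ?_⟩
  · refine (natDegree_C_mul_le _ _).trans ?_
    refine natDegree_mul_le.trans ?_
    have h1 : (C q * X - C (q⁻¹ * a0)).natDegree ≤ 1 := by
      refine (natDegree_sub_le _ _).trans ?_
      rw [natDegree_C]
      refine max_le ((natDegree_C_mul_le _ _).trans natDegree_X_le) (Nat.zero_le _)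
    omega
  · unfold R22
    rw [he]
    simp only [eval_mul, eval_C, eval_sub, eval_X]
    ring

open Polynomial in
/-- `R13` is polynomial in the last bottom leg, up to a power -/
lemma R13_poly (M : ℕ) (a b0 b1 : ℂ) (z : ℕ → ℂ) :
    ∃ p : Polynomial ℂ, p.natDegree ≤ M + 2 ∧
      ∀ t, t ≠ 0 → t ^ (M + 2) * R13 M a b0 b1 t z = p.eval t := by
  obtain ⟨p, hp, he⟩ := TM_poly M [a, b0, b1] z
  refine ⟨C (-((q ^ 2 - q) * (q * b0 - q⁻¹ * b1)) /
      (3 ^ (ee M + 1) * (b0 * b1 * ∏ k ∈ range M, z k) ^ (M + 2))) *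
    ((C (-q⁻¹) * X + C (q * b0)) * ((C (-q⁻¹) * X + C (q * b1)) * p)), ?_, fun t ht => ?_⟩
  · refine (natDegree_C_mul_le _ _).trans ?_
    have h1 : ∀ c : ℂ, (C (-q⁻¹) * X + C c).natDegree ≤ 1 := by
      intro c
      refine (natDegree_add_le _ _).trans ?_
      rw [natDegree_C]
      refine max_le ((natDegree_C_mul_le _ _).trans natDegree_X_le) (Nat.zero_le _)
    have h2 := h1 (q * b0)
    have h3 := h1 (q * b1)
    refine natDegree_mul_le.trans ?_
    have h4 : ((C (-q⁻¹) * X + C (q * b1)) * p).natDegree ≤ 1 + M :=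
      natDegree_mul_le.trans (by omega)
    omega
  · unfold R13
    rw [he]
    simp only [eval_mul, eval_C, eval_add, eval_X]
    rw [show b0 * b1 * t * ∏ k ∈ range M, z k = (b0 * b1 * ∏ k ∈ range M, z k) * t by ring,
      mul_pow]
    have ht' : t ^ (M + 2) ≠ 0 := pow_ne_zero _ ht
    rw [mul_div_assoc', show (3 : ℂ) ^ (ee M + 1) * ((b0 * b1 * ∏ k ∈ range M, z k) ^ (M + 2) *
      t ^ (M + 2)) = t ^ (M + 2) * (3 ^ (ee M + 1) * (b0 * b1 * ∏ k ∈ range M, z k) ^ (M + 2))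
      by ring, mul_div_mul_left _ _ ht']
    ring

lemma q2_ne_q : q ^ 2 ≠ q := by
  intro h
  have : q * (q - 1) = 0 := by linear_combination h
  rcases mul_eq_zero.1 this with h1 | h1
  · exact q_ne_zero h1
  · exact q_ne_one (sub_eq_zero.1 h1)

lemma q_cancel {x y : ℂ} (h : q * x = q ^ 2 * y) : x = q * y := by
  have : q * (x - q * y) = 0 := by linear_combination h
  rcases mul_eq_zero.1 this with h1 | h1
  · exact absurd h1 q_ne_zero
  · exact sub_eq_zero.1 h1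

lemma q_cancel1 {x y : ℂ} (h : q * x = q * y) : x = y := mul_left_cancel₀ q_ne_zero h

lemma q_cancel2 {x y : ℂ} (h : q ^ 2 * x = q ^ 2 * y) : x = y :=
  mul_left_cancel₀ (pow_ne_zero _ q_ne_zero) h

lemma R22_zero_q (M : ℕ) (a0 b0 b1 : ℂ) (z : ℕ → ℂ) : R22 M a0 (q * a0) b0 b1 z = 0 := by
  unfold R22
  have h1 : q * (q * a0) - q⁻¹ * a0 = 0 := by rw [q_inv]; ring
  rw [h1]
  simp

lemma R13_zero_b12 (M : ℕ) (a b0 b1 : ℂ) (z : ℕ → ℂ) : R13 M a b0 b1 (q ^ 2 * b1) z = 0 := by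
  unfold R13
  have h1 : q * b1 - q⁻¹ * (q ^ 2 * b1) = 0 := by
    rw [q_inv]; linear_combination (-q * b1) * q_cube
  rw [h1]
  simp

lemma R13_zero_b02 (M : ℕ) (a b0 b1 : ℂ) (z : ℕ → ℂ) : R13 M a b0 b1 (q ^ 2 * b0) z = 0 := by
  unfold R13
  have h1 : q * b0 - q⁻¹ * (q ^ 2 * b0) = 0 := by
    rw [q_inv]; linear_combination (-q * b0) * q_cube
  rw [h1]
  simp

lemma Cub.g_inv {x y : ℂ} (hx : x ≠ 0) (hy : y ≠ 0) (h : Cub x y) :
    q * x⁻¹ - q⁻¹ * y⁻¹ ≠ 0 := by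
  have e : q * x⁻¹ - q⁻¹ * y⁻¹ = (q * y - q⁻¹ * x) / (x * y) := by
    have hq0 := q_ne_zero
    field_simp
  rw [e]
  exact div_ne_zero h.symm.g (mul_ne_zero hx hy)

section psi

variable {Ψ : ∀ L : ℕ, Pat L → (ℤ → ℂ) → ℂ} (hΨ : PsiProps Ψ)

include hΨ

lemma F22_zero_q (M : ℕ) (a0 b0 b1 : ℂ) (z : ℕ → ℂ) (ha : a0 ≠ 0) :
    F22 Ψ M a0 (q * a0) b0 b1 z = 0 := by
  have h := F22_swap_a hΨ M a0 (q * a0) b0 b1 z
  have h1 : q * (q * a0) - q⁻¹ * a0 = 0 := by rw [q_inv]; ring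
  have h2 : q * a0 - q⁻¹ * (q * a0) ≠ 0 := by
    rw [← mul_assoc, inv_mul_cancel₀ q_ne_zero]
    intro h
    have : (q - 1) * a0 = 0 := by linear_combination h
    rcases mul_eq_zero.1 this with h3 | h3
    · exact q_ne_one (sub_eq_zero.1 h3)
    · exact ha h3
  rw [h1, zero_mul] at h
  exact (mul_eq_zero.1 h.symm).resolve_left h2

lemma F13_zero_b12 (M : ℕ) (a b0 b1 : ℂ) (z : ℕ → ℂ) (hb : b1 ≠ 0) :
    F13 Ψ M a b0 b1 (q ^ 2 * b1) z = 0 := by
  have h := F13_swap_b12 hΨ M a b0 b1 (q ^ 2 * b1) z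
  have hq := q_ne_zero
  have h1 : q * (q ^ 2 * b1)⁻¹ - q⁻¹ * b1⁻¹ = 0 := by
    field_simp
    ring
  have h2 : q * b1⁻¹ - q⁻¹ * (q ^ 2 * b1)⁻¹ ≠ 0 := by
    intro h
    field_simp at h
    have h4 : q = 1 := by linear_combination h - q * q_cube
    exact q_ne_one h4
  rw [h1, zero_mul] at h
  exact (mul_eq_zero.1 h.symm).resolve_left h2

lemma F13_zero_b02 (M : ℕ) (a b0 b1 : ℂ) (z : ℕ → ℂ) (hb : b0 ≠ 0)
    (hc : q * b0⁻¹ - q⁻¹ * b1⁻¹ ≠ 0) :
    F13 Ψ M a b0 b1 (q ^ 2 * b0) z = 0 := by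
  have h := F13_swap_b01 hΨ M a b0 b1 (q ^ 2 * b0) z
  rw [F13_zero_b12 hΨ M a b1 b0 z hb, mul_zero] at h
  exact (mul_eq_zero.1 h.symm).resolve_left hc

variable (hT : LegTop)

include hT

/-- the statement for F22 -/
def P22 (Ψ : ∀ L : ℕ, Pat L → (ℤ → ℂ) → ℂ) (M : ℕ) : Prop :=
  ∀ (a0 b0 b1 : ℂ) (z : ℕ → ℂ), GG M a0 b0 b1 z → ∀ a1, F22 Ψ M a0 a1 b0 b1 z = R22 M a0 a1 b0 b1 z

/-- the statement for F13 -/
def P13 (Ψ : ∀ L : ℕ, Pat L → (ℤ → ℂ) → ℂ) (M : ℕ) : Prop :=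
  ∀ (a b0 b1 : ℂ) (z : ℕ → ℂ), GG M a b0 b1 z → ∀ b2, b2 ≠ 0 →
    F13 Ψ M a b0 b1 b2 z = R13 M a b0 b1 b2 z

theorem stepA (M : ℕ) (hM : 1 ≤ M) (ih : P13 Ψ M) : P22 Ψ (M + 1) := by
  intro a0 b0 b1 z hz a1
  obtain ⟨p, hp, hpe⟩ := F22_poly hΨ (M + 1) a0 b0 b1 z
  obtain ⟨r, hr, hre⟩ := R22_poly (M + 1) a0 b0 b1 z
  have hzM : z M ≠ 0 := hz.gz.1 M (by omega)
  have key : p = r := by
    apply Polynomial.eq_of_natDegree_lt_card_of_eval_eq p r
      (f := Sum.elim (fun j : Fin (M + 1) => q ^ 2 * z j) ![q * a0, q * z M])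
    · apply Function.Injective.sumElim
      · intro j k hjk
        by_contra hne
        have hne' : (j : ℕ) ≠ k := fun h => hne (Fin.ext h)
        exact (hz.gz.2 j k j.2 k.2 hne').ne1 (q_cancel2 hjk)
      · intro i j hij
        fin_cases i <;> fin_cases j
        · rfl
        · exact absurd (q_cancel1 hij) (hz.xz M (by omega)).ne1
        · exact absurd (q_cancel1 hij).symm (hz.xz M (by omega)).ne1
        · rfl
      · intro j i
        fin_cases i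
        · intro h
          exact (hz.xz j j.2).neq (q_cancel h.symm)
        · intro h
          have h1 : z M = q * z j := q_cancel h.symm
          by_cases hj : (j : ℕ) = M
          · rw [hj] at h1
            have : (q - 1) * z M = 0 := by linear_combination -h1
            rcases mul_eq_zero.1 this with h3 | h3
            · exact q_ne_one (sub_eq_zero.1 h3)
            · exact hzM h3
          · exact (hz.gz.2 M j (by omega) j.2 (Ne.symm hj)).neq h1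
    · intro i
      rcases i with j | i
      · -- the points q² z_j
        show p.eval (q ^ 2 * z j) = r.eval (q ^ 2 * z j)
        rw [← hpe, ← hre, ← F22_mvf hΨ hT (M + 1) _ _ _ _ z hz.gz j j.2,
          ← R22_mvf (M + 1) _ _ _ _ z hz.gz j j.2]
        have hm := hz.mvf j j.2
        have h0 : mvf j z 0 = z j := mvf_head j z
        rw [← h0, F22_rec_right hΨ hT M hM a0 b0 b1 (mvf j z),
          R22_right M a0 b0 b1 (mvf j z) hm.gz hz.y0 hz.w0,
          ih a0 b0 b1 _ hm.shift _ (by rw [h0]; exact hz.gz.1 j j.2)]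
      · fin_cases i
        · show p.eval (q * a0) = r.eval (q * a0)
          rw [← hpe, ← hre, F22_zero_q hΨ _ _ _ _ _ hz.x0, R22_zero_q]
        · show p.eval (q * z M) = r.eval (q * z M)
          rw [← hpe, ← hre]
          have e1 := F22_swap_a hΨ (M + 1) a0 (q * z M) b0 b1 z
          have e2 := R22_swap_a (M + 1) a0 (q * z M) b0 b1 z
          have hc : q * a0 - q⁻¹ * (q * z M) ≠ 0 := ((hz.xz M (by omega)).symm.qmul).symm.g
          have e3 : F22 Ψ (M + 1) (q * z M) a0 b0 b1 z = R22 (M + 1) (q * z M) a0 b0 b1 z := by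
            rw [F22_rec_left hΨ hT M hM (q * z M) a0 b0 b1 z
              (by linear_combination (-(z M)) * q_cube),
              R22_left M a0 b0 b1 z hz.gz hz.y0 hz.w0,
              ih a0 (z M) b0 z hz.last13 b1 hz.w0]
          rw [e3, e2] at e1
          exact (mul_left_cancel₀ hc e1).symm
    · simp only [Fintype.card_sum, Fintype.card_fin]
      rw [max_lt_iff]
      omega
  rw [hpe, key, hre]

theorem stepB (M : ℕ) (ih : P22 Ψ M) : P13 Ψ (M + 1) := by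
  intro a b0 b1 z hz b2 hb2
  obtain ⟨p, hp, hpe⟩ := F13_poly hΨ (M + 1) a b0 b1 z
  obtain ⟨r, hr, hre⟩ := R13_poly (M + 1) a b0 b1 z
  have hzM : z M ≠ 0 := hz.gz.1 M (by omega)
  set p' := Polynomial.reflect (M + 1 + 2) p with hp'
  have hpe' : ∀ t, t ≠ 0 → t ^ (M + 1 + 2) * F13 Ψ (M + 1) a b0 b1 t z = p'.eval t := by
    intro t ht
    have h1 := hpe t⁻¹
    rw [inv_inv] at h1
    rw [h1]
    let _ : Invertible t := invertibleOfNonzero ht
    let _ : Invertible t⁻¹ := invertibleOfNonzero (inv_ne_zero ht)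
    have h2 := Polynomial.eval₂_reflect_mul_pow (RingHom.id ℂ) t⁻¹ (M + 1 + 2) p (by omega)
    simp only [invOf_eq_inv, inv_inv, Polynomial.eval₂_id] at h2
    rw [hp', ← h2, inv_pow]
    have : t ^ (M + 1 + 2) ≠ 0 := pow_ne_zero _ ht
    field_simp
  have hpd : p'.natDegree ≤ M + 1 + 2 := by
    rw [hp']
    exact (Polynomial.natDegree_reflect_le).trans (max_le le_rfl hp)
  have hcan : ∀ t, t ≠ 0 → (p'.eval t = r.eval t ↔
      F13 Ψ (M + 1) a b0 b1 t z = R13 (M + 1) a b0 b1 t z) := by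
    intro t ht
    rw [← hpe' t ht, ← hre t ht]
    exact ⟨fun h => mul_left_cancel₀ (pow_ne_zero _ ht) h, fun h => by rw [h]⟩
  have hq := q_ne_zero
  have key : p' = r := by
    apply Polynomial.eq_of_natDegree_lt_card_of_eval_eq p' r
      (f := Sum.elim (fun j : Fin (M + 1) => q * z j) ![q ^ 2 * b0, q ^ 2 * b1, q ^ 2 * z M])
    · apply Function.Injective.sumElim
      · intro j k hjk
        by_contra hne
        have hne' : (j : ℕ) ≠ k := fun h => hne (Fin.ext h)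
        exact (hz.gz.2 j k j.2 k.2 hne').ne1 (q_cancel1 hjk)
      · intro i j hij
        fin_cases i <;> fin_cases j
        · rfl
        · exact absurd (q_cancel2 hij) hz.yw.ne1
        · exact absurd (q_cancel2 hij) (hz.yz M (by omega)).ne1
        · exact absurd (q_cancel2 hij).symm hz.yw.ne1
        · rfl
        · exact absurd (q_cancel2 hij) (hz.wz M (by omega)).ne1
        · exact absurd (q_cancel2 hij).symm (hz.yz M (by omega)).ne1
        · exact absurd (q_cancel2 hij).symm (hz.wz M (by omega)).ne1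
        · rfl
      · intro j i
        fin_cases i
        · intro h
          exact (hz.yz j j.2).symm.neq (q_cancel h)
        · intro h
          exact (hz.wz j j.2).symm.neq (q_cancel h)
        · intro h
          have h1 : z j = q * z M := q_cancel h
          by_cases hj : (j : ℕ) = M
          · rw [hj] at h1
            have : (q - 1) * z M = 0 := by linear_combination -h1
            rcases mul_eq_zero.1 this with h3 | h3
            · exact q_ne_one (sub_eq_zero.1 h3)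
            · exact hzM h3
          · exact (hz.gz.2 j M j.2 (by omega) hj).neq h1
    · intro i
      rcases i with j | i
      · -- the points q z_j
        have hzj := hz.gz.1 j j.2
        show p'.eval (q * z j) = r.eval (q * z j)
        rw [hcan _ (mul_ne_zero hq hzj), ← F13_mvf hΨ hT (M + 1) _ _ _ _ z hz.gz j j.2,
          ← R13_mvf (M + 1) _ _ _ _ z hz.gz j j.2]
        have hm := hz.mvf j j.2
        have h0 : mvf j z 0 = z j := mvf_head j z
        rw [← h0, F13_rec_right hΨ hT M a b0 b1 (mvf j z),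
          R13_right M a b0 b1 (mvf j z) hm.gz hz.y0 hz.w0, ih a b0 b1 _ hm.shift _]
      · fin_cases i
        · show p'.eval (q ^ 2 * b0) = r.eval (q ^ 2 * b0)
          rw [hcan _ (mul_ne_zero (pow_ne_zero _ hq) hz.y0), R13_zero_b02,
            F13_zero_b02 hΨ _ _ _ _ _ hz.y0 (Cub.g_inv hz.y0 hz.w0 hz.yw)]
        · show p'.eval (q ^ 2 * b1) = r.eval (q ^ 2 * b1)
          rw [hcan _ (mul_ne_zero (pow_ne_zero _ hq) hz.w0), R13_zero_b12,
            F13_zero_b12 hΨ _ _ _ _ _ hz.w0]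
        · show p'.eval (q ^ 2 * z M) = r.eval (q ^ 2 * z M)
          have hx0 : q ^ 2 * z M ≠ 0 := mul_ne_zero (pow_ne_zero _ hq) hzM
          rw [hcan _ hx0]
          have e1 := F13_swap_b12 hΨ (M + 1) a b0 b1 (q ^ 2 * z M) z
          have e2 := F13_swap_b01 hΨ (M + 1) a b0 (q ^ 2 * z M) b1 z
          have f1 := R13_swap_b12 (M + 1) a b0 b1 (q ^ 2 * z M) z hz.w0 hx0
          have f2 := R13_swap_b01 (M + 1) a b0 (q ^ 2 * z M) b1 z hz.y0 hx0
          have hc1 : q * b1⁻¹ - q⁻¹ * (q ^ 2 * z M)⁻¹ ≠ 0 :=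
            Cub.g_inv hz.w0 hx0 ((hz.wz M (by omega)).symm.q2mul).symm
          have hc2 : q * b0⁻¹ - q⁻¹ * (q ^ 2 * z M)⁻¹ ≠ 0 :=
            Cub.g_inv hz.y0 hx0 ((hz.yz M (by omega)).symm.q2mul).symm
          have e3 : F13 Ψ (M + 1) a (q ^ 2 * z M) b0 b1 z =
              R13 (M + 1) a (q ^ 2 * z M) b0 b1 z := by
            rw [F13_rec_left hΨ hT M a (q ^ 2 * z M) b0 b1 z rfl,
              R13_left M a b0 b1 z hz.gz hz.y0 hz.w0, ih (z M) b0 b1 z hz.last22 a]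
          rw [e3, f2] at e2
          have e4 := mul_left_cancel₀ hc2 e2
          rw [← e4, f1] at e1
          exact (mul_left_cancel₀ hc1 e1).symm
    · simp only [Fintype.card_sum, Fintype.card_fin]
      rw [max_lt_iff]
      omega
  rw [← hcan b2 hb2, key]

theorem P22_P13 (n : ℕ) : P22 Ψ (2 * n) ∧ P13 Ψ (2 * n + 1) := by
  induction n with
  | zero =>
    have h : P22 Ψ 0 := by
      intro a0 b0 b1 z hz a1
      rw [F22_zero hΨ a0 a1 b0 b1 z hz.y0 hz.w0]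
      unfold R22
      rw [TM_zero]
      simp only [ee, pow_one, range_zero, prod_empty]
      have h0 := hz.y0
      have h1 := hz.w0
      field_simp
      ring
    exact ⟨h, stepB hΨ hT 0 h⟩
  | succ n ih =>
    have h : P22 Ψ (2 * n + 1 + 1) := stepA hΨ hT (2 * n + 1) (by omega) ih.2
    exact ⟨h, stepB hΨ hT _ h⟩

/-- the (2,2) leg function -/
theorem F22_eq (M : ℕ) (hM : Even M) (a0 a1 b0 b1 : ℂ) (z : ℕ → ℂ) (h : GG M a0 b0 b1 z) :
    F22 Ψ M a0 a1 b0 b1 z = R22 M a0 a1 b0 b1 z := by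
  obtain ⟨n, hn⟩ := hM
  have : M = 2 * n := by omega
  subst this
  exact (P22_P13 hΨ hT n).1 a0 b0 b1 z h a1

/-- the (1,3) leg function -/
theorem F13_eq (M : ℕ) (hM : Odd M) (a b0 b1 b2 : ℂ) (z : ℕ → ℂ) (h : GG M a b0 b1 z)
    (h2 : b2 ≠ 0) : F13 Ψ M a b0 b1 b2 z = R13 M a b0 b1 b2 z := by
  obtain ⟨n, rfl⟩ := hM
  exact (P22_P13 hΨ hT n).2 a b0 b1 z h b2 h2

end psi

end H56.EX
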