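import Mathlib

/-! Link patterns on the half infinite cylinder (punctured disc), as involutions on the universal cover,
and the periodic Temperley-Lieb moves `e_i` (contractible and noncontractible loops are dropped). -/

namespace H56.EX

/-- Link patterns of the half infinite cylinder with `L` boundary points, on the universal cover `ℤ`. -/
@[ext] structure Pat (L : ℕ) where
  m : ℤ → ℤ
  inv : ∀ x, m (m x) = x
  per : ∀ x, m (x + L) = m x + L
  ne : ∀ x, m x ≠ x
  short : ∀ x, |m x - x| < L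
  nc : ∀ x y, x < y → y < m x → x < m y ∧ m y < m x

/-- The raw Temperley-Lieb move. -/
def tl (L : ℕ) (i : ℤ) (m : ℤ → ℤ) (x : ℤ) : ℤ :=
  if (L : ℤ) ∣ x - i then x + 1
  else if (L : ℤ) ∣ x - (i + 1) then x - 1
  else if (L : ℤ) ∣ m x - i then m (m x + 1)
  else if (L : ℤ) ∣ m x - (i + 1) then m (m x - 1)
  else m x

lemma dvd_cases {L : ℕ} {t : ℤ} (h : (L : ℤ) ∣ t) : t = 0 ∨ (L : ℤ) ≤ t ∨ t ≤ -(L : ℤ) := by
  obtain ⟨a, rfl⟩ := h
  rcases lt_trichotomy a 0 with ha | ha | ha
  · right; right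
    have : (0 : ℤ) ≤ L := Int.natCast_nonneg L
    nlinarith
  · left; simp [ha]
  · right; left
    have : (0 : ℤ) ≤ L := Int.natCast_nonneg L
    nlinarith

namespace Pat

variable {L : ℕ} (P : Pat L)

lemma per_mul (x a : ℤ) : P.m (x + L * a) = P.m x + L * a := by
  induction a using Int.induction_on with
  | zero => simp
  | succ a ih =>
    have := P.per (x + L * a)
    rw [show x + (L : ℤ) * (a + 1) = x + L * a + L by ring, this, ih]; ring
  | pred a ih =>
    have := P.per (x + L * (-a - 1))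
    rw [show x + (L : ℤ) * (-a - 1) + L = x + L * (-a) by ring, ih] at this
    linarith

lemma per_dvd {x y : ℤ} (h : (L : ℤ) ∣ y - x) : P.m y = P.m x + (y - x) := by
  obtain ⟨a, ha⟩ := h
  have : y = x + L * a := by linarith
  rw [this, P.per_mul]; ring

lemma inj {x y : ℤ} (h : P.m x = P.m y) : x = y := by
  rw [← P.inv x, h, P.inv]

lemma short' (x : ℤ) : P.m x - x < L ∧ x - P.m x < L := by
  have := P.short x; rw [abs_lt] at this; constructor <;> linarith [this.1, this.2]

/-- `m x` is never congruent to `x`. -/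
lemma not_dvd_self (x : ℤ) : ¬ (L : ℤ) ∣ P.m x - x := by
  intro h
  have h1 := P.short' x
  rcases dvd_cases h with h | h | h
  · exact P.ne x (by linarith)
  · linarith [h1.1]
  · linarith [h1.2]

lemma two_le (P : Pat L) : 2 ≤ L := by
  have h := P.short' 0
  have h2 := P.ne 0
  rcases lt_trichotomy (P.m 0) 0 with h3 | h3 | h3
  · have : (1 : ℤ) < L := by linarith [h.2]
    omega
  · exact absurd h3 h2
  · have : (1 : ℤ) < L := by linarith [h.1]
    omega

end Pat

section closure

variable {L : ℕ} (P : Pat L) (i : ℤ)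

lemma not_both (h2 : 2 ≤ L) {x i : ℤ} (h : (L : ℤ) ∣ x - i) : ¬ (L : ℤ) ∣ x - (i + 1) := by
  intro h'
  have : (L : ℤ) ∣ 1 := by
    have := dvd_sub h h'
    have e : x - i - (x - (i + 1)) = 1 := by ring
    rwa [e] at this
  have := Int.le_of_dvd (by norm_num) this
  omega

lemma tl_of_dvd {m : ℤ → ℤ} {x : ℤ} (h : (L : ℤ) ∣ x - i) : tl L i m x = x + 1 := by
  simp [tl, h]

lemma tl_of_dvd_succ (h2 : 2 ≤ L) {m : ℤ → ℤ} {x : ℤ} (h : (L : ℤ) ∣ x - (i + 1)) :
    tl L i m x = x - 1 := by
  have h' : ¬ (L : ℤ) ∣ x - i := fun h' => not_both h2 h' h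
  simp [tl, h, h']

lemma tl_of_m {m : ℤ → ℤ} {x : ℤ} (h1 : ¬ (L : ℤ) ∣ x - i) (h2 : ¬ (L : ℤ) ∣ x - (i + 1))
    (h : (L : ℤ) ∣ m x - i) : tl L i m x = m (m x + 1) := by
  simp [tl, h, h1, h2]

lemma tl_of_m_succ (hL : 2 ≤ L) {m : ℤ → ℤ} {x : ℤ} (h1 : ¬ (L : ℤ) ∣ x - i)
    (h2 : ¬ (L : ℤ) ∣ x - (i + 1)) (h : (L : ℤ) ∣ m x - (i + 1)) : tl L i m x = m (m x - 1) := by
  have h' : ¬ (L : ℤ) ∣ m x - i := fun h' => not_both hL h' h
  simp [tl, h, h1, h2, h']

lemma tl_of_else {m : ℤ → ℤ} {x : ℤ} (h1 : ¬ (L : ℤ) ∣ x - i)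
    (h2 : ¬ (L : ℤ) ∣ x - (i + 1)) (h3 : ¬ (L : ℤ) ∣ m x - i) (h4 : ¬ (L : ℤ) ∣ m x - (i + 1)) :
    tl L i m x = m x := by
  simp [tl, h1, h2, h3, h4]

/-- the five cases for the value of `tl` -/
lemma tl_cases (hL : 2 ≤ L) (m : ℤ → ℤ) (x : ℤ) :
    ((L : ℤ) ∣ x - i ∧ tl L i m x = x + 1) ∨
    ((L : ℤ) ∣ x - (i + 1) ∧ tl L i m x = x - 1) ∨
    (¬ (L : ℤ) ∣ x - i ∧ ¬ (L : ℤ) ∣ x - (i + 1) ∧ (L : ℤ) ∣ m x - i ∧ tl L i m x = m (m x + 1)) ∨
    (¬ (L : ℤ) ∣ x - i ∧ ¬ (L : ℤ) ∣ x - (i + 1) ∧ (L : ℤ) ∣ m x - (i + 1) ∧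
      tl L i m x = m (m x - 1)) ∨
    (¬ (L : ℤ) ∣ x - i ∧ ¬ (L : ℤ) ∣ x - (i + 1) ∧ ¬ (L : ℤ) ∣ m x - i ∧
      ¬ (L : ℤ) ∣ m x - (i + 1) ∧ tl L i m x = m x) := by
  by_cases h1 : (L : ℤ) ∣ x - i
  · left; exact ⟨h1, tl_of_dvd i h1⟩
  by_cases h2 : (L : ℤ) ∣ x - (i + 1)
  · right; left; exact ⟨h2, tl_of_dvd_succ i hL h2⟩
  by_cases h3 : (L : ℤ) ∣ m x - i
  · right; right; left; exact ⟨h1, h2, h3, tl_of_m i h1 h2 h3⟩
  by_cases h4 : (L : ℤ) ∣ m x - (i + 1)
  · right; right; right; left; exact ⟨h1, h2, h4, tl_of_m_succ i hL h1 h2 h4⟩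
  · right; right; right; right; exact ⟨h1, h2, h3, h4, tl_of_else i h1 h2 h3 h4⟩

lemma dvd_shift {x y i : ℤ} (h : (L : ℤ) ∣ y - x) : (L : ℤ) ∣ y - i ↔ (L : ℤ) ∣ x - i := by
  constructor
  · intro h'
    have := dvd_sub h' h
    have e : y - i - (y - x) = x - i := by ring
    rwa [e] at this
  · intro h'
    have := dvd_add h' h
    have e : x - i + (y - x) = y - i := by ring
    rwa [e] at this

/-- z congruent to i: then m (z+1) not congruent to i, i+1 unless m z congruent to i+1 -/
lemma aux_succ {z : ℤ} (hz : (L : ℤ) ∣ z - i) (h : ¬ (L : ℤ) ∣ P.m z - (i + 1)) :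
    ¬ (L : ℤ) ∣ P.m (z + 1) - i ∧ ¬ (L : ℤ) ∣ P.m (z + 1) - (i + 1) := by
  constructor
  · intro h'
    apply h
    -- m (z+1) = z + aL
    have h1 : (L : ℤ) ∣ P.m (z + 1) - z := by
      have := dvd_sub h' hz
      have e : P.m (z + 1) - i - (z - i) = P.m (z + 1) - z := by ring
      rwa [e] at this
    have h2 := P.per_dvd h1
    rw [P.inv] at h2
    -- z + 1 = m z + (m (z+1) - z)
    have h3 : (L : ℤ) ∣ P.m z - (z + 1) := by
      have e : P.m z - (z + 1) = -(P.m (z + 1) - z) := by linarith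
      rw [e]; exact (dvd_neg).2 h1
    have := dvd_add h3 hz
    have e : P.m z - (z + 1) + (z - i) = P.m z - (i + 1) := by ring
    rwa [e] at this
  · intro h'
    apply P.not_dvd_self (z + 1)
    have := dvd_sub h' hz
    have e : P.m (z + 1) - (i + 1) - (z - i) = P.m (z + 1) - (z + 1) := by ring
    rwa [e] at this

lemma aux_self {z : ℤ} (hz : (L : ℤ) ∣ z - i) :
    ¬ (L : ℤ) ∣ P.m z - i := by
  intro h'
  apply P.not_dvd_self z
  have := dvd_sub h' hz
  have e : P.m z - i - (z - i) = P.m z - z := by ring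
  rwa [e] at this

lemma tl_inv (x : ℤ) : tl L i P.m (tl L i P.m x) = x := by
  have hL := P.two_le
  rcases tl_cases i hL P.m x with ⟨h, e⟩ | ⟨h, e⟩ | ⟨h1, h2, h3, e⟩ | ⟨h1, h2, h3, e⟩ |
    ⟨h1, h2, h3, h4, e⟩
  · rw [e, tl_of_dvd_succ i hL]; ring
    have : x + 1 - (i + 1) = x - i := by ring
    rwa [this]
  · rw [e, tl_of_dvd i]; ring
    have : x - 1 - i = x - (i + 1) := by ring
    rwa [this]
  · rw [e]
    have hz : ¬ (L : ℤ) ∣ P.m (P.m x) - (i + 1) := by rw [P.inv]; exact h2
    obtain ⟨a1, a2⟩ := aux_succ P i h3 hz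
    rw [tl_of_m_succ i hL a1 a2, P.inv]
    · rw [show P.m x + 1 - 1 = P.m x by ring, P.inv]
    · rw [P.inv]
      have : P.m x + 1 - (i + 1) = P.m x - i := by ring
      rwa [this]
  · rw [e]
    have hz : (L : ℤ) ∣ (P.m x - 1) - i := by
      have : P.m x - 1 - i = P.m x - (i + 1) := by ring
      rwa [this]
    have hz2 : ¬ (L : ℤ) ∣ P.m (P.m x - 1) - (i + 1) := by
      intro h'
      -- m (m x - 1) = m x + aL  => m x - 1 = x + aL
      have h5 : (L : ℤ) ∣ P.m (P.m x - 1) - P.m x := by
        have := dvd_sub h' h3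
        have e : P.m (P.m x - 1) - (i + 1) - (P.m x - (i + 1)) = P.m (P.m x - 1) - P.m x := by ring
        rwa [e] at this
      have h6 := P.per_dvd h5
      rw [P.inv, P.inv] at h6
      apply h1
      have h7 : (L : ℤ) ∣ x - (P.m x - 1) := by
        have e : x - (P.m x - 1) = -(P.m (P.m x - 1) - P.m x) := by linarith
        rw [e]; exact (dvd_neg).2 h5
      have := dvd_add h7 hz
      have e : x - (P.m x - 1) + (P.m x - 1 - i) = x - i := by ring
      rwa [e] at this
    have a1 := aux_self P i hz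
    rw [tl_of_m i a1 hz2, P.inv]
    · rw [show P.m x - 1 + 1 = P.m x by ring, P.inv]
    · rw [P.inv]; exact hz
  · rw [e, tl_of_else i h3 h4 (by rw [P.inv]; exact h1) (by rw [P.inv]; exact h2), P.inv]

lemma tl_per (x : ℤ) : tl L i P.m (x + L) = tl L i P.m x + L := by
  have hL := P.two_le
  have hd : (L : ℤ) ∣ (x + L) - x := by simp
  have hm : P.m (x + L) = P.m x + L := P.per x
  have hd' : (L : ℤ) ∣ P.m (x + L) - P.m x := by rw [hm]; simp
  rcases tl_cases i hL P.m x with ⟨h, e⟩ | ⟨h, e⟩ | ⟨h1, h2, h3, e⟩ | ⟨h1, h2, h3, e⟩ |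
    ⟨h1, h2, h3, h4, e⟩
  · rw [e, tl_of_dvd i ((dvd_shift hd).2 h)]; ring
  · rw [e, tl_of_dvd_succ i hL ((dvd_shift hd).2 h)]; ring
  · rw [e, tl_of_m i (by rw [dvd_shift hd]; exact h1) (by rw [dvd_shift hd]; exact h2)
      ((dvd_shift hd').2 h3), hm, show P.m x + L + 1 = P.m x + 1 + L by ring, P.per]
  · rw [e, tl_of_m_succ i hL (by rw [dvd_shift hd]; exact h1) (by rw [dvd_shift hd]; exact h2)
      ((dvd_shift hd').2 h3), hm, show P.m x + L - 1 = P.m x - 1 + L by ring, P.per]
  · rw [e, tl_of_else i (by rw [dvd_shift hd]; exact h1) (by rw [dvd_shift hd]; exact h2)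
      (by rw [dvd_shift hd']; exact h3) (by rw [dvd_shift hd']; exact h4), hm]

lemma tl_ne (x : ℤ) : tl L i P.m x ≠ x := by
  have hL := P.two_le
  rcases tl_cases i hL P.m x with ⟨h, e⟩ | ⟨h, e⟩ | ⟨h1, h2, h3, e⟩ | ⟨h1, h2, h3, e⟩ |
    ⟨h1, h2, h3, h4, e⟩
  · rw [e]; omega
  · rw [e]; omega
  · rw [e]; intro h
    have := P.inv x
    have h5 := P.inj (h.trans this.symm)
    omega
  · rw [e]; intro h
    have := P.inv x
    have h5 := P.inj (h.trans this.symm)
    omega
  · rw [e]; exact P.ne x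

/-- distance of the two partners -/
lemma partner_close {z : ℤ} (h : ¬ (L : ℤ) ∣ P.m z - (z + 1)) :
    P.m (z + 1) - P.m z < L ∧ P.m z - P.m (z + 1) < L := by
  have s1 := P.short' z
  have s2 := P.short' (z + 1)
  have n1 := P.ne z
  have n2 := P.ne (z + 1)
  have hne1 : P.m z ≠ z + 1 := fun h' => h (by rw [h']; simp)
  have hne2 : P.m (z + 1) ≠ z := by
    intro h'
    apply hne1
    have h3 := P.inv (z + 1)
    rwa [h'] at h3
  have hneL : P.m z + L ≠ z + 1 := by
    intro h'
    apply h
    have e : P.m z - (z + 1) = -(L : ℤ) := by linarith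
    rw [e]; simp
  rcases lt_or_gt_of_ne n1 with hj | hj
  · -- m z < z
    rcases lt_or_gt_of_ne n2 with hk | hk
    · -- m (z+1) < z+1, so < z
      have hk' : P.m (z + 1) < z := by omega
      have := P.nc (P.m (z + 1)) z hk' (by rw [P.inv]; omega)
      rw [P.inv] at this
      constructor
      · linarith [this.1]
      · omega
    · -- m z < z < z+1 < m (z+1)
      constructor
      · by_contra hc
        rw [not_lt] at hc
        have hper : P.m (P.m z + L) = z + L := by rw [P.per, P.inv]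
        have hneq : P.m z + L ≠ P.m (z + 1) := by
          intro h'
          have h2 := congrArg P.m h'
          rw [hper, P.inv] at h2
          have := P.two_le
          omega
        have h3 : z + 1 < P.m z + L := by omega
        have h4 : P.m z + L < P.m (z + 1) := by omega
        have := P.nc (z + 1) (P.m z + L) h3 h4
        rw [hper] at this
        omega
      · omega
  · -- m z > z, so > z + 1
    have hz : z + 1 < P.m z := by omega
    have := P.nc z (z + 1) (by omega) hz
    constructor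
    · omega
    · omega

lemma tl_short (x : ℤ) : |tl L i P.m x - x| < L := by
  have hL := P.two_le
  rw [abs_lt]
  rcases tl_cases i hL P.m x with ⟨h, e⟩ | ⟨h, e⟩ | ⟨h1, h2, h3, e⟩ | ⟨h1, h2, h3, e⟩ |
    ⟨h1, h2, h3, h4, e⟩
  · rw [e]; constructor <;> omega
  · rw [e]; constructor <;> omega
  · rw [e]
    have hz : ¬ (L : ℤ) ∣ P.m (P.m x) - (P.m x + 1) := by
      rw [P.inv]
      intro h'
      apply h2
      have := dvd_add h' h3
      have e : x - (P.m x + 1) + (P.m x - i) = x - (i + 1) := by ring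
      rwa [e] at this
    have := partner_close P hz
    rw [P.inv] at this
    constructor <;> linarith [this.1, this.2]
  · rw [e]
    have hz : ¬ (L : ℤ) ∣ P.m (P.m x - 1) - (P.m x - 1 + 1) := by
      intro h'
      rw [show P.m x - 1 + 1 = P.m x by ring] at h'
      have h6 := P.per_dvd h'
      rw [P.inv, P.inv] at h6
      apply h1
      have h7 : (L : ℤ) ∣ x - (P.m x - 1) := by
        have e : x - (P.m x - 1) = -(P.m (P.m x - 1) - P.m x) := by linarith
        rw [e]; exact (dvd_neg).2 h'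
      have := dvd_add h7 h3
      have e : x - (P.m x - 1) + (P.m x - (i + 1)) = x - i := by ring
      rwa [e] at this
    have := partner_close P hz
    rw [show P.m x - 1 + 1 = P.m x by ring, P.inv] at this
    constructor <;> linarith [this.1, this.2]
  · rw [e]; have := P.short x; rwa [abs_lt] at this

/-- Key step: the new arc joining the partners of `z` and `z+1`: everything strictly below it. -/
lemma new_arc {z y : ℤ} (hz : (L : ℤ) ∣ z - i) (h : ¬ (L : ℤ) ∣ P.m z - (z + 1))
    (hyi : ¬ (L : ℤ) ∣ y - i) (hyi' : ¬ (L : ℤ) ∣ y - (i + 1))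
    (hy : (P.m z < y ∧ y < P.m (z + 1)) ∨ (P.m (z + 1) < y ∧ y < P.m z)) :
    ¬ (L : ℤ) ∣ P.m y - i ∧ ¬ (L : ℤ) ∣ P.m y - (i + 1) ∧
    ((P.m z < P.m y ∧ P.m y < P.m (z + 1)) ∨ (P.m (z + 1) < P.m y ∧ P.m y < P.m z)) := by
  have hL := P.two_le
  have hc := partner_close P h
  have s1 := P.short' z
  have s2 := P.short' (z + 1)
  have n1 := P.ne z
  have n2 := P.ne (z + 1)
  have i1 := P.inv z
  have i2 := P.inv (z + 1)
  have iy := P.inv y
  have hne1 : P.m z ≠ z + 1 := fun h' => h (by rw [h']; simp)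
  have hne2 : P.m (z + 1) ≠ z := by
    intro h'
    apply hne1
    have h3 := P.inv (z + 1)
    rwa [h'] at h3
  have hyz : y ≠ z := by rintro rfl; exact hyi hz
  have hyz1 : y ≠ z + 1 := by
    rintro rfl
    apply hyi'
    have e : z + 1 - (i + 1) = z - i := by ring
    rwa [e]
  -- m y is congruent to i or i+1 only if y is a translate of m z or m (z+1)
  have key1 : (L : ℤ) ∣ P.m y - i → (L : ℤ) ∣ P.m y - z ∧ P.m y - z = y - P.m z := by
    intro h'
    have h1 : (L : ℤ) ∣ P.m y - z := by
      have := dvd_sub h' hz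
      have e : P.m y - i - (z - i) = P.m y - z := by ring
      rwa [e] at this
    refine ⟨h1, ?_⟩
    have h2 := P.per_dvd h1
    rw [iy] at h2
    linarith
  have key2 : (L : ℤ) ∣ P.m y - (i + 1) →
      (L : ℤ) ∣ P.m y - (z + 1) ∧ P.m y - (z + 1) = y - P.m (z + 1) := by
    intro h'
    have h1 : (L : ℤ) ∣ P.m y - (z + 1) := by
      have := dvd_sub h' hz
      have e : P.m y - (i + 1) - (z - i) = P.m y - (z + 1) := by ring
      rwa [e] at this
    refine ⟨h1, ?_⟩
    have h2 := P.per_dvd h1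
    rw [iy] at h2
    linarith
  have hmain : (P.m z < P.m y ∧ P.m y < P.m (z + 1)) ∨ (P.m (z + 1) < P.m y ∧ P.m y < P.m z) := by
    rcases hy with ⟨hy1, hy2⟩ | ⟨hy1, hy2⟩
    · left
      -- m z < y < m (z+1)
      rcases lt_or_gt_of_ne n1 with hj | hj
      · rcases lt_or_gt_of_ne n2 with hk | hk
        · -- both left: m (z+1) < z and then m z inside: contradiction with m z < m (z+1)
          have hk' : P.m (z + 1) < z := by omega
          have := P.nc (P.m (z + 1)) z hk' (by rw [i2]; omega)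
          omega
        · rcases lt_trichotomy y z with h3 | h3 | h3
          · have := P.nc (P.m z) y hy1 (by rw [i1]; exact h3)
            rw [i1] at this
            omega
          · exact absurd h3 hyz
          · have := P.nc (z + 1) y (by omega) hy2
            omega
      · -- m z > z + 1: m (z+1) in between
        have hzz : z + 1 < P.m z := by omega
        have := P.nc z (z + 1) (by omega) hzz
        omega
    · right
      rcases lt_or_gt_of_ne n1 with hj | hj
      · rcases lt_or_gt_of_ne n2 with hk | hk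
        · -- m (z+1) < m z < z
          have hk' : P.m (z + 1) < z := by omega
          have h3 := P.nc (P.m (z + 1)) z hk' (by rw [i2]; omega)
          rw [i2] at h3
          have h4 := P.nc (P.m (z + 1)) y hy1 (by rw [i2]; omega)
          rw [i2] at h4
          refine ⟨h4.1, ?_⟩
          by_contra hcon
          have hne : P.m y ≠ P.m z := fun h' => hyz (P.inj h')
          have hne' : P.m y ≠ z := by
            intro h'
            have := iy
            rw [h'] at this
            omega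
          have h5 : P.m z < P.m y := by omega
          have h6 : P.m y < z := by omega
          have h7 := P.nc (P.m z) (P.m y) h5 (by rw [i1]; exact h6)
          rw [iy] at h7
          omega
        · omega
      · have hzz : z + 1 < P.m z := by omega
        have h3 := P.nc z (z + 1) (by omega) hzz
        have h4 := P.nc z y (by omega) hy2
        refine ⟨?_, h4.2⟩
        by_contra hcon
        have hne : P.m y ≠ P.m (z + 1) := fun h' => hyz1 (P.inj h')
        have hne' : P.m y ≠ z + 1 := by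
          intro h'
          have := iy
          rw [h'] at this
          omega
        have h5 : z + 1 < P.m y := by omega
        have h6 : P.m y < P.m (z + 1) := by omega
        have h7 := P.nc (z + 1) (P.m y) h5 h6
        rw [iy] at h7
        omega
  refine ⟨?_, ?_, hmain⟩
  · intro h'
    obtain ⟨h1, h2⟩ := key1 h'
    rcases dvd_cases h1 with h3 | h3 | h3
    · have : P.m y = z := by linarith
      have h4 : y = P.m z := by linarith
      omega
    · omega
    · omega
  · intro h'
    obtain ⟨h1, h2⟩ := key2 h'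
    rcases dvd_cases h1 with h3 | h3 | h3
    · have h4 : y = P.m (z + 1) := by linarith
      omega
    · omega
    · omega

lemma tl_nc (x y : ℤ) (hxy : x < y) (hyx : y < tl L i P.m x) :
    x < tl L i P.m y ∧ tl L i P.m y < tl L i P.m x := by
  have hL := P.two_le
  have iy := P.inv y
  have ix := P.inv x
  rcases tl_cases i hL P.m x with ⟨h, e⟩ | ⟨h, e⟩ | ⟨h1, h2, h3, e⟩ | ⟨h1, h2, h3, e⟩ |
    ⟨h1, h2, h3, h4, e⟩
  · rw [e] at hyx; omega
  · rw [e] at hyx; omega
  · -- m x = z, z ≡ i, new arc from x = m z to m (z + 1)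
    set z := P.m x with hzdef
    have hz : ¬ (L : ℤ) ∣ P.m z - (z + 1) := by
      rw [ix]
      intro h'
      apply h2
      have := dvd_add h' h3
      have e : x - (z + 1) + (z - i) = x - (i + 1) := by ring
      rwa [e] at this
    rw [e] at hyx ⊢
    obtain ⟨a1, a2⟩ := aux_succ P i h3 (by rw [ix]; exact h2)
    rcases tl_cases i hL P.m y with ⟨g, f⟩ | ⟨g, f⟩ | ⟨g1, g2, g3, f⟩ | ⟨g1, g2, g3, f⟩ |
      ⟨g1, g2, g3, g4, f⟩
    · rw [f]
      have : P.m (z + 1) ≠ y + 1 := by
        intro h'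
        apply a2
        rw [h']
        have e : y + 1 - (i + 1) = y - i := by ring
        rwa [e]
      omega
    · rw [f]
      have : x ≠ y - 1 := by
        intro h'
        apply h1
        rw [h']
        have e : y - 1 - i = y - (i + 1) := by ring
        rwa [e]
      omega
    · have := new_arc P i h3 hz g1 g2 (Or.inl ⟨by rw [ix]; exact hxy, hyx⟩)
      exact absurd g3 this.1
    · have := new_arc P i h3 hz g1 g2 (Or.inl ⟨by rw [ix]; exact hxy, hyx⟩)
      exact absurd g3 this.2.1
    · rw [f]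
      have := (new_arc P i h3 hz g1 g2 (Or.inl ⟨by rw [ix]; exact hxy, hyx⟩)).2.2
      rw [ix] at this
      omega
  · -- m x = z + 1, z ≡ i
    obtain ⟨z, hzz⟩ : ∃ z, P.m x = z + 1 := ⟨P.m x - 1, by ring⟩
    have hzi : (L : ℤ) ∣ z - i := by
      rw [hzz] at h3
      have e : z + 1 - (i + 1) = z - i := by ring
      rwa [e] at h3
    rw [hzz] at e ix
    rw [show z + 1 - 1 = z by ring] at e
    have hz : ¬ (L : ℤ) ∣ P.m z - (z + 1) := by
      intro h'
      have h6 := P.per_dvd h'
      rw [P.inv, ix] at h6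
      apply h1
      have h7 : (L : ℤ) ∣ x - z := by
        have e : x - z = -(P.m z - (z + 1)) := by linarith
        rw [e]; exact (dvd_neg).2 h'
      have := dvd_add h7 hzi
      have e : x - z + (z - i) = x - i := by ring
      rwa [e] at this
    have hz' : ¬ (L : ℤ) ∣ P.m z - (i + 1) := by
      intro h'
      apply hz
      have := dvd_sub h' hzi
      have e : P.m z - (i + 1) - (z - i) = P.m z - (z + 1) := by ring
      rwa [e] at this
    have a2 := hz'
    rw [e] at hyx ⊢
    rcases tl_cases i hL P.m y with ⟨g, f⟩ | ⟨g, f⟩ | ⟨g1, g2, g3, f⟩ | ⟨g1, g2, g3, f⟩ |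
      ⟨g1, g2, g3, g4, f⟩
    · rw [f]
      have : P.m z ≠ y + 1 := by
        intro h'
        apply a2
        rw [h']
        have e : y + 1 - (i + 1) = y - i := by ring
        rwa [e]
      omega
    · rw [f]
      have : x ≠ y - 1 := by
        intro h'
        apply h1
        rw [h']
        have e : y - 1 - i = y - (i + 1) := by ring
        rwa [e]
      omega
    · have := new_arc P i hzi hz g1 g2 (Or.inr ⟨by rw [ix]; exact hxy, hyx⟩)
      exact absurd g3 this.1
    · have := new_arc P i hzi hz g1 g2 (Or.inr ⟨by rw [ix]; exact hxy, hyx⟩)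
      exact absurd g3 this.2.1
    · rw [f]
      have := (new_arc P i hzi hz g1 g2 (Or.inr ⟨by rw [ix]; exact hxy, hyx⟩)).2.2
      rw [ix] at this
      omega
  · rw [e] at hyx ⊢
    have hnc := P.nc x y hxy hyx
    rcases tl_cases i hL P.m y with ⟨g, f⟩ | ⟨g, f⟩ | ⟨g1, g2, g3, f⟩ | ⟨g1, g2, g3, f⟩ |
      ⟨g1, g2, g3, g4, f⟩
    · rw [f]
      have : P.m x ≠ y + 1 := by
        intro h'
        apply h4
        rw [h']
        have e : y + 1 - (i + 1) = y - i := by ring
        rwa [e]
      omega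
    · rw [f]
      have : x ≠ y - 1 := by
        intro h'
        apply h1
        rw [h']
        have e : y - 1 - i = y - (i + 1) := by ring
        rwa [e]
      omega
    · rw [f]
      -- m y ≡ i
      have hne : P.m x ≠ P.m y + 1 := by
        intro h'
        apply h4
        rw [h']
        have e : P.m y + 1 - (i + 1) = P.m y - i := by ring
        rwa [e]
      exact P.nc x (P.m y + 1) (by omega) (by omega)
    · rw [f]
      have hne : x ≠ P.m y - 1 := by
        intro h'
        apply h1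
        rw [h']
        have e : P.m y - 1 - i = P.m y - (i + 1) := by ring
        rwa [e]
      exact P.nc x (P.m y - 1) (by omega) (by omega)
    · rw [f]; exact hnc

/-- The Temperley-Lieb move `e_i` on link patterns. -/
def E (i : ℤ) (P : Pat L) : Pat L where
  m := tl L i P.m
  inv := tl_inv P i
  per := tl_per P i
  ne := tl_ne P i
  short := tl_short P i
  nc := tl_nc P i

/-- rotation: the strand at position `x` moves to `x + 1` -/
def rot (P : Pat L) : Pat L where
  m := fun x => P.m (x - 1) + 1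
  inv := fun x => by simp [P.inv]
  per := fun x => by
    show P.m (x + L - 1) + 1 = P.m (x - 1) + 1 + L
    rw [show x + (L : ℤ) - 1 = x - 1 + L by ring, P.per]; ring
  ne := fun x h => P.ne (x - 1) (by linarith)
  short := fun x => by
    have := P.short (x - 1)
    have e : P.m (x - 1) + 1 - x = P.m (x - 1) - (x - 1) := by ring
    show |P.m (x - 1) + 1 - x| < L
    rwa [e]
  nc := fun x y h1 h2 => by
    have := P.nc (x - 1) (y - 1) (by linarith) (by linarith)
    exact ⟨by linarith [this.1], by linarith [this.2]⟩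

@[simp] lemma E_m (i : ℤ) (P : Pat L) (x : ℤ) : (E i P).m x = tl L i P.m x := rfl
@[simp] lemma rot_m (P : Pat L) (x : ℤ) : (rot P).m x = P.m (x - 1) + 1 := rfl

end closure

end H56.EX
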