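import Pool.Agent.H56.EX.Exch

/-! Arc recursion of the leg sums. -/

namespace H56.EX

open scoped BigOperators Classical

variable {Lt Lb L : ℕ}

/-- inverse rotation -/
def unrot (P : Pat L) : Pat L where
  m := fun x => P.m (x + 1) - 1
  inv := fun x => by simp [P.inv]
  per := fun x => by
    show P.m (x + L + 1) - 1 = P.m (x + 1) - 1 + L
    rw [show x + (L : ℤ) + 1 = x + 1 + L by ring, P.per]; ring
  ne := fun x h => P.ne (x + 1) (by linarith)
  short := fun x => by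
    have := P.short (x + 1)
    have e : P.m (x + 1) - 1 - x = P.m (x + 1) - (x + 1) := by ring
    show |P.m (x + 1) - 1 - x| < L
    rwa [e]
  nc := fun x y h1 h2 => by
    have := P.nc (x + 1) (y + 1) (by linarith) (by linarith)
    exact ⟨by linarith [this.1], by linarith [this.2]⟩

/-- rotation as a bijection -/
def rotEquiv (L : ℕ) : Pat L ≃ Pat L where
  toFun := rot
  invFun := unrot
  left_inv := fun P => by
    apply Pat.ext; funext x
    show P.m (x + 1 - 1) + 1 - 1 = P.m x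
    rw [show x + 1 - 1 = x by ring]; ring
  right_inv := fun P => by
    apply Pat.ext; funext x
    show P.m (x - 1 + 1) - 1 + 1 = P.m x
    rw [show x - 1 + 1 = x by ring]; ring

/-- the scalar of the arc recursion -/
noncomputable def gfac (L : ℕ) (i : ℤ) (ζ : ℤ → ℂ) : ℂ :=
  -q * ζ (i + 1) * (∏ s ∈ Finset.range L, (ζ (i + 2 + s) - q * ζ (i + 1)) ^ 2) / 3 ^ L

/-- a sum over `Pat (L+2)` of a function supported on patterns with a small arc at `i`. -/
lemma sum_arc (hL : 2 ≤ L) (i : ℤ) (f : Pat (L + 2) → ℂ) (hf : ∀ P, P.m i ≠ i + 1 → f P = 0) :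
    ∑ P, f P = ∑ Q : Pat L, f (ins i Q) := by
  rw [← Finset.sum_image (s := Finset.univ) (g := ins (L := L) i)
    (fun a _ b _ h => ins_injective i h)]
  symm
  apply Finset.sum_subset (Finset.subset_univ _)
  intro P _ hP
  apply hf
  intro h
  obtain ⟨Q, hQ⟩ := exists_ins hL i P h
  exact hP (Finset.mem_image.2 ⟨Q, Finset.mem_univ _, hQ.symm⟩)

section psi

variable {Ψ : ∀ L : ℕ, Pat L → (ℤ → ℂ) → ℂ} (hΨ : PsiProps Ψ)

include hΨ

/-- right recursion: the last top leg becomes a bottom leg -/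
theorem rec_right (kt kb M : ℕ)
    (LT3 : ∀ (Pt : Pat Lt) (Pb : Pat Lb),
      Leg (kt + 1) kb (M + 1) (ins kt Pt) Pb ↔ Leg kt (kb + 1) M Pt Pb)
    (hL : 2 ≤ Lt) (ζ : ℤ → ℂ) (hζ : Per (Lt + 2) ζ) (h : ζ kt = q ^ 2 * ζ (kt + 1))
    (w : Pat Lb → ℂ) :
    legSum (kt + 1) kb (M + 1) (fun P : Pat (Lt + 2) => Ψ (Lt + 2) P ζ) w =
      gfac Lt kt ζ * legSum kt (kb + 1) M
        (fun P : Pat Lt => Ψ Lt P (fun x => ζ (phi Lt kt x))) w := by
  rw [legSum_eq, legSum_eq, sum_arc hL kt]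
  · rw [Finset.mul_sum]
    refine Finset.sum_congr rfl fun Q _ => ?_
    rw [Finset.mul_sum]
    refine Finset.sum_congr rfl fun Pb _ => ?_
    rw [hΨ.arc Lt Q ζ hζ kt h]
    have : chi (kt + 1) kb (M + 1) (ins (kt : ℤ) Q) Pb = chi kt (kb + 1) M Q Pb := by
      unfold chi; simp only [LT3]
    rw [this]
    unfold gfac
    ring
  · intro P hP
    apply Finset.sum_eq_zero
    intro Pb _
    rw [hΨ.arc_zero (Lt + 2) P ζ hζ kt h hP]
    ring

/-- left recursion: the first top leg becomes a bottom leg (bottom rotated) -/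
theorem rec_left (kt kb M : ℕ)
    (LT4 : ∀ (Pt : Pat Lt) (Pb : Pat Lb),
      Leg (kt + 1) kb (M + 1) (ins (-1) Pt) Pb ↔ Leg kt (kb + 1) M (rot Pt) (rot Pb))
    (hL : 2 ≤ Lt) (ζ ξ : ℤ → ℂ) (hζ : Per (Lt + 2) ζ) (hξ : Per Lb ξ)
    (h : ζ (-1) = q ^ 2 * ζ 0) :
    legSum (kt + 1) kb (M + 1) (fun P : Pat (Lt + 2) => Ψ (Lt + 2) P ζ)
        (fun P : Pat Lb => Ψ Lb P ξ) =
      gfac Lt (-1) ζ * legSum kt (kb + 1) M
        (fun P : Pat Lt => Ψ Lt P (fun x => ζ (phi Lt (-1) (x - 1))))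
        (fun P : Pat Lb => Ψ Lb P (fun x => ξ (x - 1))) := by
  have hper : Per Lt (fun x => ζ (phi Lt (-1) x)) := by
    intro x
    show ζ (phi Lt (-1) (x + Lt)) = ζ (phi Lt (-1) x)
    rw [phi_add_L (by omega)]
    have := hζ (phi Lt (-1) x)
    push_cast at this
    exact this
  have h' : ζ (-1) = q ^ 2 * ζ (-1 + 1) := by simpa using h
  rw [legSum_eq, legSum_eq, sum_arc hL (-1)]
  · have hR : (∑ Pt : Pat Lt, ∑ Pb : Pat Lb, chi kt (kb + 1) M Pt Pb *
        (Ψ Lt Pt (fun x => ζ (phi Lt (-1) (x - 1))) * Ψ Lb Pb (fun x => ξ (x - 1)))) =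
        ∑ Q : Pat Lt, ∑ Pb : Pat Lb, chi kt (kb + 1) M ((rotEquiv Lt) Q) ((rotEquiv Lb) Pb) *
        (Ψ Lt ((rotEquiv Lt) Q) (fun x => ζ (phi Lt (-1) (x - 1))) *
          Ψ Lb ((rotEquiv Lb) Pb) (fun x => ξ (x - 1))) := by
      rw [← Equiv.sum_comp (rotEquiv Lt)]
      refine Finset.sum_congr rfl fun Q _ => ?_
      rw [← Equiv.sum_comp (rotEquiv Lb)]
    rw [hR, Finset.mul_sum]
    refine Finset.sum_congr rfl fun Q _ => ?_
    rw [Finset.mul_sum]
    refine Finset.sum_congr rfl fun Pb _ => ?_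
    rw [hΨ.arc Lt Q ζ hζ (-1) h']
    have e1 : chi (kt + 1) kb (M + 1) (ins (-1) Q) Pb =
        chi kt (kb + 1) M ((rotEquiv Lt) Q) ((rotEquiv Lb) Pb) := by
      unfold chi; simp only [LT4]; rfl
    have e2 : Ψ Lt ((rotEquiv Lt) Q) (fun x => ζ (phi Lt (-1) (x - 1))) =
        Ψ Lt Q (fun x => ζ (phi Lt (-1) x)) :=
      hΨ.rot Lt Q (fun x => ζ (phi Lt (-1) x)) hper
    have e3 : Ψ Lb ((rotEquiv Lb) Pb) (fun x => ξ (x - 1)) = Ψ Lb Pb ξ := hΨ.rot Lb Pb ξ hξ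
    rw [e1, e2, e3]
    unfold gfac
    ring
  · intro P hP
    apply Finset.sum_eq_zero
    intro Pb _
    rw [hΨ.arc_zero (Lt + 2) P ζ hζ (-1) h' hP]
    ring

end psi

/-! ### parameters -/

lemma per_par (L : ℕ) (s : ℕ → ℂ) : Per L (par L s) := by
  intro x
  unfold par
  rw [Int.add_emod_right]

lemma par_nat {L : ℕ} (s : ℕ → ℂ) {n : ℕ} (h : n < L) : par L s n = s n := by
  unfold par
  rw [Int.emod_eq_of_lt (by omega) (by exact_mod_cast h)]
  simp

lemma par_of {L : ℕ} (s : ℕ → ℂ) {x : ℤ} {n : ℕ} (h : n < L) (hx : Cg L x n) :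
    par L s x = s n := by
  rw [← par_nat s h]
  unfold par
  congr 2
  exact (Int.modEq_iff_dvd.2 hx : (n : ℤ) ≡ x [ZMOD L]).symm

end H56.EX
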