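import Pool.Agent.H56.EX.Sym

/-! Recursions of `F22`, `F13`. -/

namespace H56.EX

open scoped BigOperators Classical

lemma gfac_congr {L : ℕ} {i : ℤ} {ζ : ℤ → ℂ} {x : ℂ} {y : ℕ → ℂ} (h1 : ζ (i + 1) = x)
    (h2 : ∀ s, s < L → ζ (i + 2 + s) = y s) :
    gfac L i ζ = -q * x * (∏ s ∈ Finset.range L, (y s - q * x) ^ 2) / 3 ^ L := by
  unfold gfac
  rw [h1]
  congr 2
  refine Finset.prod_congr rfl fun s hs => ?_
  rw [h2 s (Finset.mem_range.1 hs)]

lemma scons_eta (z : ℕ → ℂ) : scons (z 0) (fun n => z (n + 1)) = z := by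
  funext n
  rcases n with _ | n <;> rfl

section psi

variable {Ψ : ∀ L : ℕ, Pat L → (ℤ → ℂ) → ℂ} (hΨ : PsiProps Ψ) (hT : LegTop)

include hΨ hT

theorem F22_rec_right (M : ℕ) (hM : 1 ≤ M) (a0 b0 b1 : ℂ) (z : ℕ → ℂ) :
    F22 Ψ (M + 1) a0 (q ^ 2 * z 0) b0 b1 z =
      (-q * z 0 * ((∏ s ∈ Finset.range M, (z (s + 1) - q * z 0) ^ 2) * (a0 - q * z 0) ^ 2) /
        3 ^ (M + 1)) * F13 Ψ M a0 b0 b1 (z 0) (fun n => z (n + 1)) := by
  set s : ℕ → ℂ := scons a0 (scons (q ^ 2 * z 0) z) with hs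
  have e1 : par (M + 1 + 2) s ((1 : ℕ) : ℤ) = q ^ 2 * z 0 := par_nat _ (by omega)
  have e2 : par (M + 1 + 2) s (((1 : ℕ) : ℤ) + 1) = z 0 := by
    have : (((1 : ℕ) : ℤ) + 1) = ((2 : ℕ) : ℤ) := by norm_num
    rw [this]; exact par_nat _ (by omega)
  have h := rec_right hΨ (Lt := M + 1) (Lb := M + 3) 1 2 M
    (fun Pt Pb => hT.right 1 2 M (by omega) (by omega) Pt Pb) (by omega)
    (par (M + 1 + 2) s) (per_par _ _) (by rw [e1, e2])
    (fun P : Pat (M + 3) => Ψ (M + 3) P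
      (par (M + 3) (scons b0⁻¹ (scons b1⁻¹ (fun n => (z n)⁻¹)))))
  rw [phi_par (by omega) s 1 (by omega)] at h
  have hg : gfac (M + 1) ((1 : ℕ) : ℤ) (par (M + 1 + 2) s) =
      -q * z 0 * (∏ k ∈ Finset.range (M + 1), ((if k < M then z (k + 1) else a0) - q * z 0) ^ 2) /
        3 ^ (M + 1) := by
    apply gfac_congr (y := fun k => if k < M then z (k + 1) else a0) e2
    intro k hk
    by_cases h : k < M
    · have : ((1 : ℕ) : ℤ) + 2 + (k : ℤ) = ((k + 1 + 2 : ℕ) : ℤ) := by push_cast; ring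
      rw [this, par_nat _ (by omega)]
      simp only [h, if_true]
      rfl
    · simp only [h, if_false]
      have hk : k = M := by omega
      subst hk
      have : par (k + 1 + 2) s (((1 : ℕ) : ℤ) + 2 + (k : ℤ)) = s 0 := by
        apply par_of s (by omega)
        refine ⟨1, by push_cast; ring⟩
      rw [this]; rfl
  rw [hg, Finset.prod_range_succ] at h
  have hp : ∏ k ∈ Finset.range M, ((if k < M then z (k + 1) else a0) - q * z 0) ^ 2 =
      ∏ k ∈ Finset.range M, (z (k + 1) - q * z 0) ^ 2 := by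
    refine Finset.prod_congr rfl fun k hk => ?_
    rw [if_pos (Finset.mem_range.1 hk)]
  rw [hp, if_neg (lt_irrefl M)] at h
  have hs' : (fun n => if n < 1 then s n else s (n + 2)) = scons a0 (fun n => z (n + 1)) := by
    funext n
    rcases n with _ | n
    · rfl
    · rfl
  rw [hs'] at h
  have hb : scons b0⁻¹ (scons b1⁻¹ (scons (z 0)⁻¹ (fun n => (z (n + 1))⁻¹))) =
      scons b0⁻¹ (scons b1⁻¹ (fun n => (z n)⁻¹)) := by
    congr 2
    exact scons_eta (fun n => (z n)⁻¹)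
  unfold F22 F13
  rw [hb]
  exact h

theorem F22_rec_left (M : ℕ) (hM : 1 ≤ M) (a0 a1 b0 b1 : ℂ) (z : ℕ → ℂ)
    (hz : z M = q ^ 2 * a0) :
    F22 Ψ (M + 1) a0 a1 b0 b1 z =
      (-q * a0 * ((∏ s ∈ Finset.range M, (z s - q * a0) ^ 2) * (a1 - q * a0) ^ 2) /
        3 ^ (M + 1)) * F13 Ψ M a1 (z M) b0 b1 z := by
  set s : ℕ → ℂ := scons a0 (scons a1 z) with hs
  set s' : ℕ → ℂ := scons b0⁻¹ (scons b1⁻¹ (fun n => (z n)⁻¹)) with hs'
  have e1 : par (M + 1 + 2) s (-1) = z M := by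
    have : par (M + 1 + 2) s (-1) = s (M + 2) := by
      apply par_of s (by omega)
      refine ⟨-1, by push_cast; ring⟩
    rw [this]; rfl
  have e2 : par (M + 1 + 2) s 0 = a0 := par_nat (L := M + 1 + 2) s (n := 0) (by omega)
  have h := rec_left hΨ (Lt := M + 1) (Lb := M + 3) 1 2 M
    (fun Pt Pb => hT.left 1 2 M (by omega) (by omega) Pt Pb) (by omega)
    (par (M + 1 + 2) s) (par (M + 3) s') (per_par _ _) (per_par _ _) (by rw [e1, e2, hz])
  rw [phi_par_left (by omega) s, rot_par (by omega) s'] at h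
  have hg : gfac (M + 1) (-1) (par (M + 1 + 2) s) =
      -q * a0 * (∏ k ∈ Finset.range (M + 1), (scons a1 z k - q * a0) ^ 2) /
        3 ^ (M + 1) := by
    apply gfac_congr (y := scons a1 z) (by simpa using e2)
    intro k hk
    have : (-1 : ℤ) + 2 + (k : ℤ) = ((k + 1 : ℕ) : ℤ) := by push_cast; ring
    rw [this, par_nat _ (by omega)]
    rfl
  rw [hg, Finset.prod_range_succ'] at h
  exact h

theorem F13_rec_right (M : ℕ) (a b0 b1 : ℂ) (z : ℕ → ℂ) :
    F13 Ψ (M + 1) a b0 b1 (q * z 0) z =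
      (-q * (z 0)⁻¹ * ((∏ s ∈ Finset.range M, ((z (s + 1))⁻¹ - q * (z 0)⁻¹) ^ 2) *
        (b0⁻¹ - q * (z 0)⁻¹) ^ 2 * (b1⁻¹ - q * (z 0)⁻¹) ^ 2) /
        3 ^ (M + 2)) * F22 Ψ M a (z 0) b0 b1 (fun n => z (n + 1)) := by
  set s : ℕ → ℂ := scons b0⁻¹ (scons b1⁻¹ (scons (q * z 0)⁻¹ (fun n => (z n)⁻¹))) with hs
  have e1 : par (M + 2 + 2) s ((2 : ℕ) : ℤ) = (q * z 0)⁻¹ := par_nat _ (by omega)
  have e2 : par (M + 2 + 2) s (((2 : ℕ) : ℤ) + 1) = (z 0)⁻¹ := by
    have : (((2 : ℕ) : ℤ) + 1) = ((3 : ℕ) : ℤ) := by norm_num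
    rw [this]; exact par_nat _ (by omega)
  have h := rec_right hΨ (Lt := M + 2) (Lb := M + 2) 2 1 M
    (fun Pt Pb => hT.right 2 1 M (by omega) (by omega) Pt Pb) (by omega)
    (par (M + 2 + 2) s) (per_par _ _) (by rw [e1, e2, mul_inv, q_inv])
    (fun P : Pat (M + 2) => Ψ (M + 2) P (par (M + 2) (scons a z)))
  rw [phi_par (by omega) s 2 (by omega)] at h
  have hg : gfac (M + 2) ((2 : ℕ) : ℤ) (par (M + 2 + 2) s) =
      -q * (z 0)⁻¹ * (∏ k ∈ Finset.range (M + 2), ((if k < M then (z (k + 1))⁻¹ else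
        if k = M then b0⁻¹ else b1⁻¹) - q * (z 0)⁻¹) ^ 2) / 3 ^ (M + 2) := by
    apply gfac_congr (y := fun k => if k < M then (z (k + 1))⁻¹ else
        if k = M then b0⁻¹ else b1⁻¹) e2
    intro k hk
    by_cases h : k < M
    · have : ((2 : ℕ) : ℤ) + 2 + (k : ℤ) = ((k + 1 + 3 : ℕ) : ℤ) := by push_cast; ring
      rw [this, par_nat _ (by omega)]
      simp only [h, if_true]
      rfl
    · simp only [h, if_false]
      by_cases hk : k = M
      · subst hk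
        have : par (k + 2 + 2) s (((2 : ℕ) : ℤ) + 2 + (k : ℤ)) = s 0 := by
          apply par_of s (by omega)
          refine ⟨1, by push_cast; ring⟩
        rw [this, if_pos rfl]; rfl
      · rw [if_neg hk]
        have hk' : k = M + 1 := by omega
        subst hk'
        have : par (M + 2 + 2) s (((2 : ℕ) : ℤ) + 2 + ((M + 1 : ℕ) : ℤ)) = s 1 := by
          apply par_of s (by omega)
          refine ⟨1, by push_cast; ring⟩
        rw [this]; rfl
  rw [hg, Finset.prod_range_succ, Finset.prod_range_succ] at h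
  have hp : ∏ k ∈ Finset.range M, ((if k < M then (z (k + 1))⁻¹ else
        if k = M then b0⁻¹ else b1⁻¹) - q * (z 0)⁻¹) ^ 2 =
      ∏ k ∈ Finset.range M, ((z (k + 1))⁻¹ - q * (z 0)⁻¹) ^ 2 := by
    refine Finset.prod_congr rfl fun k hk => ?_
    rw [if_pos (Finset.mem_range.1 hk)]
  rw [hp, if_neg (lt_irrefl M), if_pos rfl, if_neg (by omega), if_neg (by omega)] at h
  have hs' : (fun n => if n < 2 then s n else s (n + 2)) =
      scons b0⁻¹ (scons b1⁻¹ (fun n => (z (n + 1))⁻¹)) := by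
    funext n
    rcases n with _ | _ | n
    · rfl
    · rfl
    · rfl
  rw [hs'] at h
  have ht : scons a (scons (z 0) (fun n => z (n + 1))) = scons a z := by rw [scons_eta]
  unfold F22 F13
  rw [ht, legSum_swap 1 3, legSum_swap 2 2]
  exact h

theorem F13_rec_left (M : ℕ) (a b0 b1 b2 : ℂ) (z : ℕ → ℂ) (hz : b0 = q ^ 2 * z M) :
    F13 Ψ (M + 1) a b0 b1 b2 z =
      (-q * b0⁻¹ * ((∏ s ∈ Finset.range M, ((z s)⁻¹ - q * b0⁻¹) ^ 2) *
        (b2⁻¹ - q * b0⁻¹) ^ 2 * (b1⁻¹ - q * b0⁻¹) ^ 2) /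
        3 ^ (M + 2)) * F22 Ψ M (z M) a b1 b2 z := by
  set s : ℕ → ℂ := scons b0⁻¹ (scons b1⁻¹ (scons b2⁻¹ (fun n => (z n)⁻¹))) with hs
  set s' : ℕ → ℂ := scons a z with hs'
  have e1 : par (M + 2 + 2) s (-1) = (z M)⁻¹ := by
    have : par (M + 2 + 2) s (-1) = s (M + 3) := by
      apply par_of s (by omega)
      refine ⟨-1, by push_cast; ring⟩
    rw [this]; rfl
  have e2 : par (M + 2 + 2) s 0 = b0⁻¹ := par_nat (L := M + 2 + 2) s (n := 0) (by omega)
  have hq3 : q ^ 2 * (q ^ 2)⁻¹ = 1 := mul_inv_cancel₀ (pow_ne_zero _ q_ne_zero)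
  have h := rec_left hΨ (Lt := M + 2) (Lb := M + 2) 2 1 M
    (fun Pt Pb => hT.left 2 1 M (by omega) (by omega) Pt Pb) (by omega)
    (par (M + 2 + 2) s) (par (M + 2) s') (per_par _ _) (per_par _ _)
    (by rw [e1, e2, hz, mul_inv, ← mul_assoc, hq3, one_mul])
  rw [phi_par_left (by omega) s, rot_par (by omega) s'] at h
  have hg : gfac (M + 2) (-1) (par (M + 2 + 2) s) =
      -q * b0⁻¹ * (∏ k ∈ Finset.range (M + 2),
        (scons b1⁻¹ (scons b2⁻¹ (fun n => (z n)⁻¹)) k - q * b0⁻¹) ^ 2) / 3 ^ (M + 2) := by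
    apply gfac_congr (y := scons b1⁻¹ (scons b2⁻¹ (fun n => (z n)⁻¹))) (by simpa using e2)
    intro k hk
    have : (-1 : ℤ) + 2 + (k : ℤ) = ((k + 1 : ℕ) : ℤ) := by push_cast; ring
    rw [this, par_nat _ (by omega)]
    rfl
  rw [hg, Finset.prod_range_succ', Finset.prod_range_succ'] at h
  unfold F22 F13
  rw [legSum_swap 1 3, legSum_swap 2 2]
  exact h

end psi

end H56.EX
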