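import Pool.Agent.H56.EX.Param

/-! Symmetry of `F22`, `F13` in the glued strands. -/

namespace H56.EX

open scoped BigOperators Classical

/-- The topological lemmas on leg classes, used as hypotheses. -/
structure LegTop : Prop where
  adj : ∀ {Lt Lb : ℕ} (kt kb M : ℕ), Lt = kt + M → Lb = kb + M → ∀ (Pt : Pat Lt) (Pb : Pat Lb)
    (j : ℕ), j + 1 < M → (Leg kt kb M (E (kt + j) Pt) Pb ↔ Leg kt kb M Pt (E (kb + j) Pb))
  right : ∀ {Lt Lb : ℕ} (kt kb M : ℕ), Lt = kt + M → Lb = kb + 1 + M → ∀ (Pt : Pat Lt)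
    (Pb : Pat Lb), Leg (kt + 1) kb (M + 1) (ins kt Pt) Pb ↔ Leg kt (kb + 1) M Pt Pb
  left : ∀ {Lt Lb : ℕ} (kt kb M : ℕ), Lt = kt + M → Lb = kb + 1 + M → ∀ (Pt : Pat Lt)
    (Pb : Pat Lb), Leg (kt + 1) kb (M + 1) (ins (-1) Pt) Pb ↔ Leg kt (kb + 1) M (rot Pt) (rot Pb)

/-- genericity of two parameters -/
def Cub (x y : ℂ) : Prop := x ^ 3 ≠ y ^ 3

lemma Cub.symm {x y : ℂ} (h : Cub x y) : Cub y x := fun h' => h h'.symm

lemma Cub.ne1 {x y : ℂ} (h : Cub x y) : x ≠ y := fun e => h (by rw [e])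

lemma Cub.neq {x y : ℂ} (h : Cub x y) : x ≠ q * y := fun e => h (by
  rw [e, mul_pow, q_cube, one_mul])

lemma Cub.neq2 {x y : ℂ} (h : Cub x y) : x ≠ q ^ 2 * y := fun e => h (by
  rw [e, mul_pow, ← pow_mul, mul_comm 2 3, pow_mul, q_cube, one_pow, one_mul])

lemma Cub.g {x y : ℂ} (h : Cub x y) : q * x - q⁻¹ * y ≠ 0 := by
  intro e
  apply h.neq
  have hq := q_cube
  rw [q_inv] at e
  have : q * (x - q * y) = 0 := by linear_combination e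
  rcases mul_eq_zero.1 this with h1 | h1
  · exact absurd h1 q_ne_zero
  · exact sub_eq_zero.1 h1

lemma Cub.qmul {x y : ℂ} (h : Cub x y) : Cub (q * x) y := by
  intro e
  apply h
  rw [← e, mul_pow, q_cube, one_mul]

lemma Cub.q2mul {x y : ℂ} (h : Cub x y) : Cub (q ^ 2 * x) y := by
  intro e
  apply h
  rw [← e, mul_pow, ← pow_mul, mul_comm 2 3, pow_mul, q_cube, one_pow, one_mul]

section psi

variable {Ψ : ∀ L : ℕ, Pat L → (ℤ → ℂ) → ℂ} (hΨ : PsiProps Ψ) (hT : LegTop)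

include hΨ hT

theorem F22_swap_z (M : ℕ) (a0 a1 b0 b1 : ℂ) (z : ℕ → ℂ) (j : ℕ) (hj : j + 1 < M)
    (h0 : z j ≠ 0) (h1 : z (j + 1) ≠ 0) (hc : Cub (z j) (z (j + 1))) :
    F22 Ψ M a0 a1 b0 b1 (z ∘ Equiv.swap j (j + 1)) = F22 Ψ M a0 a1 b0 b1 z := by
  have et0 : par (M + 2) (scons a0 (scons a1 z)) (((2 : ℕ) : ℤ) + (j : ℤ)) = z j := by
    have : ((2 : ℕ) : ℤ) + (j : ℤ) = ((j + 2 : ℕ) : ℤ) := by push_cast; ring
    rw [this, par_nat _ (by omega)]; rfl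
  have et1 : par (M + 2) (scons a0 (scons a1 z)) (((2 : ℕ) : ℤ) + (j : ℤ) + 1) = z (j + 1) := by
    have : ((2 : ℕ) : ℤ) + (j : ℤ) + 1 = ((j + 1 + 2 : ℕ) : ℤ) := by push_cast; ring
    rw [this, par_nat _ (by omega)]; rfl
  have eb0 : par (M + 2) (scons b0⁻¹ (scons b1⁻¹ (fun n => (z n)⁻¹))) (((2 : ℕ) : ℤ) + (j : ℤ)) =
      (z j)⁻¹ := by
    have : ((2 : ℕ) : ℤ) + (j : ℤ) = ((j + 2 : ℕ) : ℤ) := by push_cast; ring
    rw [this, par_nat _ (by omega)]; rfl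
  have eb1 : par (M + 2) (scons b0⁻¹ (scons b1⁻¹ (fun n => (z n)⁻¹)))
      (((2 : ℕ) : ℤ) + (j : ℤ) + 1) = (z (j + 1))⁻¹ := by
    have : ((2 : ℕ) : ℤ) + (j : ℤ) + 1 = ((j + 1 + 2 : ℕ) : ℤ) := by push_cast; ring
    rw [this, par_nat _ (by omega)]; rfl
  have h := exch_glued hΨ 2 2 M j (fun Pt Pb => hT.adj 2 2 M (by omega) (by omega) Pt Pb j hj)
    (par (M + 2) (scons a0 (scons a1 z)))
    (par (M + 2) (scons b0⁻¹ (scons b1⁻¹ (fun n => (z n)⁻¹)))) (per_par _ _) (per_par _ _)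
    (by rw [et0]; exact h0) (by rw [et1]; exact h1) (by rw [eb0, et0]) (by rw [eb1, et1])
    (by rw [et0, et1]; exact hc.symm.g) (by rw [et0, et1]; exact hc.g)
  have e2 : ((2 : ℕ) : ℤ) + (j : ℤ) = ((j + 1 + 1 : ℕ) : ℤ) := by push_cast; ring
  rw [e2, swp_par _ (by omega), swp_par _ (by omega), scons_swap_succ, scons_swap_succ,
    scons_swap_succ, scons_swap_succ] at h
  exact h

theorem F13_swap_z (M : ℕ) (a b0 b1 b2 : ℂ) (z : ℕ → ℂ) (j : ℕ) (hj : j + 1 < M)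
    (h0 : z j ≠ 0) (h1 : z (j + 1) ≠ 0) (hc : Cub (z j) (z (j + 1))) :
    F13 Ψ M a b0 b1 b2 (z ∘ Equiv.swap j (j + 1)) = F13 Ψ M a b0 b1 b2 z := by
  have et0 : par (M + 1) (scons a z) (((1 : ℕ) : ℤ) + (j : ℤ)) = z j := by
    have : ((1 : ℕ) : ℤ) + (j : ℤ) = ((j + 1 : ℕ) : ℤ) := by push_cast; ring
    rw [this, par_nat _ (by omega)]; rfl
  have et1 : par (M + 1) (scons a z) (((1 : ℕ) : ℤ) + (j : ℤ) + 1) = z (j + 1) := by
    have : ((1 : ℕ) : ℤ) + (j : ℤ) + 1 = ((j + 1 + 1 : ℕ) : ℤ) := by push_cast; ring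
    rw [this, par_nat _ (by omega)]; rfl
  have eb0 : par (M + 3) (scons b0⁻¹ (scons b1⁻¹ (scons b2⁻¹ (fun n => (z n)⁻¹))))
      (((3 : ℕ) : ℤ) + (j : ℤ)) = (z j)⁻¹ := by
    have : ((3 : ℕ) : ℤ) + (j : ℤ) = ((j + 3 : ℕ) : ℤ) := by push_cast; ring
    rw [this, par_nat _ (by omega)]; rfl
  have eb1 : par (M + 3) (scons b0⁻¹ (scons b1⁻¹ (scons b2⁻¹ (fun n => (z n)⁻¹))))
      (((3 : ℕ) : ℤ) + (j : ℤ) + 1) = (z (j + 1))⁻¹ := by
    have : ((3 : ℕ) : ℤ) + (j : ℤ) + 1 = ((j + 1 + 3 : ℕ) : ℤ) := by push_cast; ring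
    rw [this, par_nat _ (by omega)]; rfl
  have h := exch_glued hΨ 1 3 M j (fun Pt Pb => hT.adj 1 3 M (by omega) (by omega) Pt Pb j hj)
    (par (M + 1) (scons a z))
    (par (M + 3) (scons b0⁻¹ (scons b1⁻¹ (scons b2⁻¹ (fun n => (z n)⁻¹))))) (per_par _ _)
    (per_par _ _)
    (by rw [et0]; exact h0) (by rw [et1]; exact h1) (by rw [eb0, et0]) (by rw [eb1, et1])
    (by rw [et0, et1]; exact hc.symm.g) (by rw [et0, et1]; exact hc.g)
  have e1 : ((1 : ℕ) : ℤ) + (j : ℤ) = ((j + 1 : ℕ) : ℤ) := by push_cast; ring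
  have e3 : ((3 : ℕ) : ℤ) + (j : ℤ) = ((j + 1 + 1 + 1 : ℕ) : ℤ) := by push_cast; ring
  rw [e1, e3, swp_par _ (by omega), swp_par _ (by omega), scons_swap_succ, scons_swap_succ,
    scons_swap_succ, scons_swap_succ] at h
  exact h

end psi

/-! ### moving a parameter to the front -/

/-- move `z j` to the front -/
def mvf (j : ℕ) (z : ℕ → ℂ) : ℕ → ℂ :=
  fun n => if n = 0 then z j else if n ≤ j then z (n - 1) else z n

lemma mvf_zero (z : ℕ → ℂ) : mvf 0 z = z := by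
  funext n
  unfold mvf
  by_cases h : n = 0
  · subst h; simp
  · rw [if_neg h, if_neg (by omega)]

lemma mvf_succ (j : ℕ) (z : ℕ → ℂ) : mvf (j + 1) z = mvf j (z ∘ Equiv.swap j (j + 1)) := by
  funext n
  unfold mvf
  by_cases h : n = 0
  · simp [h]
  rw [if_neg h, if_neg h]
  by_cases h1 : n ≤ j
  · rw [if_pos (by omega), if_pos h1, Function.comp_apply,
      Equiv.swap_apply_of_ne_of_ne (by omega) (by omega)]
  rw [if_neg h1]
  by_cases h2 : n = j + 1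
  · subst h2; simp
  · rw [if_neg (by omega), Function.comp_apply,
      Equiv.swap_apply_of_ne_of_ne (by omega) (by omega)]

/-- generic family -/
def Gen (M : ℕ) (z : ℕ → ℂ) : Prop :=
  (∀ j, j < M → z j ≠ 0) ∧ ∀ j k, j < M → k < M → j ≠ k → Cub (z j) (z k)

lemma Gen.swap {M : ℕ} {z : ℕ → ℂ} (h : Gen M z) (j : ℕ) (hj : j + 1 < M) :
    Gen M (z ∘ Equiv.swap j (j + 1)) := by
  have hb : ∀ k, k < M → Equiv.swap j (j + 1) k < M := by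
    intro k hk
    by_cases h1 : k = j
    · subst h1; simp; omega
    by_cases h2 : k = j + 1
    · subst h2; simp; omega
    rw [Equiv.swap_apply_of_ne_of_ne h1 h2]; exact hk
  refine ⟨fun k hk => h.1 _ (hb k hk), fun k l hk hl hkl => h.2 _ _ (hb k hk) (hb l hl) ?_⟩
  intro e
  exact hkl ((Equiv.swap j (j + 1)).injective e)

lemma inv_mvf {M : ℕ} (f : (ℕ → ℂ) → ℂ)
    (hf : ∀ z, Gen M z → ∀ j, j + 1 < M → f (z ∘ Equiv.swap j (j + 1)) = f z) :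
    ∀ j, j < M → ∀ z, Gen M z → f (mvf j z) = f z := by
  intro j
  induction j with
  | zero => intro _ z _; rw [mvf_zero]
  | succ j ih =>
    intro hj z hz
    rw [mvf_succ, ih (by omega) _ (hz.swap j hj), hf z hz j hj]

section psi

variable {Ψ : ∀ L : ℕ, Pat L → (ℤ → ℂ) → ℂ} (hΨ : PsiProps Ψ) (hT : LegTop)

include hΨ hT

theorem F22_mvf (M : ℕ) (a0 a1 b0 b1 : ℂ) (z : ℕ → ℂ) (hz : Gen M z) (j : ℕ) (hj : j < M) :
    F22 Ψ M a0 a1 b0 b1 (mvf j z) = F22 Ψ M a0 a1 b0 b1 z :=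
  inv_mvf (F22 Ψ M a0 a1 b0 b1) (fun z hz j hj => F22_swap_z hΨ hT M a0 a1 b0 b1 z j hj
    (hz.1 _ (by omega)) (hz.1 _ hj) (hz.2 _ _ (by omega) hj (by omega))) j hj z hz

theorem F13_mvf (M : ℕ) (a b0 b1 b2 : ℂ) (z : ℕ → ℂ) (hz : Gen M z) (j : ℕ) (hj : j < M) :
    F13 Ψ M a b0 b1 b2 (mvf j z) = F13 Ψ M a b0 b1 b2 z :=
  inv_mvf (F13 Ψ M a b0 b1 b2) (fun z hz j hj => F13_swap_z hΨ hT M a b0 b1 b2 z j hj
    (hz.1 _ (by omega)) (hz.1 _ hj) (hz.2 _ _ (by omega) hj (by omega))) j hj z hz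

end psi

end H56.EX
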