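import Pool.Agent.H56.EX.Sym
import Pool.Agent.H96.EX.SSum

/-! The function `TM M c z`: the explicit sum times the product over pairs; its recursions. -/

namespace H56.EX

open Finset Pool.Agent.H96.EX

/-- relabelling of the explicit sum -/
lemma SG_map {K ι κ : Type*} [Field K] [DecidableEq ι] [DecidableEq κ] (q u v : K) (e : ι ↪ κ)
    (s : Finset ι) (c : List K) (z : κ → K) :
    SG q u v (s.map e) c z = SG q u v s c (z ∘ e) := by
  unfold SG
  symm
  refine Finset.sum_bij (fun A _ => A.map e) ?_ ?_ ?_ ?_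
  · intro A hA
    rw [mem_powerset] at hA ⊢
    exact map_subset_map.2 hA
  · intro A _ B _ h
    exact map_injective e h
  · intro B hB
    rw [mem_powerset] at hB
    obtain ⟨A, hA, rfl⟩ := subset_map_iff.1 hB
    exact ⟨A, mem_powerset.2 hA, rfl⟩
  · intro A _
    rw [← Finset.map_sdiff]
    simp only [Finset.prod_map, Function.comp_apply]

/-- product over pairs of the first `M` strands -/
noncomputable def prp : ℕ → (ℕ → ℂ) → ℂ
  | 0, _ => 1
  | M + 1, z => (∏ k ∈ range M, (z 0 ^ 2 + z 0 * z (k + 1) + z (k + 1) ^ 2)) *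
      prp M (fun n => z (n + 1))

lemma prp_swap : ∀ (M : ℕ) (z : ℕ → ℂ) (j : ℕ), j + 1 < M →
    prp M (z ∘ Equiv.swap j (j + 1)) = prp M z := by
  intro M
  induction M with
  | zero => intro z j hj; omega
  | succ M ih =>
    intro z j hj
    rcases j with _ | j
    · obtain ⟨M, rfl⟩ : ∃ M', M = M' + 1 := ⟨M - 1, by omega⟩
      simp only [prp]
      have e : (fun n => (z ∘ Equiv.swap 0 (0 + 1)) (n + 1 + 1)) = fun n => z (n + 1 + 1) := by
        funext n
        rw [Function.comp_apply, Equiv.swap_apply_of_ne_of_ne (by omega) (by omega)]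
      rw [e, Finset.prod_range_succ', Finset.prod_range_succ']
      have e0 : (z ∘ Equiv.swap 0 (0 + 1)) 0 = z 1 := by simp
      have e1 : (z ∘ Equiv.swap 0 (0 + 1)) (0 + 1) = z 0 := by simp
      have e2 : ∀ n, (z ∘ Equiv.swap 0 (0 + 1)) (n + 1 + 1) = z (n + 1 + 1) := congrFun e
      simp only [e0, e1, e2]
      have e3 : ((z 1) ^ 2 + z 1 * z 0 + z 0 ^ 2) = z 0 ^ 2 + z 0 * z 1 + z 1 ^ 2 := by ring
      rw [e3]
      ring
    · have hp : (∏ k ∈ range M, ((z ∘ Equiv.swap (j + 1) (j + 1 + 1)) 0 ^ 2 +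
          (z ∘ Equiv.swap (j + 1) (j + 1 + 1)) 0 * (z ∘ Equiv.swap (j + 1) (j + 1 + 1)) (k + 1) +
          (z ∘ Equiv.swap (j + 1) (j + 1 + 1)) (k + 1) ^ 2)) =
          ∏ k ∈ range M, (z 0 ^ 2 + z 0 * z (k + 1) + z (k + 1) ^ 2) := by
        have e0 : (z ∘ Equiv.swap (j + 1) (j + 1 + 1)) 0 = z 0 := by
          rw [Function.comp_apply, Equiv.swap_apply_of_ne_of_ne (by omega) (by omega)]
        rw [e0]
        refine Finset.prod_bij (fun k _ => Equiv.swap j (j + 1) k) ?_ ?_ ?_ ?_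
        · intro k hk
          rw [mem_range] at hk ⊢
          by_cases h1 : k = j
          · subst h1; simp; omega
          by_cases h2 : k = j + 1
          · subst h2; simp; omega
          rw [Equiv.swap_apply_of_ne_of_ne h1 h2]; exact hk
        · intro a _ b _ h; exact (Equiv.swap j (j + 1)).injective h
        · intro b hb
          refine ⟨Equiv.swap j (j + 1) b, ?_, by simp⟩
          rw [mem_range] at hb ⊢
          by_cases h1 : b = j
          · subst h1; simp; omega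
          by_cases h2 : b = j + 1
          · subst h2; simp; omega
          rw [Equiv.swap_apply_of_ne_of_ne h1 h2]; exact hb
        · intro k _
          have e1 : (z ∘ Equiv.swap (j + 1) (j + 1 + 1)) (k + 1) =
              z (Equiv.swap j (j + 1) k + 1) := by
            rw [Function.comp_apply]
            congr 1
            by_cases h1 : k = j
            · subst h1; simp
            by_cases h2 : k = j + 1
            · subst h2; simp
            rw [Equiv.swap_apply_of_ne_of_ne h1 h2,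
              Equiv.swap_apply_of_ne_of_ne (by omega) (by omega)]
          rw [e1]
      have hs : (fun n => (z ∘ Equiv.swap (j + 1) (j + 1 + 1)) (n + 1)) =
          (fun n => z (n + 1)) ∘ Equiv.swap j (j + 1) := by
        funext k
        rw [Function.comp_apply, Function.comp_apply]
        show z _ = z (_ + 1)
        congr 1
        by_cases h1 : k = j
        · subst h1; simp
        by_cases h2 : k = j + 1
        · subst h2; simp
        rw [Equiv.swap_apply_of_ne_of_ne h1 h2,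
          Equiv.swap_apply_of_ne_of_ne (by omega) (by omega)]
      simp only [prp]
      rw [hp, hs, ih _ j (by omega)]

/-- `S_M(c;z)` at generic points -/
noncomputable def TM (M : ℕ) (c : List ℂ) (z : ℕ → ℂ) : ℂ :=
  prp M z * SG q q (q ^ 2) (range M) c z

lemma TM_perm {M : ℕ} {c c' : List ℂ} (h : c.Perm c') (z : ℕ → ℂ) : TM M c z = TM M c' z := by
  unfold TM
  rw [SG_perm h]

lemma TM_zero (c : List ℂ) (z : ℕ → ℂ) : TM 0 c z = 1 := by
  simp [TM, prp, SG_empty]

lemma TM_swap (M : ℕ) (c : List ℂ) (z : ℕ → ℂ) (j : ℕ) (hj : j + 1 < M) :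
    TM M c (z ∘ Equiv.swap j (j + 1)) = TM M c z := by
  unfold TM
  rw [prp_swap M z j hj]
  have := SG_map q q (q ^ 2) (Equiv.swap j (j + 1)).toEmbedding (range M) c z
  have hm : (range M).map (Equiv.swap j (j + 1)).toEmbedding = range M := by
    ext x
    simp only [mem_map, mem_range, Equiv.coe_toEmbedding]
    constructor
    · rintro ⟨k, hk, rfl⟩
      by_cases h1 : k = j
      · subst h1; simp; omega
      by_cases h2 : k = j + 1
      · subst h2; simp; omega
      rw [Equiv.swap_apply_of_ne_of_ne h1 h2]; exact hk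
    · intro hx
      refine ⟨Equiv.swap j (j + 1) x, ?_, by simp⟩
      by_cases h1 : x = j
      · subst h1; simp; omega
      by_cases h2 : x = j + 1
      · subst h2; simp; omega
      rw [Equiv.swap_apply_of_ne_of_ne h1 h2]; exact hx
  rw [hm] at this
  rw [this]
  rfl

lemma TM_mvf (M : ℕ) (c : List ℂ) (z : ℕ → ℂ) (hz : Gen M z) (j : ℕ) (hj : j < M) :
    TM M c (mvf j z) = TM M c z :=
  inv_mvf (TM M c) (fun z _ j hj => TM_swap M c z j hj) j hj z hz

lemma TM_congr {M : ℕ} {c : List ℂ} {z z' : ℕ → ℂ} (h : ∀ j, j < M → z j = z' j) :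
    TM M c z = TM M c z' := by
  have hp : ∀ (M : ℕ) (z z' : ℕ → ℂ), (∀ j, j < M → z j = z' j) → prp M z = prp M z' := by
    intro M
    induction M with
    | zero => intro _ _ _; rfl
    | succ M ih =>
      intro z z' h
      simp only [prp]
      rw [ih _ _ (fun j hj => h (j + 1) (by omega)), h 0 (by omega)]
      congr 1
      refine Finset.prod_congr rfl fun k hk => ?_
      rw [h (k + 1) (by have := mem_range.1 hk; omega)]
  unfold TM
  rw [hp M z z' h]
  congr 1
  unfold SG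
  refine Finset.sum_congr rfl fun A hA => ?_
  rw [mem_powerset] at hA
  congr 1
  · congr 1
    · refine Finset.prod_congr rfl fun j hj => ?_
      rw [h j (mem_range.1 (hA hj))]
    · refine Finset.prod_congr rfl fun j hj => ?_
      rw [h j (mem_range.1 (mem_sdiff.1 hj).1)]
  · refine Finset.prod_congr rfl fun j hj => Finset.prod_congr rfl fun k hk => ?_
    rw [h j (mem_range.1 (hA hj)), h k (mem_range.1 (mem_sdiff.1 hk).1)]

lemma range_erase_zero (M : ℕ) :
    (range (M + 1)).erase 0 = (range M).map (addRightEmbedding 1) := by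
  ext x
  simp only [mem_erase, mem_range, mem_map, addRightEmbedding_apply]
  constructor
  · rintro ⟨h1, h2⟩
    exact ⟨x - 1, by omega, by omega⟩
  · rintro ⟨k, hk, rfl⟩
    omega

/-- recursion at `c = q² z_0` -/
theorem TM_rec1 (M : ℕ) (c : List ℂ) (z : ℕ → ℂ) (hz : Gen (M + 1) z) :
    TM (M + 1) ((q ^ 2 * z 0) :: c) z =
      (1 - q ^ 2) * z 0 * lg c (q * z 0) * (∏ k ∈ range M, (z (k + 1) - q * z 0) ^ 2) *
        TM M (z 0 :: c) (fun n => z (n + 1)) := by
  have hd : ∀ j ∈ (range (M + 1)).erase 0, z j ≠ z 0 ∧ z j ≠ q ^ 2 * z 0 := by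
    intro j hj
    rw [mem_erase, mem_range] at hj
    have := hz.2 j 0 hj.2 (by omega) hj.1
    exact ⟨this.ne1, this.neq2⟩
  unfold TM
  rw [SG_rec1 q_sq (mem_range.2 (Nat.succ_pos M)) c z hd, range_erase_zero, SG_map,
    Finset.prod_map]
  simp only [prp, addRightEmbedding_apply]
  have hp : (∏ k ∈ range M, (z 0 ^ 2 + z 0 * z (k + 1) + z (k + 1) ^ 2)) *
      (∏ k ∈ range M, (z (k + 1) - q * z 0) / (z (k + 1) - q ^ 2 * z 0)) =
      ∏ k ∈ range M, (z (k + 1) - q * z 0) ^ 2 := by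
    rw [← Finset.prod_mul_distrib]
    refine Finset.prod_congr rfl fun k hk => ?_
    have hne : z (k + 1) - q ^ 2 * z 0 ≠ 0 :=
      sub_ne_zero.2 (hz.2 (k + 1) 0 (by have := mem_range.1 hk; omega) (by omega)
        (by omega)).neq2
    rw [mul_div_assoc', div_eq_iff hne]
    linear_combination (z 0 * z (k + 1) * (z (k + 1) - q * z 0)) * q_sq +
      (- (z 0 ^ 2 * (z (k + 1) - q * z 0))) * q_cube
  have hc : (fun n => z (n + 1)) = z ∘ (addRightEmbedding 1 : ℕ ↪ ℕ) := rfl
  rw [hc, ← hp]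
  linear_combination (z 0 * lg c (q * z 0) *
    (∏ k ∈ range M, (z 0 ^ 2 + z 0 * z (k + 1) + z (k + 1) ^ 2)) *
      (∏ k ∈ range M, (z (k + 1) - q * z 0) / (z (k + 1) - q ^ 2 * z 0)) *
      prp M (z ∘ (addRightEmbedding 1 : ℕ ↪ ℕ)) *
      SG q q (q ^ 2) (range M) (z 0 :: c) (z ∘ (addRightEmbedding 1 : ℕ ↪ ℕ))) * q_cube

/-- recursion at `c = q z_0` -/
theorem TM_rec2 (M : ℕ) (c : List ℂ) (z : ℕ → ℂ) (hz : Gen (M + 1) z) :
    TM (M + 1) ((q * z 0) :: c) z =
      (1 - q) * z 0 * lg c (q ^ 2 * z 0) * (∏ k ∈ range M, (z (k + 1) - q ^ 2 * z 0) ^ 2) *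
        TM M (z 0 :: c) (fun n => z (n + 1)) := by
  have hd : ∀ j ∈ (range (M + 1)).erase 0, z j ≠ z 0 ∧ z j ≠ q * z 0 := by
    intro j hj
    rw [mem_erase, mem_range] at hj
    have := hz.2 j 0 hj.2 (by omega) hj.1
    exact ⟨this.ne1, this.neq⟩
  unfold TM
  rw [SG_rec2 q_sq (mem_range.2 (Nat.succ_pos M)) c z hd, range_erase_zero, SG_map,
    Finset.prod_map]
  simp only [prp, addRightEmbedding_apply]
  have hp : (∏ k ∈ range M, (z 0 ^ 2 + z 0 * z (k + 1) + z (k + 1) ^ 2)) *
      (∏ k ∈ range M, (z (k + 1) - q ^ 2 * z 0) / (z (k + 1) - q * z 0)) =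
      ∏ k ∈ range M, (z (k + 1) - q ^ 2 * z 0) ^ 2 := by
    rw [← Finset.prod_mul_distrib]
    refine Finset.prod_congr rfl fun k hk => ?_
    have hne : z (k + 1) - q * z 0 ≠ 0 :=
      sub_ne_zero.2 (hz.2 (k + 1) 0 (by have := mem_range.1 hk; omega) (by omega)
        (by omega)).neq
    rw [mul_div_assoc', div_eq_iff hne]
    linear_combination (z 0 * z (k + 1) * (z (k + 1) - q ^ 2 * z 0)) * q_sq +
      (- (z 0 ^ 2 * (z (k + 1) - q ^ 2 * z 0))) * q_cube
  have hc : (fun n => z (n + 1)) = z ∘ (addRightEmbedding 1 : ℕ ↪ ℕ) := rfl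
  rw [hc, ← hp]
  linear_combination ((1 - q) * z 0 * lg c (q ^ 2 * z 0) *
    (∏ k ∈ range M, (z 0 ^ 2 + z 0 * z (k + 1) + z (k + 1) ^ 2)) *
      (∏ k ∈ range M, (z (k + 1) - q ^ 2 * z 0) / (z (k + 1) - q * z 0)) *
      prp M (z ∘ (addRightEmbedding 1 : ℕ ↪ ℕ)) *
      SG q q (q ^ 2) (range M) (z 0 :: c) (z ∘ (addRightEmbedding 1 : ℕ ↪ ℕ))) * q_cube

/-- shifting after moving the last strand to the front -/
lemma mvf_last (M : ℕ) (z : ℕ → ℂ) (j : ℕ) (hj : j < M) : mvf M z (j + 1) = z j := by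
  unfold mvf
  rw [if_neg (by omega), if_pos (by omega)]
  congr 1

lemma mvf_head (M : ℕ) (z : ℕ → ℂ) : mvf M z 0 = z M := by simp [mvf]

lemma Gen.mvf {M : ℕ} : ∀ (j : ℕ) (_ : j < M) (z : ℕ → ℂ), Gen M z → Gen M (mvf j z) := by
  intro j
  induction j with
  | zero => intro _ z hz; rw [mvf_zero]; exact hz
  | succ j ih =>
    intro hj z hz
    rw [mvf_succ]
    exact ih (by omega) _ (hz.swap j hj)

lemma prod_mvf_last (M : ℕ) (z : ℕ → ℂ) (f : ℂ → ℂ) :
    ∏ k ∈ range M, f (mvf M z (k + 1)) = ∏ k ∈ range M, f (z k) := by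
  refine Finset.prod_congr rfl fun k hk => ?_
  rw [mvf_last M z k (mem_range.1 hk)]

theorem TM_rec1_last (M : ℕ) (c : List ℂ) (z : ℕ → ℂ) (hz : Gen (M + 1) z) :
    TM (M + 1) ((q ^ 2 * z M) :: c) z =
      (1 - q ^ 2) * z M * lg c (q * z M) * (∏ k ∈ range M, (z k - q * z M) ^ 2) *
        TM M (z M :: c) z := by
  have h := TM_rec1 M c (mvf M z) (hz.mvf M (by omega) z)
  rw [mvf_head, prod_mvf_last M z (fun x => (x - q * z M) ^ 2),
    TM_mvf (M + 1) _ z hz M (by omega),
    TM_congr (z := fun n => mvf M z (n + 1)) (z' := z) (fun j hj => mvf_last M z j hj)] at h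
  exact h

theorem TM_rec2_last (M : ℕ) (c : List ℂ) (z : ℕ → ℂ) (hz : Gen (M + 1) z) :
    TM (M + 1) ((q * z M) :: c) z =
      (1 - q) * z M * lg c (q ^ 2 * z M) * (∏ k ∈ range M, (z k - q ^ 2 * z M) ^ 2) *
        TM M (z M :: c) z := by
  have h := TM_rec2 M c (mvf M z) (hz.mvf M (by omega) z)
  rw [mvf_head, prod_mvf_last M z (fun x => (x - q ^ 2 * z M) ^ 2),
    TM_mvf (M + 1) _ z hz M (by omega),
    TM_congr (z := fun n => mvf M z (n + 1)) (z' := z) (fun j hj => mvf_last M z j hj)] at h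
  exact h

/-- polynomial in the first leg -/
theorem TM_poly (M : ℕ) (c : List ℂ) (z : ℕ → ℂ) :
    ∃ p : Polynomial ℂ, p.natDegree ≤ M ∧ ∀ t, TM M (t :: c) z = p.eval t := by
  refine ⟨Polynomial.C (prp M z) * SGpoly q q (q ^ 2) (range M) c z, ?_, fun t => ?_⟩
  · refine (Polynomial.natDegree_C_mul_le _ _).trans ?_
    have := SGpoly_natDegree q q (q ^ 2) (range M) c z
    rwa [card_range] at this
  · rw [Polynomial.eval_mul, Polynomial.eval_C, SGpoly_eval]
    rfl

end H56.EX
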