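import Pool.Agent.H56.EX.Main
import Pool.Agent.H96.EX.LT1
import Pool.Agent.H7.EX.LT3
import Pool.Agent.H14.EX.LT4

/-! The topological lemmas collected. -/

namespace H56.EX

theorem legTop : LegTop where
  adj := fun kt kb M h1 h2 Pt Pb j hj => leg_adj kt kb M h1 h2 Pt Pb j hj
  right := fun kt kb M h1 h2 Pt Pb => leg_ins_right kt kb M h1 h2 Pt Pb
  left := fun kt kb M h1 h2 Pt Pb => leg_ins_left kt kb M h1 h2 Pt Pb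

/-- the (2,2) leg function -/
theorem F22_formula {Ψ : ∀ L : ℕ, Pat L → (ℤ → ℂ) → ℂ} (hΨ : PsiProps Ψ) (M : ℕ) (hM : Even M)
    (a0 a1 b0 b1 : ℂ) (z : ℕ → ℂ) (h : GG M a0 b0 b1 z) :
    F22 Ψ M a0 a1 b0 b1 z = R22 M a0 a1 b0 b1 z :=
  F22_eq hΨ legTop M hM a0 a1 b0 b1 z h

/-- the (1,3) leg function -/
theorem F13_formula {Ψ : ∀ L : ℕ, Pat L → (ℤ → ℂ) → ℂ} (hΨ : PsiProps Ψ) (M : ℕ) (hM : Odd M)
    (a b0 b1 b2 : ℂ) (z : ℕ → ℂ) (h : GG M a b0 b1 z) (h2 : b2 ≠ 0) :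
    F13 Ψ M a b0 b1 b2 z = R13 M a b0 b1 b2 z :=
  F13_eq hΨ legTop M hM a b0 b1 b2 z h h2

end H56.EX
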